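import Pool.Agent.Helper70_ABA.Trip
import Pool.Agent.Helper49_ABB.WalkSt

/-!
# Strict weights along a slit (MP_d857f1_al, part B, module EXCC)

If along a slit all pairs of walks (out and back) have exactly six corners and the tip is not
mirrored, all pairs of walks are closed reduced walks.
-/

set_option autoImplicit false

namespace Pool.Agent.ABA.B.Slt

open Pool.Agent.ABA Pool.Agent.ABA.B Pool.Agent.ABA.B.TG Pool.Agent.ABA.B.H17 Pool.Agent.ABA.B.H49

section gen

variable {V E : Type} {S : TG V E}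

theorem Red_cons {a b c : E} {r : List E} : Red (a :: b :: c :: r) ↔ a ≠ c ∧ Red (b :: c :: r) := by
  constructor
  · intro h
    refine ⟨h [] a b c r rfl, ?_⟩
    intro l x y z r' he
    exact h (a :: l) x y z r' (by rw [he]; rfl)
  · rintro ⟨h1, h2⟩ l x y z r' he
    cases l with
    | nil =>
      simp only [List.nil_append, List.cons.injEq] at he
      obtain ⟨rfl, rfl, rfl, rfl⟩ := he
      exact h1
    | cons w l =>
      simp only [List.cons_append, List.cons.injEq] at he
      exact h2 l x y z r' he.2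

theorem Red_two {a b : E} : Red [a, b] := by
  intro l x y z r he
  have := congrArg List.length he
  simp at this
  omega

theorem Red_one {a : E} : Red [a] := by
  intro l x y z r he
  have := congrArg List.length he
  simp at this
  omega

theorem four (hsys : ∀ v, CRW S v → 6 ≤ v.length) {a b c d : E} (h1 : S.Cor a b) (h2 : S.Cor b c)
    (h3 : S.Cor c d) (h4 : S.Cor d a) : a = c ∨ b = d := by
  by_contra h
  push Not at h
  have := hsys [a, b, c, d] ⟨by simp, by
    simp only [List.take_succ_cons, List.take_zero, List.cons_append, List.nil_append,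
      List.isChain_cons_cons, List.IsChain.singleton, and_true]
    exact ⟨h1, h2, h3, h4⟩, by
    simp only [List.take_succ_cons, List.take_zero, List.cons_append, List.nil_append, Red_cons]
    exact ⟨h.1, h.2, h.1.symm, h.2.symm, Red_two⟩⟩
  simp at this

/-- data of a closed reduced walk which is cut into two walks -/
structure Cut (S : TG V E) (p q : List E) (v : List E) : Prop where
  crw : CRW S v
  len : v.length = 6
  cw : ∀ θ : E → E → ℝ, ABA.B.cw θ v = ow θ p + ow θ q
  memp : ∀ e ∈ p, e ∈ v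
  memq : ∀ e ∈ q, e ∈ v

/-- Two reduced walks `x → y → x` with three to five nodes and eight nodes in total, not
backtracking at `y`: they form a closed reduced walk; in particular not backtracking at `x`. -/
theorem pair_crw (hsys : ∀ v, CRW S v → 6 ≤ v.length) {p q : List E} {x y : E}
    (hp : Wk S p x y) (hq : Wk S q y x) (rp : Red p) (rq : Red q) (h3 : 3 ≤ p.length)
    (h3' : 3 ≤ q.length) (h8 : p.length + q.length = 8)
    (hnb : ∀ l m m' r, p = l ++ [m, y] → q = y :: m' :: r → m ≠ m') :
    (∃ v, Cut S p q v) ∧ ∀ m r l m', p = x :: m :: r → q = l ++ [m', x] → m ≠ m' := by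
  obtain ⟨c1, x1, y1⟩ := hp
  obtain ⟨c2, x2, y2⟩ := hq
  rcases p with _ | ⟨p0, _ | ⟨p1, _ | ⟨p2, p⟩⟩⟩
  · simp at h3
  · simp at h3
  · simp at h3
  rcases q with _ | ⟨q0, _ | ⟨q1, _ | ⟨q2, q⟩⟩⟩
  · simp at h3'
  · simp at h3'
  · simp at h3'
  simp only [List.head?_cons, Option.some.injEq] at x1 x2
  subst x1 x2
  rcases p with _ | ⟨p3, _ | ⟨p4, p⟩⟩
  · -- 3 + 5
    rcases q with _ | ⟨q3, _ | ⟨q4, _ | ⟨q5, q⟩⟩⟩
    · simp at h8
    · simp at h8
    · simp only [List.getLast?_cons_cons, List.getLast?_singleton, Option.some.injEq] at y1 y2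
      subst y1
      have y2 := y2.symm
      subst y2
      simp only [List.isChain_cons_cons, List.IsChain.singleton, and_true] at c1 c2
      simp only [Red_cons] at rp rq
      have h1 : p1 ≠ q1 := hnb [p0] p1 q1 [q2, q3, p0] rfl rfl
      have h2 : p1 ≠ q3 := by
        intro h
        subst h
        rcases four hsys c1.2 c2.1 c2.2.1 c2.2.2.1 with h | h
        · exact h1 h
        · exact rq.1 h
      refine ⟨⟨[p0, p1, p2, q1, q2, q3], ⟨by simp, ?_, ?_⟩, rfl, ?_, ?_, ?_⟩, ?_⟩
      · simp only [List.take_succ_cons, List.take_zero, List.cons_append, List.nil_append,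
          List.isChain_cons_cons, List.IsChain.singleton, and_true]
        exact ⟨c1.1, c1.2, c2.1, c2.2.1, c2.2.2.1, c2.2.2.2⟩
      · simp only [List.take_succ_cons, List.take_zero, List.cons_append, List.nil_append, Red_cons]
        exact ⟨rp.1, h1, rq.1, rq.2.1, rq.2.2.1, h2.symm, Red_two⟩
      · intro θ
        simp only [ABA.B.cw, List.take_succ_cons, List.take_zero, List.cons_append,
          List.nil_append, ow]
        ring
      · intro e he
        simp only [List.mem_cons, List.not_mem_nil, or_false] at he ⊢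
        tauto
      · intro e he
        simp only [List.mem_cons, List.not_mem_nil, or_false] at he ⊢
        tauto
      · intro m r l m' e1 e2
        simp only [List.cons.injEq] at e1
        have e3 : [p2, q1, q2, q3, p0] = [p2, q1, q2] ++ [q3, p0] := rfl
        rw [e3] at e2
        have e4 := (List.append_inj' e2 rfl).2
        simp only [List.cons.injEq] at e4
        rw [← e1.2.1, ← e4.1]
        exact h2
    · simp at h8
      omega
  · -- 4 + 4
    rcases q with _ | ⟨q3, _ | ⟨q4, q⟩⟩
    · simp at h8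
    · simp only [List.getLast?_cons_cons, List.getLast?_singleton, Option.some.injEq] at y1 y2
      subst y1
      have y2 := y2.symm
      subst y2
      simp only [List.isChain_cons_cons, List.IsChain.singleton, and_true] at c1 c2
      simp only [Red_cons] at rp rq
      have h1 : p2 ≠ q1 := hnb [p0, p1] p2 q1 [q2, p0] rfl rfl
      have h2 : p1 ≠ q2 := by
        intro h
        subst h
        rcases four hsys c1.2.1 c1.2.2 c2.1 c2.2.1 with h | h
        · exact rp.2.1 h
        · exact h1 h
      refine ⟨⟨[p0, p1, p2, p3, q1, q2], ⟨by simp, ?_, ?_⟩, rfl, ?_, ?_, ?_⟩, ?_⟩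
      · simp only [List.take_succ_cons, List.take_zero, List.cons_append, List.nil_append,
          List.isChain_cons_cons, List.IsChain.singleton, and_true]
        exact ⟨c1.1, c1.2.1, c1.2.2, c2.1, c2.2.1, c2.2.2⟩
      · simp only [List.take_succ_cons, List.take_zero, List.cons_append, List.nil_append, Red_cons]
        exact ⟨rp.1, rp.2.1, h1, rq.1, rq.2.1, h2.symm, Red_two⟩
      · intro θ
        simp only [ABA.B.cw, List.take_succ_cons, List.take_zero, List.cons_append,
          List.nil_append, ow]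
        ring
      · intro e he
        simp only [List.mem_cons, List.not_mem_nil, or_false] at he ⊢
        tauto
      · intro e he
        simp only [List.mem_cons, List.not_mem_nil, or_false] at he ⊢
        tauto
      · intro m r l m' e1 e2
        simp only [List.cons.injEq] at e1
        have e3 : [p3, q1, q2, p0] = [p3, q1] ++ [q2, p0] := rfl
        rw [e3] at e2
        have e4 := (List.append_inj' e2 rfl).2
        simp only [List.cons.injEq] at e4
        rw [← e1.2.1, ← e4.1]
        exact h2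
    · simp at h8
      omega
  · -- 5 + 3
    rcases p with _ | ⟨p5, p⟩
    · rcases q with _ | ⟨q3, q⟩
      · simp only [List.getLast?_cons_cons, List.getLast?_singleton, Option.some.injEq] at y1 y2
        subst y1
        have y2 := y2.symm
        subst y2
        simp only [List.isChain_cons_cons, List.IsChain.singleton, and_true] at c1 c2
        simp only [Red_cons] at rp rq
        have h1 : p3 ≠ q1 := hnb [p0, p1, p2] p3 q1 [p0] rfl rfl
        have h2 : p1 ≠ q1 := by
          intro h
          subst h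
          rcases four hsys c1.2.1 c1.2.2.1 c1.2.2.2 c2.1 with h | h
          · exact h1 h.symm
          · exact rp.2.2.1 h
        refine ⟨⟨[p0, p1, p2, p3, p4, q1], ⟨by simp, ?_, ?_⟩, rfl, ?_, ?_, ?_⟩, ?_⟩
        · simp only [List.take_succ_cons, List.take_zero, List.cons_append, List.nil_append,
            List.isChain_cons_cons, List.IsChain.singleton, and_true]
          exact ⟨c1.1, c1.2.1, c1.2.2.1, c1.2.2.2, c2.1, c2.2⟩
        · simp only [List.take_succ_cons, List.take_zero, List.cons_append, List.nil_append,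
            Red_cons]
          exact ⟨rp.1, rp.2.1, rp.2.2.1, h1, rq.1, h2.symm, Red_two⟩
        · intro θ
          simp only [ABA.B.cw, List.take_succ_cons, List.take_zero, List.cons_append,
            List.nil_append, ow]
          ring
        · intro e he
          simp only [List.mem_cons, List.not_mem_nil, or_false] at he ⊢
          tauto
        · intro e he
          simp only [List.mem_cons, List.not_mem_nil, or_false] at he ⊢
          tauto
        · intro m r l m' e1 e2
          simp only [List.cons.injEq] at e1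
          have e3 : [p4, q1, p0] = [p4] ++ [q1, p0] := rfl
          rw [e3] at e2
          have e4 := (List.append_inj' e2 rfl).2
          simp only [List.cons.injEq] at e4
          rw [← e1.2.1, ← e4.1]
          exact h2
      · simp at h8
        omega
    · simp at h8
      omega

end gen

section xx

variable {G : Type} [Group G] {A B : Subgroup G} {g : G}
variable {hg : ¬ IsABA A B g} {hgeo : Geo A B} {hι : Function.Injective (Pι A B g)}
variable {N : ℕ} {a : ℕ → XE A B g} {W : ℕ → List (XE A B g)} {I : List (List (XE A B g))}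

theorem actE_inv_act (k : PP A B g) (e : XE A B g) : actE k⁻¹ (actE k e) = e := by
  rw [← Function.comp_apply (f := actE k⁻¹), ← actE_mul, inv_mul_cancel, actE_one]
  rfl

theorem actE_act_inv (k : PP A B g) (e : XE A B g) : actE k (actE k⁻¹ e) = e := by
  have := actE_inv_act k⁻¹ e
  rwa [_root_.inv_inv] at this

theorem tri_flip {e f1 f2 : XE A B g} (h : (XX hg hgeo hι).Tri e f1 f2) :
    (XX hg hgeo hι).Tri (xinv e) (xinv f2) (xinv f1) :=
  (XX hg hgeo hι).tri_rot ((XX hg hgeo hι).tri_swap h)

theorem xinv_inv (hg : ¬ IsABA A B g) (hgeo : Geo A B) (hι : Function.Injective (Pι A B g))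
    (e : XE A B g) : xinv (xinv e) = e := (XX hg hgeo hι).inv_inv e

/-- mirrored at the source means mirrored at the target -/
theorem mirror {o f1 f2 g1 g2 : XE A B g} {k : PP A B g} (h1 : (XX hg hgeo hι).Tri o f1 f2)
    (h2 : (XX hg hgeo hι).Tri (actE k (xinv o)) g1 g2) (h : f1 = actE k⁻¹ (xinv g2)) :
    xinv f2 = actE k⁻¹ g1 := by
  have h3 : (XX hg hgeo hι).Tri (actE k⁻¹ (actE k (xinv o))) (actE k⁻¹ g1) (actE k⁻¹ g2) :=
    XT_act k⁻¹ h2
  rw [actE_inv_act] at h3
  have h4 := tri_flip h3
  rw [xinv_inv hg hgeo hι, xinv_act k⁻¹ g2, ← h] at h4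
  have h5 := (XX hg hgeo hι).tri_uniq h1 h4
  rw [h5, xinv_inv hg hgeo hι]

/-- the back letters of the slit: `out` letters `i0, …, i0 + l - 1`, back letters
`i0 + l, …, i0 + 2 l - 1`, the back letter of `o` is `k (inv o)` -/
def Back (a : ℕ → XE A B g) (k : PP A B g) (i0 l : ℕ) : Prop :=
  ∀ j j', j + j' + 1 = 2 * l → j < l → a (i0 + j') = actE k (xinv (a (i0 + j)))

theorem red_map {k : PP A B g} {v : List (XE A B g)} (h : Red v) : Red (v.map (actE k)) := by
  intro l x y z r he
  obtain ⟨l', r', rfl, h1, h2⟩ := List.map_eq_append_iff.1 he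
  obtain ⟨x', t1, rfl, rfl, h3⟩ := List.map_eq_cons_iff.1 h2
  obtain ⟨y', t2, rfl, rfl, h4⟩ := List.map_eq_cons_iff.1 h3
  obtain ⟨z', t3, rfl, rfl, h5⟩ := List.map_eq_cons_iff.1 h4
  intro h6
  exact h l' x' y' z' t3 rfl (actE_inj k h6)

theorem cor_act {k : PP A B g} {e f : XE A B g} (h : (XX hg hgeo hι).Cor e f) :
    (XX hg hgeo hι).Cor (actE k e) (actE k f) := by
  obtain ⟨c, hc⟩ := h
  exact ⟨_, XT_act k hc⟩

theorem chain_map {k : PP A B g} {v : List (XE A B g)} (h : v.IsChain (XX hg hgeo hι).Cor) :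
    (v.map (actE k)).IsChain (XX hg hgeo hι).Cor := by
  rw [List.isChain_map]
  exact h.imp (fun _ _ h => cor_act h)

theorem wk_map {k : PP A B g} {v : List (XE A B g)} {x y : XE A B g}
    (h : Wk (XX hg hgeo hι) v x y) : Wk (XX hg hgeo hι) (v.map (actE k)) (actE k x) (actE k y) := by
  refine ⟨chain_map h.1, ?_, ?_⟩
  · rw [List.head?_map, h.2.1]; rfl
  · rw [List.getLast?_map, h.2.2]; rfl

theorem ow_map (k : PP A B g) (v : List (XE A B g)) : ow θR (v.map (actE k)) = ow θR v := by
  induction v with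
  | nil => rfl
  | cons e v ih =>
    cases v with
    | nil => rfl
    | cons f v =>
      rw [List.map_cons, List.map_cons, ow, ow, ← List.map_cons, ih]
      have : (θR (actE k e) (actE k f) : ℝ) = θR e f := by
        unfold θR
        rw [kndE_act, kndE_act]
      rw [this]

/-- the walks at the boundary -/
theorem bd_wk (h : Bd (XX hg hgeo hι) N a W I) (i : ℕ) :
    Wk (XX hg hgeo hι) (W (i + 1)) (xinv (a i)) (a (i + 1)) := by
  obtain ⟨f1, f2, l, r, -, -, h3⟩ := h.edg i
  obtain ⟨g1, g2, l', r', -, h2, -⟩ := h.edg (i + 1)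
  refine ⟨h.chain _, ?_, ?_⟩
  · rw [h3]; rfl
  · rw [h2]
    simp

/-- one pair of walks along a slit -/
theorem slit_pair (hA : ∀ x ∈ A, ∀ y ∈ A, x * y = y * x) (h : Bd (XX hg hgeo hι) N a W I)
    {k : PP A B g} {i0 l : ℕ} (hb : Back a k i0 l) {j j' : ℕ} (hj : j + 1 < l)
    (hjj : j + 1 + j' = 2 * l)
    (h3 : 3 ≤ (W (i0 + j + 1)).length) (h3' : 3 ≤ (W (i0 + j')).length)
    (h8 : (W (i0 + j + 1)).length + (W (i0 + j')).length = 8)
    (hnb : ∀ l1 m m' r, W (i0 + j + 1) = l1 ++ [m, a (i0 + j + 1)] →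
      W (i0 + j') = xinv (a (i0 + j' - 1)) :: m' :: r → m ≠ actE k⁻¹ m') :
    (∃ v, Cut (XX hg hgeo hι) (W (i0 + j + 1)) ((W (i0 + j')).map (actE k⁻¹)) v) ∧
    ∀ m r l1 m', W (i0 + j + 1) = xinv (a (i0 + j)) :: m :: r →
      W (i0 + j') = l1 ++ [m', a (i0 + j')] → m ≠ actE k⁻¹ m' := by
  obtain ⟨t, rfl⟩ : ∃ t, j' = t + 1 := ⟨j' - 1, by omega⟩
  have e1 : a (i0 + t) = actE k (xinv (a (i0 + (j + 1)))) := hb (j + 1) t (by omega) (by omega)
  have e2 : a (i0 + (t + 1)) = actE k (xinv (a (i0 + j))) := hb j (t + 1) (by omega) (by omega)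
  have hp := bd_wk h (i0 + j)
  have hq := wk_map (k := k⁻¹) (bd_wk h (i0 + t))
  have e3 : actE k⁻¹ (xinv (a (i0 + t))) = a (i0 + j + 1) := by
    rw [e1, xinv_act, xinv_inv hg hgeo hι, actE_inv_act, add_assoc]
  have e4 : actE k⁻¹ (a (i0 + t + 1)) = xinv (a (i0 + j)) := by
    rw [add_assoc, e2, actE_inv_act]
  rw [e3, e4] at hq
  have hqq : W (i0 + (t + 1)) = W (i0 + t + 1) := by rw [add_assoc]
  rw [hqq] at h3' h8 hnb ⊢
  have key := pair_crw (S := XX hg hgeo hι) (hsysX hA) hp hq (h.red _) (red_map (h.red _)) h3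
    (by rw [List.length_map]; exact h3') (by rw [List.length_map]; exact h8) (by
      intro l1 m m' r hl hr
      obtain ⟨m0, t1, hx, hm0, hr2⟩ : ∃ m0 t1, W (i0 + t + 1) = xinv (a (i0 + t)) :: m0 :: t1 ∧
          actE k⁻¹ m0 = m' ∧ t1.map (actE k⁻¹) = r := by
        obtain ⟨x0, t0, h1, h2, h3⟩ := List.map_eq_cons_iff.1 hr
        obtain ⟨m0, t1, h4, h5, h6⟩ := List.map_eq_cons_iff.1 h3
        refine ⟨m0, t1, ?_, h5, h6⟩
        rw [h1, h4]
        congr 1
        apply actE_inj k⁻¹
        rw [h2, e3]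
      rw [← hm0]
      exact hnb l1 m m0 t1 hl (by
        rw [hx]
        rfl))
  refine ⟨key.1, ?_⟩
  intro m r l1 m' h1 h2
  refine key.2 m r (l1.map (actE k⁻¹)) (actE k⁻¹ m') h1 ?_
  rw [h2, List.map_append, List.map_cons, List.map_cons, List.map_nil, ← add_assoc, e4]

/-- not mirrored at the target of an out letter implies not mirrored at its source -/
theorem nm_step (h : Bd (XX hg hgeo hι) N a W I) {k : PP A B g} {i i' : ℕ}
    (hb : a i' = actE k (xinv (a i)))
    (hnm : ∀ m r l1 m', W (i + 1) = xinv (a i) :: m :: r → W i' = l1 ++ [m', a i'] →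
      m ≠ actE k⁻¹ m') :
    ∀ l1 m m' r, W i = l1 ++ [m, a i] → W (i' + 1) = xinv (a i') :: m' :: r →
      m ≠ actE k⁻¹ m' := by
  intro l1 m m' r h1 h2 h3
  obtain ⟨f1, f2, l, r1, t1, w1, w2⟩ := h.edg i
  obtain ⟨g1, g2, l', r2, t2, w3, w4⟩ := h.edg i'
  have hf : m = f1 := by
    rw [w1] at h1
    have := (List.append_inj' h1 rfl).2
    simp only [List.cons.injEq] at this
    exact this.1.symm
  have hg' : m' = xinv g2 := by
    rw [w4] at h2
    simp only [List.cons.injEq] at h2
    exact h2.2.1.symm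
  rw [hb] at t2
  rw [hf, hg'] at h3
  exact hnm (xinv f2) r1 l' g1 w2 w3 (mirror t1 t2 h3)

/-- **Strict weights along a slit.** All pairs of walks are closed reduced walks with six corners. -/
theorem slit_strict (hA : ∀ x ∈ A, ∀ y ∈ A, x * y = y * x) (h : Bd (XX hg hgeo hι) N a W I)
    {k : PP A B g} {i0 l : ℕ} (hb : Back a k i0 l)
    (hpair : ∀ j j', 1 ≤ j → j < l → j + j' = 2 * l → 3 ≤ (W (i0 + j)).length ∧
      3 ≤ (W (i0 + j')).length ∧ (W (i0 + j)).length + (W (i0 + j')).length = 8)
    {n : XE A B g} (htip : 1 ≤ l → W (i0 + l) = [xinv (a (i0 + l - 1)), n, a (i0 + l)])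
    (hn : actE k n ≠ n) :
    (∀ j j', j < l → j + j' = 2 * l → ∀ l1 m m' r, W (i0 + j) = l1 ++ [m, a (i0 + j)] →
      W (i0 + j') = xinv (a (i0 + j' - 1)) :: m' :: r → m ≠ actE k⁻¹ m') ∧
    (∀ j j', 1 ≤ j → j < l → j + j' = 2 * l →
      ∃ v, Cut (XX hg hgeo hι) (W (i0 + j)) ((W (i0 + j')).map (actE k⁻¹)) v) := by
  have C : ∀ d j j', j + d + 1 = l → j + j' = 2 * l → ∀ l1 m m' r,
      W (i0 + j) = l1 ++ [m, a (i0 + j)] →
      W (i0 + j') = xinv (a (i0 + j' - 1)) :: m' :: r → m ≠ actE k⁻¹ m' := by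
    intro d
    induction d with
    | zero =>
      intro j j' hj hjj l1 m m' r h1 h2
      obtain ⟨t, rfl⟩ : ∃ t, j' = t + 1 := ⟨j' - 1, by omega⟩
      have ht : t = l := by omega
      subst ht
      have e1 : a (i0 + t) = actE k (xinv (a (i0 + j))) := hb j t (by omega) (by omega)
      have e2 : i0 + t - 1 = i0 + j := by omega
      have ht := htip (by omega)
      rw [e2] at ht
      have e3 : i0 + t = i0 + j + 1 := by omega
      refine nm_step h e1 ?_ l1 m m' r h1 ?_
      · intro x r' l2 x' h5 h6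
        rw [← e3, ht] at h5
        rw [ht] at h6
        simp only [List.cons.injEq] at h5
        have h7 : [xinv (a (i0 + j)), n, a (i0 + t)] = [xinv (a (i0 + j))] ++ [n, a (i0 + t)] := rfl
        rw [h7] at h6
        have h8 := (List.append_inj' h6 rfl).2
        simp only [List.cons.injEq] at h8
        rw [← h5.2.1, ← h8.1]
        intro h9
        apply hn
        conv_lhs => rw [h9]
        rw [actE_act_inv]
      · rw [show i0 + t + 1 = i0 + (t + 1) by ring, h2]
        congr 2
    | succ d ih =>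
      intro j j' hj hjj
      obtain ⟨t, rfl⟩ : ∃ t, j' = t + 1 := ⟨j' - 1, by omega⟩
      have hC := ih (j + 1) t (by omega) (by omega)
      have hp := hpair (j + 1) t (by omega) (by omega) (by omega)
      rw [← add_assoc] at hp hC
      have h5 := (slit_pair hA h hb (j := j) (j' := t) (by omega) (by omega) hp.1 hp.2.1 hp.2.2
        hC).2
      have e1 : a (i0 + t) = actE k (xinv (a (i0 + j))) := hb j t (by omega) (by omega)
      intro l1 m m' r h1 h2
      refine nm_step h e1 h5 l1 m m' r h1 ?_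
      rw [show i0 + t + 1 = i0 + (t + 1) by ring, h2]
      congr 2
  refine ⟨fun j j' hj hjj => C (l - 1 - j) j j' (by omega) hjj, ?_⟩
  intro j j' hj hjl hjj
  obtain ⟨i, rfl⟩ : ∃ i, j = i + 1 := ⟨j - 1, by omega⟩
  have hp := hpair (i + 1) j' hj hjl hjj
  have hC := C (l - 1 - (i + 1)) (i + 1) j' (by omega) hjj
  rw [← add_assoc] at hp hC
  rw [← add_assoc]
  exact (slit_pair hA h hb (j := i) (j' := j') hjl (by omega) hp.1 hp.2.1 hp.2.2 hC).1

/-- the weight of a pair -/
theorem cut_six (hA : ∀ x ∈ A, ∀ y ∈ A, x * y = y * x) {p q v : List (XE A B g)} {k : PP A B g}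
    (hc : Cut (XX hg hgeo hι) p (q.map (actE k⁻¹)) v) : 6 ≤ ow θR p + ow θR q ∧
      ((∃ e ∈ p, ∃ f ∈ p, car e ≠ car f) → 6.1 ≤ ow θR p + ow θR q) := by
  obtain ⟨h2, h3, h4⟩ := hc.crw
  have hv : v ≠ [] := by
    rintro rfl
    simp at h2
  have h6 := (link_X' hg hgeo hι hA v hv h3 h4).2
  rw [hc.cw θR, ow_map] at h6
  rcases h6 with h6 | ⟨-, h6, q0, h7, -⟩
  · exact ⟨by linarith, fun _ => h6⟩
  · refine ⟨by linarith, ?_⟩
    rintro ⟨e, he, f, hf, hne⟩
    exfalso
    apply hne
    obtain ⟨m, rfl⟩ := h7 e (hc.memp e he)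
    obtain ⟨m', rfl⟩ := h7 f (hc.memp f hf)
    rfl

end xx

end Pool.Agent.ABA.B.Slt
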