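import Pool.Agent.Helper70_ABA.Exc1
import Pool.Agent.Helper70_ABA.SlitW

/-!
# The exceptional case: geometry (MP_d857f1_al, part B, module EXCC; plan section 8)
-/

set_option autoImplicit false

namespace Pool.Agent.ABA.B.Exc

open Knd Pool.Agent.ABA Pool.Agent.ABA.B Pool.Agent.ABA.B.TG Pool.Agent.ABA.B.H17
  Pool.Agent.ABA.B.H49 Pool.Agent.ABA.B.Slt Pool.Agent.ABA.B.H89

/-- splitting the sum over the boundary -/
theorem sumsplit {M : Type*} [AddCommMonoid M] (f : ℕ → M) (m : ℕ) :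
    ∑ i ∈ Finset.range (2 * m + 4), f (i + 1) =
      f 1 + f (2 * m + 3) + f (2 * m + 4) + f (m + 2) +
        ∑ j ∈ Finset.range m, (f (j + 2) + f (2 * m + 2 - j)) := by
  have h1 : ∑ i ∈ Finset.range (2 * m + 4), f (i + 1) =
      (∑ i ∈ Finset.range (2 * m + 2), f (i + 1)) + f (2 * m + 3) + f (2 * m + 4) := by
    rw [Finset.sum_range_succ, Finset.sum_range_succ]
  have h2 : ∑ i ∈ Finset.range (2 * m + 2), f (i + 1) =
      (∑ i ∈ Finset.range (2 * m + 1), f (i + 2)) + f 1 := by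
    rw [Finset.sum_range_succ']
  have h3 : ∑ i ∈ Finset.range (2 * m + 1), f (i + 2) =
      (∑ i ∈ Finset.range m, f (i + 2)) + (f (m + 2) + ∑ i ∈ Finset.range m, f (m + 3 + i)) := by
    rw [show 2 * m + 1 = m + (m + 1) by ring, Finset.sum_range_add, Finset.sum_range_succ']
    congr 1
    rw [add_comm]
    congr 1
    refine Finset.sum_congr rfl (fun i _ => ?_)
    congr 1
    ring
  have h4 : ∑ i ∈ Finset.range m, f (m + 3 + i) = ∑ j ∈ Finset.range m, f (2 * m + 2 - j) := by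
    rw [← Finset.sum_range_reflect]
    refine Finset.sum_congr rfl (fun i hi => ?_)
    rw [Finset.mem_range] at hi
    congr 1
    omega
  rw [h1, h2, h3, h4, Finset.sum_add_distrib]
  abel

section gen

variable {V E : Type} {S : TG V E}

theorem wk_join {p q : List E} {x y z : E} (hp : Wk S p x y) (hq : Wk S q y z) :
    ∃ r, Wk S r x z ∧ r.length + 1 = p.length + q.length ∧
      (∀ θ : E → E → ℝ, ow θ r = ow θ p + ow θ q) ∧ (∃ t, r = p ++ t) ∧ ∃ t, r = t ++ q := by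
  obtain ⟨c1, x1, y1⟩ := hp
  obtain ⟨c2, x2, y2⟩ := hq
  obtain ⟨q', rfl⟩ : ∃ q', q = y :: q' := by
    cases q with
    | nil => simp at x2
    | cons b q' =>
      simp only [List.head?_cons, Option.some.injEq] at x2
      exact ⟨q', by rw [x2]⟩
  have hpne : p ≠ [] := by
    rintro rfl
    simp at x1
  obtain ⟨p', rfl⟩ : ∃ p', p = p' ++ [y] := by
    refine ⟨p.dropLast, ?_⟩
    have h1 := List.dropLast_append_getLast hpne
    rw [List.getLast?_eq_some_getLast hpne, Option.some.injEq] at y1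
    rw [y1] at h1
    exact h1.symm
  refine ⟨p' ++ y :: q', ⟨?_, ?_, ?_⟩, by simp; omega, ?_, ⟨q', by simp⟩, ⟨p', rfl⟩⟩
  · rw [List.isChain_append] at c1 ⊢
    refine ⟨c1.1, c2, ?_⟩
    intro u hu v hv
    simp only [List.head?_cons, Option.mem_def, Option.some.injEq] at hv
    exact c1.2.2 u hu v (by simpa using hv)
  · cases p' with
    | nil => simpa using x1
    | cons b p' => simpa using x1
  · rw [List.getLast?_append_cons]
    exact y2
  · intro θ
    clear x1 c1 hpne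
    induction p' with
    | nil => simp [ow]
    | cons b p' ih =>
      cases p' with
      | nil => simp [ow]
      | cons d p'' =>
        rw [List.cons_append, List.cons_append, ow, ← List.cons_append, ih (by simpa using y1)]
        simp only [List.cons_append, ow]
        ring

theorem wk_rev (hs : ∀ a b, S.Cor a b → S.Cor b a) {p : List E} {x y : E} (hp : Wk S p x y) :
    Wk S p.reverse y x := by
  refine ⟨?_, ?_, ?_⟩
  · rw [List.isChain_reverse]
    exact hp.1.imp (fun _ _ h => hs _ _ h)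
  · rw [List.head?_reverse]; exact hp.2.2
  · rw [List.getLast?_reverse]; exact hp.2.1

end gen

section xx

variable {G : Type} [Group G] {A B : Subgroup G} {g : G}
variable {hg : ¬ IsABA A B g} {hgeo : Geo A B} {hι : Function.Injective (Pι A B g)}

theorem cor_sym {e f : XE A B g} (h : (XX hg hgeo hι).Cor e f) : (XX hg hgeo hι).Cor f e := by
  obtain ⟨c, hc⟩ := h
  exact ⟨_, (XX hg hgeo hι).tri_swap hc⟩

/-- the T-corners -/
theorem tcor {e f : XE A B g} (h : (XX hg hgeo hι).Cor e f) (hne : car e ≠ car f) :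
    (kndE e = vm ∧ kndE f = up) ∨ (kndE e = up ∧ kndE f = vm) ∨ (kndE e = cp ∧ kndE f = um) ∨
    (kndE e = um ∧ kndE f = cp) ∨ (kndE e = vp ∧ kndE f = cm) ∨ (kndE e = cm ∧ kndE f = vp) := by
  rcases (cor_iff e f).1 h with ⟨m, p, rfl, rfl⟩ | ⟨m, p, rfl, rfl⟩ | ⟨p, rfl, rfl⟩ |
    ⟨p, rfl, rfl⟩ | ⟨p, rfl, rfl⟩ | ⟨p, rfl, rfl⟩ | ⟨p, rfl, rfl⟩ | ⟨p, rfl, rfl⟩
  · exact absurd rfl hne
  · exact absurd rfl hne
  all_goals simp [kndD, kndC]

theorem tcor_O {e f : XE A B g} (h : (XX hg hgeo hι).Cor e f) (hne : car e ≠ car f)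
    (ho : isO (kndE e) = true) : (θR e f : ℝ) = 0.9 := by
  unfold θR
  rcases tcor h hne with ⟨h1, h2⟩ | ⟨h1, h2⟩ | ⟨h1, h2⟩ | ⟨h1, h2⟩ | ⟨h1, h2⟩ | ⟨h1, h2⟩ <;>
    rw [h1] at ho <;> rw [h1, h2] <;> first | (simp [isO] at ho; done) | (simp [wt]; norm_num)

theorem tcor_PQ {e f : XE A B g} (h : (XX hg hgeo hι).Cor e f) (hne : car e ≠ car f)
    (ho : isPQ (kndE e) = true) : (θR e f : ℝ) = 1.05 := by
  unfold θR
  rcases tcor h hne with ⟨h1, h2⟩ | ⟨h1, h2⟩ | ⟨h1, h2⟩ | ⟨h1, h2⟩ | ⟨h1, h2⟩ | ⟨h1, h2⟩ <;>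
    rw [h1] at ho <;> rw [h1, h2] <;> first | (simp [isPQ] at ho; done) | (simp [wt]; norm_num)

theorem θR_sym (e f : XE A B g) : (θR e f : ℝ) = θR f e := by unfold θR; rw [wt_symm]

/-- weight of a walk with three nodes -/
theorem ow3_O {v : List (XE A B g)} {e e' : XE A B g} (hv : Wk (XX hg hgeo hι) v e e')
    (h3 : v.length = 3) (h1 : TFst v) (h2 : TLst v) (ho : isO (kndE e) = true)
    (ho' : isO (kndE e') = true) : ow θR v = 1.8 := by
  obtain ⟨c, hh, hl⟩ := hv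
  rcases v with _ | ⟨v0, _ | ⟨v1, _ | ⟨v2, _ | ⟨v3, v⟩⟩⟩⟩
  · simp at h3
  · simp at h3
  · simp at h3
  · simp only [List.head?_cons, Option.some.injEq] at hh
    simp only [List.getLast?_cons_cons, List.getLast?_singleton, Option.some.injEq] at hl
    subst hh hl
    simp only [List.isChain_cons_cons, List.IsChain.singleton, and_true] at c
    obtain ⟨x, y, r, h4, h5⟩ := h1
    simp only [List.cons.injEq] at h4
    obtain ⟨r', y', x', h6, h7⟩ := h2
    have h8 : [v0, v1, v2] = [v0] ++ [v1, v2] := rfl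
    rw [h8] at h6
    have h9 := (List.append_inj' h6 rfl).2
    simp only [List.cons.injEq] at h9
    rw [← h4.1, ← h4.2.1] at h5
    rw [← h9.1, ← h9.2.1] at h7
    have k1 := tcor_O c.1 h5.symm ho
    have k2 := tcor_O (cor_sym c.2) h7.symm ho'
    simp only [ow]
    rw [k1, θR_sym v1, k2]
    norm_num
  · simp at h3

theorem ow3_PQ {v : List (XE A B g)} {e e' : XE A B g} (hv : Wk (XX hg hgeo hι) v e e')
    (h3 : v.length = 3) (h1 : TFst v) (h2 : TLst v) (ho : isPQ (kndE e) = true)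
    (ho' : isPQ (kndE e') = true) : ow θR v = 2.1 := by
  obtain ⟨c, hh, hl⟩ := hv
  rcases v with _ | ⟨v0, _ | ⟨v1, _ | ⟨v2, _ | ⟨v3, v⟩⟩⟩⟩
  · simp at h3
  · simp at h3
  · simp at h3
  · simp only [List.head?_cons, Option.some.injEq] at hh
    simp only [List.getLast?_cons_cons, List.getLast?_singleton, Option.some.injEq] at hl
    subst hh hl
    simp only [List.isChain_cons_cons, List.IsChain.singleton, and_true] at c
    obtain ⟨x, y, r, h4, h5⟩ := h1
    simp only [List.cons.injEq] at h4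
    obtain ⟨r', y', x', h6, h7⟩ := h2
    have h8 : [v0, v1, v2] = [v0] ++ [v1, v2] := rfl
    rw [h8] at h6
    have h9 := (List.append_inj' h6 rfl).2
    simp only [List.cons.injEq] at h9
    rw [← h4.1, ← h4.2.1] at h5
    rw [← h9.1, ← h9.2.1] at h7
    have k1 := tcor_PQ c.1 h5.symm ho
    have k2 := tcor_PQ (cor_sym c.2) h7.symm ho'
    simp only [ow]
    rw [k1, θR_sym v1, k2]
    norm_num
  · simp at h3

/-- edge data -/
theorem edg0 {w : List (XE A B g)} {a : ℕ → XE A B g} {W : ℕ → List (XE A B g)}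
    {I : List (List (XE A B g))} (h : BdA (XX hg hgeo hι) w a W I) (hw : w ≠ []) (i : ℕ) :
    ∃ f1 f2 l r, (XX hg hgeo hι).Tri (a i) f1 f2 ∧ W i = l ++ [f1, a i] ∧
      W (i + 1) = xinv (a i) :: xinv f2 :: r := by
  obtain ⟨j, hj, h1, h2, h3⟩ := get_mod h hw i
  obtain ⟨f1, f2, l, r, hT, hW1, hW2, hd⟩ := h.drop j hj
  rw [h1, h2, h3]
  exact ⟨f1, f2, l, r, hT, hW1, hW2⟩

theorem edgF {w : List (XE A B g)} {a : ℕ → XE A B g} {W : ℕ → List (XE A B g)}
    {I : List (List (XE A B g))} (h : BdA (XX hg hgeo hι) w a W I) (hw : w ≠ []) (i : ℕ)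
    (hl : TLst (W i)) (hf : TFst (W (i + 1))) :
    ∃ f1 f2 l r, (XX hg hgeo hι).Tri (a i) f1 f2 ∧ W i = l ++ [f1, a i] ∧
      W (i + 1) = xinv (a i) :: xinv f2 :: r ∧ car f1 ≠ car (a i) ∧ car f2 ≠ car (a i) := by
  obtain ⟨f1, f2, l, r, hT, hW1, hW2⟩ := edg0 h hw i
  refine ⟨f1, f2, l, r, hT, hW1, hW2, ?_, ?_⟩
  · obtain ⟨l', x, y, h1, h2⟩ := hl
    rw [hW1] at h1
    have h3 := (List.append_inj' h1 rfl).2
    simp only [List.cons.injEq] at h3
    rw [h3.1, h3.2.1]
    exact h2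
  · obtain ⟨x, y, r', h1, h2⟩ := hf
    rw [hW2] at h1
    simp only [List.cons.injEq] at h1
    rw [← h1.1, ← h1.2.1, car_inv, car_inv] at h2
    exact h2

/-- The configuration of the exceptional case: `w = s, slit, back slit, t`. -/
structure ExcD (hg : ¬ IsABA A B g) (hgeo : Geo A B) (hι : Function.Injective (Pι A B g))
    (w : List (XE A B g)) (a : ℕ → XE A B g) (W : ℕ → List (XE A B g))
    (I : List (List (XE A B g))) (T : Trp A B g) (l : ℕ) : Prop where
  bd : BdA (XX hg hgeo hι) w a W I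
  fl : TLst (W 0) ∧ TFst (W 1) ∧ TLst (W (2 * l + 1)) ∧ TFst (W (2 * l + 2))
  rt : T.Rt
  hl : 1 ≤ l
  hN : w.length = 2 * l + 2
  cs : car (a 0) = T.c1
  ct : car (a (2 * l + 1)) = T.c3
  s1 : xsrc (a 1) = T.z1 • xsrc (a 0)
  s3 : xsrc (a 0) = T.z3 • xsrc (a (2 * l + 1))
  back : Back a (T.z1 * T.z2 * T.z1⁻¹) 1 l
  last : car (a l) ≠ T.z1 • T.c2
  pair : ∀ j j', 1 ≤ j → j < l → j + j' = 2 * l → 3 ≤ (W (1 + j)).length ∧
    3 ≤ (W (1 + j')).length ∧ 8 ≤ (W (1 + j)).length + (W (1 + j')).length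
  tip : 3 ≤ (W (1 + l)).length
  tip' : ∀ n, W (1 + l) = [xinv (a l), n, a (1 + l)] → car n ≠ T.z1 • T.c2

variable {w : List (XE A B g)} {a : ℕ → XE A B g} {W : ℕ → List (XE A B g)}
    {I : List (List (XE A B g))} {T : Trp A B g} {l : ℕ}

theorem ExcD.wne (h : ExcD hg hgeo hι w a W I T l) : w ≠ [] := by
  rintro rfl
  have := h.hN
  simp at this

theorem ExcD.per0 (h : ExcD hg hgeo hι w a W I T l) : a (2 * l + 2) = a 0 := by
  have := h.bd.per 0
  rwa [Nat.zero_add, h.hN] at this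

theorem ExcD.perW0 (h : ExcD hg hgeo hι w a W I T l) : W (2 * l + 2) = W 0 := by
  have := h.bd.perW 0
  rwa [Nat.zero_add, h.hN] at this

theorem z_rel (hT : T.Ok) : T.z3 * (T.z1 * T.z2 * T.z1⁻¹) = T.z1⁻¹ := by
  have h1 := mul3_cyc (mul3_cyc hT.mul)
  have h2 : T.z3 * (T.z1 * T.z2 * T.z1⁻¹) = (T.z3 * T.z1 * T.z2) * T.z1⁻¹ := by group
  rw [h2, h1, one_mul]

theorem actE_comp (p q : PP A B g) (e : XE A B g) : actE p (actE q e) = actE (p * q) e := by
  rw [actE_mul]; rfl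

/-- the walk `v` (at `p`, from `s` to `inv t`) and the walk `b` (from `z1⁻¹ inv s` through the first
letter of the slit to `z3 t`) -/
theorem ExcD.walks (h : ExcD hg hgeo hι w a W I T l) :
    ∃ v b : List (XE A B g),
      Wk (XX hg hgeo hι) v (a 0) (xinv (a (2 * l + 1))) ∧ TFst v ∧ TLst v ∧
      Wk (XX hg hgeo hι) b (actE T.z1⁻¹ (xinv (a 0))) (actE T.z3 (a (2 * l + 1))) ∧
      TFst b ∧ TLst b ∧ v.length = (W 0).length ∧ ow θR v = ow θR (W 0) ∧
      b.length + 1 = (W 1).length + (W (2 * l + 1)).length ∧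
      ow θR b = ow θR (W 1) + ow θR (W (2 * l + 1)) ∧ 2 ≤ (W 1).length ∧
      2 ≤ (W (2 * l + 1)).length ∧ 2 ≤ (W 0).length := by
  obtain ⟨hT, ⟨q1, hq1⟩, -, ⟨q3, hq3⟩, -⟩ := h.rt
  obtain ⟨m0, p0, he0⟩ := plane_letter (h.cs.trans hq1)
  obtain ⟨m3, p3, he3⟩ := plane_letter (h.ct.trans hq3)
  -- edge data
  obtain ⟨f1, f2, l1, r1, -, w1, w2, n1'⟩ := edgF h.bd h.wne 0 h.fl.1 h.fl.2.1
  obtain ⟨g1, g2, l2, r2, -, w3, w4, n2'⟩ := edgF h.bd h.wne (2 * l + 1) h.fl.2.2.1 h.fl.2.2.2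
  rw [show 2 * l + 1 + 1 = 2 * l + 2 by ring, h.perW0] at w4
  rw [Nat.zero_add] at w2
  -- walks at the boundary
  have k0 := bd_wk h.bd.toBd (2 * l + 1)
  rw [show 2 * l + 1 + 1 = 2 * l + 2 by ring, h.perW0, h.per0] at k0
  have k1 := bd_wk h.bd.toBd 0
  have k2 := bd_wk h.bd.toBd (2 * l)
  rw [Nat.zero_add] at k1
  have hk : a (2 * l) = actE (T.z1 * T.z2 * T.z1⁻¹) (xinv (a 1)) := by
    have := h.back 0 (2 * l - 1) (by have := h.hl; omega) (by have := h.hl; omega)
    rwa [show 1 + (2 * l - 1) = 2 * l by have := h.hl; omega] at this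
  have k1' := wk_map (k := T.z1⁻¹) k1
  have k2' := wk_map (k := T.z3) k2
  have e2 : actE T.z3 (xinv (a (2 * l))) = actE T.z1⁻¹ (a 1) := by
    rw [hk, xinv_act, xinv_inv hg hgeo hι, actE_comp, z_rel hT]
  rw [e2] at k2'
  obtain ⟨b, hb, hbl, hbo, ⟨t1, ht1⟩, ⟨t2, ht2⟩⟩ := wk_join k1' k2'
  refine ⟨(W 0).reverse, b, wk_rev (fun _ _ h => cor_sym h) k0, ?_, ?_, hb, ?_, ?_,
    List.length_reverse, H31.ow_reverse θR_sym _, ?_, ?_, ?_, ?_, ?_⟩
  · refine ⟨a 0, f1, l1.reverse, ?_, n1'.1⟩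
    rw [w1]; simp
  · refine ⟨r2.reverse, xinv g2, xinv (a (2 * l + 1)), ?_, ?_⟩
    · rw [w4]; simp
    · rw [car_inv, car_inv]; exact n2'.2
  · refine ⟨actE T.z1⁻¹ (xinv (a 0)), actE T.z1⁻¹ (xinv f2), r1.map (actE T.z1⁻¹) ++ t1, ?_, ?_⟩
    · rw [ht1, w2]; simp
    · rw [car_act, car_act, car_inv, car_inv]
      exact fun h' => n1'.2 (smul_left_cancel _ h')
  · refine ⟨t2 ++ l2.map (actE T.z3), actE T.z3 g1, actE T.z3 (a (2 * l + 1)), ?_, ?_⟩
    · rw [ht2, w3]; simp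
    · rw [car_act, car_act]
      exact fun h' => n2'.1 (smul_left_cancel _ h')
  · rw [hbl, List.length_map, List.length_map]
  · rw [hbo, Slt.ow_map, Slt.ow_map]
  · rw [w2]; simp
  · rw [w3]; simp
  · rw [w1]; simp

theorem isH_of_plane {e : XE A B g} {q : PP A B g} (h : car e = plane q) :
    (kndE e).isH = true := by
  obtain ⟨m, p, rfl⟩ := plane_letter h
  exact kndD_isH m

/-- **The count.** -/
theorem ExcD.count (hA : ∀ x ∈ A, ∀ y ∈ A, x * y = y * x) (hH2 : H2Stmt) (hH2P : H2PairStmt)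
    (h : ExcD hg hgeo hι w a W I T l) :
    (W 0).length = 3 ∧ (W 1).length = 2 ∧ (W (2 * l + 1)).length = 2 ∧ (W (1 + l)).length = 3 ∧
    (∀ j j', 1 ≤ j → j < l → j + j' = 2 * l → (W (1 + j)).length + (W (1 + j')).length = 8) ∧
    ow θR (W 0) + ow θR (W 1) + ow θR (W (2 * l + 1)) = 3.9 := by
  obtain ⟨v, b, hv, v1, v2, hb, b1, b2, lv, ov, lb, ob, l1, l3, l0⟩ := h.walks
  obtain ⟨hT, ⟨q1, hq1⟩, -, ⟨q3, hq3⟩, -⟩ := h.rt
  have H1 : (kndE (a 0)).isH = true := isH_of_plane (h.cs.trans hq1)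
  have H3 : (kndE (a (2 * l + 1))).isH = true := isH_of_plane (h.ct.trans hq3)
  have H3' : (kndE (xinv (a (2 * l + 1)))).isH = true :=
    isH_of_plane ((car_inv _).trans (h.ct.trans hq3))
  have cb : car (actE T.z1⁻¹ (xinv (a 0))) = T.c1 := by
    rw [car_act, car_inv, h.cs, stab_inv hT.s1]
  have cb' : car (actE T.z3 (a (2 * l + 1))) = T.c3 := by
    rw [car_act, h.ct, hT.s3]
  have Hb : (kndE (actE T.z1⁻¹ (xinv (a 0)))).isH = true := isH_of_plane (cb.trans hq1)
  have Hb' : (kndE (actE T.z3 (a (2 * l + 1)))).isH = true := isH_of_plane (cb'.trans hq3)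
  have kb : kndE (actE T.z1⁻¹ (xinv (a 0))) = kinv (kndE (a 0)) := by
    rw [kndE_act, kndE_xinv]
  have src : xsrc (a 0) = xsrc (actE T.z1⁻¹ (xinv (a 0))) := by
    rw [xsrc_act]
    have h1 : xsrc (xinv (a 0)) = xsrc (a 1) := (h.bd.path 0).symm
    rw [h1, h.s1, inv_smul_smul]
  obtain ⟨A1, A2, A3, A4, A5, A6⟩ := hH2 G A B g hg hgeo hι v _ _ hv v1 v2 H1 H3'
  obtain ⟨B1, B2, B3, B4, B5, B6⟩ := hH2 G A B g hg hgeo hι b _ _ hb b1 b2 Hb Hb'
  obtain ⟨P1, -, -⟩ := hH2P G A B g hg hgeo hι hA v b _ _ _ _ hv hb v1 v2 b1 b2 src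
    (by rw [cb, h.cs]) (by rw [cb', car_inv, h.ct])
    (by rw [car_inv, h.cs, h.ct]; exact hT.d13) H1 H3'
  have six : 6 ≤ v.length + b.length := by
    apply P1
    rcases A1 with A1 | A1
    · exact Or.inr (Or.inr (Or.inl ⟨A1, by rw [kb, isPQ_kinv]; exact A1⟩))
    · exact Or.inr (Or.inr (Or.inr ⟨A1, by rw [kb, isO_kinv]; exact A1⟩))
  -- the unit count
  obtain ⟨m, rfl⟩ : ∃ m, l = m + 1 := ⟨l - 1, by have := h.hl; omega⟩
  have hsix := six_le h.bd.toBd (hsysX (hg := hg) (hgeo := hgeo) (hι := hι) hA)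
  rw [h.hN, show 2 * (m + 1) + 2 = 2 * m + 4 by ring,
    sumsplit (fun i => (4 : ℤ) - (W i).length) m] at hsix
  have pW : W (2 * m + 4) = W 0 := h.perW0
  have e5 : 2 * (m + 1) + 1 = 2 * m + 3 := by ring
  have e6 : 1 + (m + 1) = m + 2 := by ring
  rw [pW] at hsix
  rw [e5] at lb l3 ob B2 B3 B4 B5 A2 A3 A4 A5 hv hb
  have htip := h.tip
  rw [e6] at htip
  have hp : ∀ j ∈ Finset.range m, (4 : ℤ) - (W (j + 2)).length +
      (4 - (W (2 * m + 2 - j)).length) ≤ 0 := by
    intro j hj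
    rw [Finset.mem_range] at hj
    have := (h.pair (j + 1) (2 * m + 1 - j) (by omega) (by omega) (by omega)).2.2
    rw [show 1 + (j + 1) = j + 2 by ring, show 1 + (2 * m + 1 - j) = 2 * m + 2 - j by omega] at this
    have h8 : (8 : ℤ) ≤ (W (j + 2)).length + (W (2 * m + 2 - j)).length := by exact_mod_cast this
    linarith
  have hsum := Finset.sum_nonpos hp
  have hlv : (v.length : ℤ) = (W 0).length := by exact_mod_cast lv
  have hlb : (b.length : ℤ) + 1 = (W 1).length + (W (2 * m + 3)).length := by exact_mod_cast lb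
  have hsix' : (6 : ℤ) ≤ v.length + b.length := by exact_mod_cast six
  have htip' : (3 : ℤ) ≤ (W (m + 2)).length := by exact_mod_cast htip
  have hS0 : ∑ j ∈ Finset.range m, ((4 : ℤ) - (W (j + 2)).length +
      (4 - (W (2 * m + 2 - j)).length)) = 0 := by
    apply le_antisymm hsum
    linarith
  have t3 : (W (m + 2)).length = 3 := by
    have : ((W (m + 2)).length : ℤ) ≤ 3 := by linarith
    have : (W (m + 2)).length ≤ 3 := by exact_mod_cast this
    omega
  have s6 : v.length + b.length = 6 := by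
    have : (v.length : ℤ) + b.length ≤ 6 := by linarith
    have : v.length + b.length ≤ 6 := by exact_mod_cast this
    omega
  have hpe : ∀ j j', 1 ≤ j → j < m + 1 → j + j' = 2 * (m + 1) →
      (W (1 + j)).length + (W (1 + j')).length = 8 := by
    intro j j' h1 h2 h3
    have h4 := (Finset.sum_eq_zero_iff_of_nonpos hp).1 hS0 (j - 1) (by
      rw [Finset.mem_range]; omega)
    have h5 : (((W (j - 1 + 2)).length + (W (2 * m + 2 - (j - 1))).length : ℕ) : ℤ) = 8 := by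
      push_cast
      linarith
    have h6 : (W (j - 1 + 2)).length + (W (2 * m + 2 - (j - 1))).length = 8 := by exact_mod_cast h5
    rw [show 1 + j = j - 1 + 2 by omega, show 1 + j' = 2 * m + 2 - (j - 1) by omega]
    exact h6
  have hkk : isO (kndE (a 0)) = true → isO (kndE (actE T.z1⁻¹ (xinv (a 0)))) = false := by
    intro h'
    rw [kb, isO_kinv]
    exact isO_not_PQ h'
  have hkk' : isPQ (kndE (a 0)) = true → isPQ (kndE (actE T.z1⁻¹ (xinv (a 0)))) = false := by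
    intro h'
    rw [kb, isPQ_kinv]
    by_contra h2
    rw [Bool.not_eq_false] at h2
    have := isO_not_PQ h2
    rw [h'] at this
    exact absurd this (by decide)
  -- the two cases
  have fin : v.length = 3 ∧ b.length = 3 ∧ ow θR v + ow θR b = 3.9 := by
    rcases A1 with A1 | A1
    · -- v starts with an O-end
      have hbO := hkk A1
      have hbPQ : isPQ (kndE (actE T.z1⁻¹ (xinv (a 0)))) = true := by
        rcases B1 with B1 | B1
        · rw [hbO] at B1; exact absurd B1 (by decide)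
        · exact B1
      rcases B2 with B2 | B2
      · have := B4 hbPQ B2
        omega
      · rcases B5 hbPQ B2 with ⟨b3, -, -⟩ | b5
        · have v3 : v.length = 3 := by omega
          rcases A2 with A2 | A2
          · refine ⟨v3, b3, ?_⟩
            rw [ow3_O hv v3 v1 v2 A1 A2, ow3_PQ hb b3 b1 b2 hbPQ B2]
            norm_num
          · have := A3 A1 A2
            omega
        · omega
    · have hbPQ := hkk' A1
      have hbO : isO (kndE (actE T.z1⁻¹ (xinv (a 0)))) = true := by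
        rcases B1 with B1 | B1
        · exact B1
        · rw [hbPQ] at B1; exact absurd B1 (by decide)
      rcases A2 with A2 | A2
      · have := A4 A1 A2
        omega
      · rcases A5 A1 A2 with ⟨v3, -, -⟩ | v5
        · have b3 : b.length = 3 := by omega
          rcases B2 with B2 | B2
          · refine ⟨v3, b3, ?_⟩
            rw [ow3_PQ hv v3 v1 v2 A1 A2, ow3_O hb b3 b1 b2 hbO B2]
            norm_num
          · have := B3 hbO B2
            omega
        · omega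
  obtain ⟨v3, b3, ho⟩ := fin
  rw [e5, e6]
  refine ⟨by omega, by omega, by omega, t3, hpe, ?_⟩
  rw [ov, ob] at ho
  linarith

/-- normal form of a rotation at a fixed vertex -/
theorem rot_form (hF : FixStmt A B g) {k : PP A B g} {c : Car A B g} (hk : k ≠ 1)
    (hkc : k • c = c) (hr : Rot k) (hc : IsPl c) {y : XV A B g} (hy : k • y = y) :
    ∃ q : PP A B g, ∃ α ∈ A, α ≠ 1 ∧ y = vx q ∧ c = plane q ∧ k = q * Pι A B g α * q⁻¹ := by
  obtain ⟨q, hq, h1⟩ := ((hF c k hk hkc).1 hr y).1 hy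
  obtain ⟨q', hq'⟩ := hc
  have h2 : c = plane q := by
    rcases h1 with h1 | h1
    · exact h1
    · rw [hq'] at h1
      exact absurd h1 plane_ne_line
  rw [h2, stab_plane] at hkc
  have hr' : Rot (q⁻¹ * k * q) := by
    have := (Rot_conj (p := q⁻¹) (z := k)).2 hr
    rwa [_root_.inv_inv] at this
  obtain ⟨α, hα, h3⟩ := PA_deg_zero hkc hr'.1 hr'.2
  have h4 : k = q * Pι A B g α * q⁻¹ := by rw [← h3]; group
  refine ⟨q, α, hα, ?_, hq, h2, h4⟩
  rintro rfl
  apply hk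
  rw [h4, map_one]
  group

/-- **The exceptional case is impossible** (plan section 8). -/
theorem ExcD.false (hA : ∀ x ∈ A, ∀ y ∈ A, x * y = y * x) (hF : FixStmt A B g)
    (hS : StabStmt A B g) (hH2 : H2Stmt) (hH2P : H2PairStmt) (hTip : TipStmt)
    (hr : Rot T.z2) (h : ExcD hg hgeo hι w a W I T l) : False := by
  obtain ⟨c0, c1, c3, ct, cp', cw'⟩ := h.count hA hH2 hH2P
  obtain ⟨hT, ⟨q1, hq1⟩, hp2, ⟨q3, hq3⟩, -⟩ := h.rt
  have hl := h.hl
  set k : PP A B g := T.z1 * T.z2 * T.z1⁻¹ with hk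
  have k1 : k ≠ 1 := conj_ne_one hT.n2
  have kc : k • (T.z1 • T.c2) = T.z1 • T.c2 := stab_conj hT.s2
  have kr : Rot k := Rot_conj.2 hr
  -- the tip
  have htipw := bd_wk h.bd.toBd l
  have hbk : a (1 + l) = actE k (xinv (a l)) := by
    have := h.back (l - 1) l (by omega) (by omega)
    rwa [show 1 + (l - 1) = l by omega] at this
  rw [add_comm l 1] at htipw
  obtain ⟨n, hn⟩ : ∃ n, W (1 + l) = [xinv (a l), n, a (1 + l)] := by
    obtain ⟨-, hh, hl'⟩ := htipw
    rcases hW : W (1 + l) with _ | ⟨v0, _ | ⟨v1, _ | ⟨v2, _ | ⟨v3, v⟩⟩⟩⟩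
    · rw [hW] at ct; simp at ct
    · rw [hW] at ct; simp at ct
    · rw [hW] at ct; simp at ct
    · rw [hW] at hh hl'
      simp only [List.head?_cons, Option.some.injEq] at hh
      simp only [List.getLast?_cons_cons, List.getLast?_singleton, Option.some.injEq] at hl'
      exact ⟨v1, by rw [hh, hl']⟩
    · rw [hW] at ct; simp at ct
  have hnc := h.tip' n hn
  have hy : k • xsrc (xinv (a l)) = xsrc (xinv (a l)) := by
    have h1 : xsrc (a (l + 1)) = xsrc (xinv (a l)) := h.bd.path l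
    rw [add_comm l 1, hbk, xsrc_act] at h1
    exact h1
  obtain ⟨q, α, hα, hα1, hyq, hcq, hkq⟩ := rot_form hF k1 kc kr (hp2.smul _) hy
  have chn := h.bd.chain (1 + l)
  rw [hn] at chn
  simp only [List.isChain_cons_cons, List.IsChain.singleton, and_true] at chn
  have tp := (hTip G A B g hg hgeo hι).2 q α hα hα1 (xinv (a l)) n hyq
    (by rw [car_inv, ← hcq]; exact h.last) (by rw [← hcq]; exact hnc) chn.1
    (by rw [← hkq, ← hbk]; exact chn.2)
  have tpw : ow θR (W (1 + l)) = 2.1 := by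
    rw [hn, hbk, hkq]
    exact tp.1
  have kn : actE k n ≠ n := by
    intro h1
    apply hnc
    refine hS _ _ k k1 ?_ kc
    rw [← car_act, h1]
  rcases Nat.lt_or_ge 1 l with hl2 | hl2
  · -- strict weights
    have hpair : ∀ j j', 1 ≤ j → j < l → j + j' = 2 * l → 3 ≤ (W (1 + j)).length ∧
        3 ≤ (W (1 + j')).length ∧ (W (1 + j)).length + (W (1 + j')).length = 8 := by
      intro j j' h1 h2 h3
      exact ⟨(h.pair j j' h1 h2 h3).1, (h.pair j j' h1 h2 h3).2.1, cp' j j' h1 h2 h3⟩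
    have hst := (slit_strict hA h.bd.toBd h.back hpair (n := n) (fun _ => by
      rw [show 1 + l - 1 = l by omega]; exact hn) kn).2
    have htot := total_shift hA h.bd
    obtain ⟨m, rfl⟩ : ∃ m, l = m + 1 := ⟨l - 1, by omega⟩
    obtain ⟨m, rfl⟩ : ∃ m', m = m' + 1 := ⟨m - 1, by omega⟩
    rw [h.hN, show 2 * (m + 1 + 1) + 2 = 2 * (m + 1) + 4 by ring,
      sumsplit (fun i => F W i) (m + 1), Finset.sum_range_succ] at htot
    have hsum : ∑ j ∈ Finset.range m, (F W (j + 2) + F W (2 * (m + 1) + 2 - j)) ≤ 0 := by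
      refine Finset.sum_nonpos ?_
      intro j hj
      rw [Finset.mem_range] at hj
      obtain ⟨v, hv⟩ := hst (j + 1) (2 * (m + 1) + 1 - j) (by omega) (by omega) (by omega)
      have := (cut_six hA hv).1
      rw [show 1 + (j + 1) = j + 2 by ring,
        show 1 + (2 * (m + 1) + 1 - j) = 2 * (m + 1) + 2 - j by omega] at this
      unfold F
      linarith
    -- the last pair
    obtain ⟨v, hv⟩ := hst (m + 1) (m + 3) (by omega) (by omega) (by omega)
    have hlast := (cut_six hA hv).2 (by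
      obtain ⟨f1, f2, l1, r1, tr, w1, w2⟩ := edg0 h.bd h.wne (m + 1 + 1)
      rw [add_comm (m + 1 + 1) 1, hn] at w2
      simp only [List.cons.injEq] at w2
      have hnf : n = xinv f2 := w2.2.1
      refine ⟨f1, ?_, a (m + 1 + 1), ?_, ?_⟩
      · rw [show 1 + (m + 1) = m + 1 + 1 by ring, w1]; simp
      · rw [show 1 + (m + 1) = m + 1 + 1 by ring, w1]; simp
      · intro hcf
        -- one of the letters `a l`, `n` is a line letter
        have tk := tp.2
        have hne : (kndE (a (m + 1 + 1))).isH ≠ (kndE f2).isH := by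
          have e1 : kndE n = kinv (kndE f2) := by rw [hnf, kndE_xinv]
          rw [kndE_xinv] at tk
          rw [e1] at tk
          revert tk
          generalize kndE (a (m + 1 + 1)) = x
          generalize kndE f2 = y
          cases x <;> cases y <;> simp [kinv, isH]
        by_cases hH : (kndE (a (m + 1 + 1))).isH = true
        · obtain ⟨mm, pp, hap⟩ : ∃ mm pp, a (m + 1 + 1) = eA mm pp := by
            revert hH
            refine XE.ind (P := fun e => (kndE e).isH = true → ∃ mm pp, e = eA mm pp) ?_ ?_ _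
            · intro mm pp _; exact ⟨mm, pp, rfl⟩
            · intro s pp h'
              rw [kndE_eC, kndC_isH] at h'
              exact absurd h' (by decide)
          have h5 := tri_car hap tr hcf
          rw [hap, car_eA] at h5
          have h6 := isH_of_plane h5
          rw [hH, h6] at hne
          exact hne rfl
        · obtain ⟨mm, pp, hap⟩ : ∃ mm pp, a (m + 1 + 1) = eC mm pp := by
            revert hH
            refine XE.ind (P := fun e => ¬ (kndE e).isH = true → ∃ mm pp, e = eC mm pp) ?_ ?_ _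
            · intro mm pp h'
              rw [kndE_eA, kndD_isH] at h'
              exact absurd rfl h'
            · intro s pp _; exact ⟨s, pp, rfl⟩
          rw [hap] at hcf tr
          rw [car_eC] at hcf
          obtain ⟨m1, p1, hf1⟩ := line_letter hcf
          rw [hf1] at tr
          have hcor : (XX hg hgeo hι).Cor (eC mm pp) (eC m1 p1) := ⟨_, tr⟩
          rcases (cor_iff _ _).1 hcor with ⟨_, _, h7, h8⟩ | ⟨_, _, h7, h8⟩ | ⟨_, h7, h8⟩ |
            ⟨_, h7, h8⟩ | ⟨_, h7, h8⟩ | ⟨_, h7, h8⟩ | ⟨_, h7, h8⟩ | ⟨_, h7, h8⟩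
          · exact eA_ne_eC h7.symm
          · exact eA_ne_eC h7.symm
          · exact eA_ne_eC h7.symm
          · exact eA_ne_eC h7.symm
          · exact eA_ne_eC h8.symm
          · exact eA_ne_eC h7.symm
          · exact eA_ne_eC h7.symm
          · exact eA_ne_eC h8.symm)
    have pW : W (2 * (m + 1) + 4) = W 0 := h.perW0
    rw [show 2 * (m + 1 + 1) + 1 = 2 * (m + 1) + 3 by ring] at cw'
    rw [show 1 + (m + 1 + 1) = m + 1 + 2 by ring] at tpw
    rw [show 1 + (m + 1) = m + 2 by ring, show 1 + (m + 3) = 2 * (m + 1) + 2 - m by omega] at hlast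
    unfold F at htot hsum
    rw [pW] at htot
    rw [tpw] at htot
    linarith
  · -- the lozenge
    have hl1 : l = 1 := by omega
    subst hl1
    obtain ⟨m0, p0, he0⟩ := plane_letter (h.cs.trans hq1)
    obtain ⟨m3, p3, he3⟩ := plane_letter (h.ct.trans hq3)
    obtain ⟨f1, f2, l1, r1, tr1, w1, w2, n1'⟩ := edgF h.bd h.wne 0 h.fl.1 h.fl.2.1
    obtain ⟨g1, g2, l2, r2, tr2, w3, w4, n2'⟩ := edgF h.bd h.wne (2 * 1 + 1) h.fl.2.2.1
      h.fl.2.2.2
    have pW : W (2 * 1 + 1 + 1) = W 0 := h.perW0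
    rw [pW] at w4
    rw [Nat.zero_add] at w2
    -- W 1 = [inv s, a 1]
    have hw1 := bd_wk h.bd.toBd 0
    have hw3 := bd_wk h.bd.toBd (2 * 1)
    have e1 : xinv f2 = a 1 := by
      obtain ⟨-, -, hl'⟩ := hw1
      rw [Nat.zero_add] at hl'
      rw [w2] at c1 hl'
      cases r1 with
      | nil => simpa using hl'
      | cons _ _ => simp at c1
    have e3 : g1 = xinv (a 2) := by
      obtain ⟨-, hh, -⟩ := hw3
      rw [show 2 * 1 + 1 = 2 * 1 + 1 from rfl, w3] at hh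
      rw [w3] at c3
      cases l2 with
      | nil => simpa using hh
      | cons _ _ => simp at c3
    have e4 : f1 = xinv g2 := by
      rw [w1] at w4 c0
      cases l1 with
      | nil => simp at c0
      | cons y l1' =>
        cases l1' with
        | nil =>
          simp only [List.cons_append, List.nil_append, List.cons.injEq] at w4
          exact w4.2.1
        | cons _ _ => simp at c0
    -- the two triangles
    have T1 : (XX hg hgeo hι).Tri f1 (a 0) (xinv f2) := (XX hg hgeo hι).tri_swap tr1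
    have T2 : (XX hg hgeo hι).Tri (xinv g2) (xinv (a (2 * 1 + 1))) g1 := by
      have h1 := tri_flip tr2
      have h2 := (XX hg hgeo hι).tri_swap h1
      change (XX hg hgeo hι).Tri (xinv g2) (xinv (a (2 * 1 + 1))) (xinv (xinv g1)) at h2
      rwa [xinv_inv hg hgeo hι] at h2
    rw [e1] at T1
    rw [← e4, e3] at T2
    have hz : T.z3⁻¹ = T.z1 * T.z2 := by
      rw [inv_eq_iff_mul_eq_one.2]
      have := mul3_cyc (mul3_cyc hT.mul)
      rwa [← mul_assoc]
    have hb2 : xinv (a 2) = actE T.z3⁻¹ (actE T.z1⁻¹ (a 1)) := by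
      have h1 : a 2 = actE k (xinv (a 1)) := hbk
      rw [h1, xinv_act, xinv_inv hg hgeo hι, actE_comp, hz]
    have hf : actE T.z1 (actE T.z1⁻¹ (a 1)) = a 1 := actE_act_inv _ _
    refine lozenge hF hg hgeo hι hA hT ⟨q1, hq1⟩ hp2 ⟨q3, hq3⟩ (n := f1) (s := a 0)
      (t := xinv (a (2 * 1 + 1))) (f := actE T.z1⁻¹ (a 1)) h.cs
      ((car_inv _).trans h.ct) (by rw [hf]; exact T1) (by rw [← hb2]; exact T2) ?_ ?_ ?_ ?_
    · have h1 : xsrc (a (0 + 1)) = xsrc (xinv (a 0)) := h.bd.path 0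
      rw [← h1]
      exact h.s1
    · rw [xinv_inv hg hgeo hι]
      have h1 : xsrc (a (2 * 1 + 1 + 1)) = xsrc (xinv (a (2 * 1 + 1))) := h.bd.path (2 * 1 + 1)
      have h2 : a (2 * 1 + 1 + 1) = a 0 := h.per0
      rw [h2] at h1
      rw [← h1, h.s3, inv_smul_smul]
    · rw [← h.cs]
      exact n1'.1
    · rw [← h.ct, e4, car_inv]
      exact n2'.2

/-- the triple of the case `al = []`: carriers `z1 c3`, `z1 z1 c2`, `c1` -/
def _root_.Pool.Agent.ABA.B.Trp.exch (T : Trp A B g) : Trp A B g := (T.conj T.z1).hur.cyc.cyc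

theorem exch_z1 (T : Trp A B g) : T.exch.z1 = T.z1 * T.z3 * T.z1⁻¹ := rfl
theorem exch_z3 (T : Trp A B g) : T.exch.z3 = T.z1 := by
  change T.z1 * T.z1 * T.z1⁻¹ = T.z1
  group
theorem exch_c1 (T : Trp A B g) : T.exch.c1 = T.z1 • T.c3 := rfl
theorem exch_c2 (T : Trp A B g) : T.exch.c2 = T.z1 • T.z1 • T.c2 := by
  change (T.z1 * T.z1 * T.z1⁻¹) • (T.z1 • T.c2) = _
  rw [mul_inv_cancel_right]
theorem exch_c3 {T : Trp A B g} (h : T.Ok) : T.exch.c3 = T.c1 := h.s1

/-- the rotation at the tip is the same -/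
theorem exch_k {T : Trp A B g} (h : T.Ok) :
    T.exch.z1 * T.exch.z2 * T.exch.z1⁻¹ = T.z1 * T.z2 * T.z1⁻¹ ∧
      T.exch.z1 • T.exch.c2 = T.z1 • T.c2 := by
  have hz : T.z1 * T.z2 = T.z3⁻¹ := by
    rw [eq_comm, inv_eq_iff_mul_eq_one.2]
    have := mul3_cyc (mul3_cyc h.mul)
    rwa [← mul_assoc]
  have e1 : T.exch.z1 * T.exch.z2 * T.exch.z1⁻¹ = T.z1 * T.z2 * T.z1⁻¹ := by
    change (T.z1 * T.z3 * T.z1⁻¹) * ((T.z1 * T.z1 * T.z1⁻¹) * (T.z1 * T.z2 * T.z1⁻¹) *
      (T.z1 * T.z1 * T.z1⁻¹)⁻¹) * (T.z1 * T.z3 * T.z1⁻¹)⁻¹ = _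
    have : (T.z1 * T.z3 * T.z1⁻¹) * ((T.z1 * T.z1 * T.z1⁻¹) * (T.z1 * T.z2 * T.z1⁻¹) *
      (T.z1 * T.z1 * T.z1⁻¹)⁻¹) * (T.z1 * T.z3 * T.z1⁻¹)⁻¹ =
      T.z1 * T.z3 * (T.z1 * T.z2) * T.z1⁻¹ * T.z3⁻¹ * T.z1⁻¹ := by group
    rw [this, hz]
    group
  refine ⟨e1, ?_⟩
  rw [exch_c2, exch_z1]
  rw [smul_smul, smul_smul]
  have : T.z1 * T.z3 * T.z1⁻¹ * T.z1 * T.z1 = T.z1 * (T.z3 * T.z1) := by group
  rw [this, mul_smul]
  congr 1
  have h2 : T.z3 * T.z1 = T.z2⁻¹ := by
    rw [eq_comm, inv_eq_iff_mul_eq_one.2]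
    have := mul3_cyc h.mul
    rwa [← mul_assoc]
  rw [h2]
  exact stab_inv h.s2

theorem exch_ok (hS : StabStmt A B g) {T : Trp A B g} (h : T.Rt) : T.exch.Rt :=
  (cls_Rt hS).cyc _ ((cls_Rt hS).cyc _ ((cls_Rt hS).hur _ ((cls_Rt hS).conj _ _ h)))

end xx

end Pool.Agent.ABA.B.Exc
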