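import Mathlib
import Pool.Agent.Helper89_ABA.Defs

/-! # Group side of REG: the corner words of small cost are impossible (MP_d857f1_al) -/

namespace Pool.Agent.ABA

section words

variable {H : Type*} [Group H] {A B : Subgroup H} {g : H}

theorem notA (hg : ¬ IsABA A B g) : g ∉ A :=
  fun h => hg ⟨g, h, 1, B.one_mem, 1, A.one_mem, by simp⟩

/-- a nontrivial element of A which commutes with f puts f into A -/
theorem commA (hG : Geo A B) {f x : H} (hx : x ∈ A) (hx1 : x ≠ 1) (h : f * x = x * f) :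
    f ∈ A := by
  refine hG.aa f x hx ?_ hx1
  rw [h, mul_assoc, mul_inv_cancel, mul_one]
  exact hx

theorem wOO (hG : Geo A B) (hg : g ∉ A) {x y : H} (hx : x ∈ A)
    (hy : y ∈ A) : x * g * (y * g) ≠ 1 := by
  intro h
  have ht : y * x⁻¹ ∈ A := A.mul_mem hy (A.inv_mem hx)
  have h1 : (x * g) * (y * x⁻¹) * (x * g) = 1 := by
    rw [← h]; group
  have h2 : x * g ∉ A := fun hh => hg ((A.mul_mem_cancel_left hx).1 hh)
  by_cases h3 : y * x⁻¹ = 1
  · rw [h3, mul_one] at h1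
    have := hG.t2 _ h1
    exact h2 (this ▸ A.one_mem)
  · refine h2 (commA hG ht h3 ?_)
    have h4 : (x * g) * (y * x⁻¹) = (x * g)⁻¹ := eq_inv_of_mul_eq_one_left h1
    have h5 : (y * x⁻¹) * (x * g) = (x * g)⁻¹ := by
      rw [mul_assoc] at h1
      exact eq_inv_of_mul_eq_one_right h1
    rw [h4, h5]

theorem wOOi (hG : Geo A B) (hg : g ∉ A) {x y : H} (hx : x ∈ A) (hy : y ∈ A) (hy1 : y ≠ 1) :
    x * g * (y * g⁻¹) ≠ 1 := by
  intro h
  refine hg (hG.aa g y hy ?_ hy1)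
  have : g * y * g⁻¹ = x⁻¹ := by
    have h1 : x * (g * y * g⁻¹) = 1 := by rw [← h]; group
    exact eq_inv_of_mul_eq_one_right h1
  rw [this]
  exact A.inv_mem hx

theorem wOOOi (hG : Geo A B) (hA : ∀ x ∈ A, ∀ y ∈ A, x * y = y * x) (hg : g ∉ A) {x y z : H}
    (hx : x ∈ A) (hy : y ∈ A) (hz : z ∈ A) (hx1 : x ≠ 1) (hz1 : z ≠ 1) :
    x * g * (y * g) * (z * g⁻¹) ≠ 1 := by
  intro h
  obtain ⟨f, hf⟩ : ∃ f, f = g * y := ⟨_, rfl⟩
  have hgf : g = f * y⁻¹ := by rw [hf]; group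
  have hfA : f ∉ A := by
    intro hh
    rw [hf] at hh
    exact hg ((A.mul_mem_cancel_right hy).1 hh)
  -- x f f z f⁻¹ = 1
  have h1 : x * f * f * z * f⁻¹ = 1 := by
    have h2 : x * f * y⁻¹ * (y * (f * y⁻¹)) * (z * (y * f⁻¹)) = 1 := by
      rw [← h, hgf]; group
    have h3 : y⁻¹ * z * y = z := by rw [mul_assoc, hA z hz y hy]; group
    calc x * f * f * z * f⁻¹ = x * f * f * (y⁻¹ * z * y) * f⁻¹ := by rw [h3]
      _ = x * f * y⁻¹ * (y * (f * y⁻¹)) * (z * (y * f⁻¹)) := by group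
      _ = 1 := h2
  obtain ⟨u, hu⟩ : ∃ u, u = x⁻¹ := ⟨_, rfl⟩
  obtain ⟨v, hv⟩ : ∃ v, v = z⁻¹ := ⟨_, rfl⟩
  have huA : u ∈ A := hu ▸ A.inv_mem hx
  have hvA : v ∈ A := hv ▸ A.inv_mem hz
  have hu1 : u ≠ 1 := by rw [hu]; simpa using hx1
  have hv1 : v ≠ 1 := by rw [hv]; simpa using hz1
  have hxu : x = u⁻¹ := by rw [hu]; simp
  have hzv : z = v⁻¹ := by rw [hv]; simp
  -- f * f = u * f * v
  have h4 : f * f = u * f * v := by
    rw [hxu, hzv] at h1
    have : f * f = u * (u⁻¹ * f * f * v⁻¹ * f⁻¹) * f * v := by group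
    rw [this, h1]; group
  have hcomm : u * v = v * u := hA u huA v hvA
  by_cases huv : u = v
  · subst huv
    -- f u f commutes with u
    have h5 : (f * u * f) * u = u * (f * u * f) := by
      calc (f * u * f) * u = f * (u * f * u) := by group
        _ = f * (f * f) := by rw [h4]
        _ = (f * f) * f := by group
        _ = (u * f * u) * f := by rw [h4]
        _ = u * (f * u * f) := by group
    have h6 : f * u * f ∈ A := commA hG huA hu1 h5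
    have h7 : f * (f * u * f * u) = (f * u * f * u) * f := by
      have : f * u * f * u = f * f * f := by
        calc f * u * f * u = f * (u * f * u) := by group
          _ = f * f * f := by rw [← h4]; group
      rw [this]; group
    by_cases h8 : f * u * f * u = 1
    · have h9 : (f * u) * (f * u) = 1 := by rw [← h8]; group
      have h10 := hG.t2 _ h9
      exact hfA (by
        have : f = u⁻¹ := eq_inv_of_mul_eq_one_left h10
        rw [this]; exact A.inv_mem huA)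
    · exact hfA (commA hG (A.mul_mem h6 huA) h8 h7)
  · have hw : u * v⁻¹ ≠ 1 := fun hh => huv (mul_inv_eq_one.1 hh)
    have hwA : u * v⁻¹ ∈ A := A.mul_mem huA (A.inv_mem hvA)
    have hrel : f⁻¹ * u⁻¹ * (f⁻¹)⁻¹ * ((u * f) * v * (u * f)⁻¹) * (1 * (u * v⁻¹) * 1⁻¹) = 1 := by
      have : f⁻¹ * u⁻¹ * (f⁻¹)⁻¹ * ((u * f) * v * (u * f)⁻¹) * (1 * (u * v⁻¹) * 1⁻¹) =
          f⁻¹ * u⁻¹ * f * (u * f * v) * f⁻¹ * v⁻¹ := by group
      rw [this, ← h4]
      have : f⁻¹ * u⁻¹ * f * (f * f) * f⁻¹ * v⁻¹ = f⁻¹ * u⁻¹ * (f * f) * v⁻¹ := by group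
      rw [this, h4]
      group
    by_cases hd : f * (u * f) ∈ A
    · -- equal centres
      have hc : ∀ c ∈ A, v * c = c * v := fun c hc => hA v hvA c hc
      have h5 : (u * f) * v * (u * f)⁻¹ = f⁻¹ * v * f := by
        have h6 := hc _ hd
        calc (u * f) * v * (u * f)⁻¹ = f⁻¹ * ((f * (u * f)) * v) * (f * (u * f))⁻¹ * f := by group
          _ = f⁻¹ * (v * (f * (u * f))) * (f * (u * f))⁻¹ * f := by rw [h6]
          _ = f⁻¹ * v * f := by group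
      rw [h5] at hrel
      have h7 : f⁻¹ * (u⁻¹ * v) * (f⁻¹)⁻¹ = v * u⁻¹ := by
        have h8 : f⁻¹ * (u⁻¹ * v) * (f⁻¹)⁻¹ * (u * v⁻¹) = 1 := by rw [← hrel]; group
        have h9 := eq_inv_of_mul_eq_one_left h8
        rw [h9]; group
      have h8 : f⁻¹ ∈ A := by
        refine hG.aa f⁻¹ (u⁻¹ * v) (A.mul_mem (A.inv_mem huA) hvA) ?_ ?_
        · rw [h7]; exact A.mul_mem hvA (A.inv_mem huA)
        · intro hh
          exact huv (inv_mul_eq_one.1 hh)
      exact hfA ((A.inv_mem_iff).1 h8)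
    · refine hG.r3 f⁻¹ (u * f) 1 u⁻¹ v (u * v⁻¹) (A.inv_mem huA) hvA hwA
        (by simpa using hu1) hv1 hw ?_ ?_ ?_ hrel
      · rw [inv_inv]; exact hd
      · intro hh
        rw [mul_one, A.inv_mem_iff] at hh
        exact hfA ((A.mul_mem_cancel_left huA).1 hh)
      · intro hh
        rw [inv_inv, mul_one] at hh
        exact hfA hh

theorem wOOiOi (hG : Geo A B) (hA : ∀ x ∈ A, ∀ y ∈ A, x * y = y * x) (hg : g ∉ A) {x y z : H}
    (hx : x ∈ A) (hy : y ∈ A) (hz : z ∈ A) (hx1 : x ≠ 1) (hy1 : y ≠ 1) :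
    x * g * (y * g⁻¹) * (z * g⁻¹) ≠ 1 := by
  intro h
  refine wOOOi hG hA hg (A.inv_mem hx) (A.inv_mem hz) (A.inv_mem hy) (by simpa using hx1)
    (by simpa using hy1) ?_
  have h1 : x⁻¹ * g * (z⁻¹ * g) * (y⁻¹ * g⁻¹) = x⁻¹ * (x * g * (y * g⁻¹) * (z * g⁻¹))⁻¹ * x := by
    group
  rw [h1, h]; group

theorem wOOi2 (hG : Geo A B) (hg : g ∉ A) {x y z w : H}
    (hx : x ∈ A) (hy : y ∈ A) (hz : z ∈ A) (hw : w ∈ A) (hx1 : x ≠ 1) (hy1 : y ≠ 1)
    (hw1 : w ≠ 1) :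
    x * g * (y * g⁻¹) * (z * g) * (w * g⁻¹) ≠ 1 := by
  intro h
  by_cases hxz : x * z = 1
  · have hz' : z = x⁻¹ := eq_inv_of_mul_eq_one_right hxz
    rw [hz'] at h
    have h1 : (g⁻¹ * x * g) * y * (g⁻¹ * x * g)⁻¹ = w⁻¹ := by
      have h2 : (g⁻¹ * x * g) * y * (g⁻¹ * x * g)⁻¹ * w = 1 := by
        have : (g⁻¹ * x * g) * y * (g⁻¹ * x * g)⁻¹ * w =
          g⁻¹ * (x * g * (y * g⁻¹) * (x⁻¹ * g) * (w * g⁻¹)) * g := by group
        rw [this, h]; group
      exact eq_inv_of_mul_eq_one_left h2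
    have h3 : g⁻¹ * x * g ∈ A := by
      refine hG.aa _ y hy ?_ hy1
      rw [h1]; exact A.inv_mem hw
    have h4 : g⁻¹ ∈ A := by
      refine hG.aa _ x hx ?_ hx1
      rw [inv_inv]; exact h3
    exact hg ((A.inv_mem_iff).1 h4)
  · have hrel : (x * g) * y * (x * g)⁻¹ * (1 * (x * z) * 1⁻¹) * (g * w * g⁻¹) = 1 := by
      have h2 : (x * g) * y * (x * g)⁻¹ * (1 * (x * z) * 1⁻¹) * (g * w * g⁻¹) =
          x * g * (y * g⁻¹) * (z * g) * (w * g⁻¹) := by group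
      rw [h2, h]
    refine hG.r3 (x * g) 1 g y (x * z) w hy (A.mul_mem hx hz) hw hy1 hxz hw1 ?_ ?_ ?_ hrel
    · intro hh
      rw [mul_one, A.inv_mem_iff] at hh
      exact hg ((A.mul_mem_cancel_left hx).1 hh)
    · intro hh
      rw [inv_one, one_mul] at hh
      exact hg hh
    · intro hh
      have h4 : g⁻¹ ∈ A := by
        refine hG.aa g⁻¹ x⁻¹ (A.inv_mem hx) ?_ (by simpa using hx1)
        have : g⁻¹ * x⁻¹ * g⁻¹⁻¹ = (x * g)⁻¹ * g := by group
        rw [this]; exact hh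
      exact hg ((A.inv_mem_iff).1 h4)

theorem wPPi (hG : Geo A B) {x y : H} (hx : x ∈ A) (hy : y ∈ B) (hx1 : x ≠ 1) :
    x * y ≠ 1 := by
  intro h
  refine hx1 (hG.ab x hx ?_)
  rw [eq_inv_of_mul_eq_one_left h]
  exact B.inv_mem hy

end words

end Pool.Agent.ABA
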