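import Pool.Agent.Helper70_ABA.TripDefs

/-!
# Triples (MP_d857f1_al, part B, module TRIP): proofs
-/

set_option autoImplicit false

namespace Pool.Agent.ABA.B

open Pool.Agent.ABA Pool.Agent.ABA.B.TG Pool.Agent.ABA.B.H17

variable {G : Type} [Group G] {A B : Subgroup G} {g : G}

/-! ## carriers and vertices -/

theorem xv_ind {P : XV A B g → Prop} (h : ∀ q, P (vx q)) : ∀ x, P x := by
  intro x
  obtain ⟨q, rfl⟩ := QuotientGroup.mk_surjective x
  exact h q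

theorem On.smul {c : Car A B g} {x : XV A B g} (h : On c x) (p : PP A B g) : On (p • c) (p • x) := by
  obtain ⟨q, rfl, h | h⟩ := h
  · exact ⟨p * q, rfl, Or.inl (by rw [h, smul_plane])⟩
  · exact ⟨p * q, rfl, Or.inr (by rw [h, smul_line])⟩

theorem On_smul_iff {c : Car A B g} {x : XV A B g} (p : PP A B g) : On (p • c) (p • x) ↔ On c x := by
  constructor
  · intro h
    have := h.smul p⁻¹
    rwa [inv_smul_smul, inv_smul_smul] at this
  · intro h
    exact h.smul p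

theorem On_plane {q : PP A B g} {y : XV A B g} : On (plane q) y ↔ ∃ x ∈ PA A B g, y = vx (q * x) := by
  constructor
  · rintro ⟨q', rfl, h | h⟩
    · exact ⟨q⁻¹ * q', plane_eq.1 h, by rw [mul_inv_cancel_left]⟩
    · exact absurd h plane_ne_line
  · rintro ⟨x, hx, rfl⟩
    exact ⟨q * x, rfl, Or.inl (plane_eq.2 (by rwa [inv_mul_cancel_left]))⟩

theorem On_line {q : PP A B g} {y : XV A B g} : On (line q) y ↔ ∃ x ∈ PB A B g, y = vx (q * x) := by
  constructor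
  · rintro ⟨q', rfl, h | h⟩
    · exact absurd h.symm plane_ne_line
    · exact ⟨q⁻¹ * q', line_eq.1 h, by rw [mul_inv_cancel_left]⟩
  · rintro ⟨x, hx, rfl⟩
    exact ⟨q * x, rfl, Or.inr (line_eq.2 (by rwa [inv_mul_cancel_left]))⟩

theorem On_ex (c : Car A B g) : ∃ x, On c x := by
  rcases H89.car_cases c with ⟨q, rfl⟩ | ⟨q, rfl⟩
  · exact ⟨vx q, q, rfl, Or.inl rfl⟩
  · exact ⟨vx q, q, rfl, Or.inr rfl⟩

theorem stab_plane {z q : PP A B g} : z • (plane q : Car A B g) = plane q ↔ q⁻¹ * z * q ∈ PA A B g := by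
  rw [smul_plane, eq_comm, plane_eq, mul_assoc]

theorem stab_line {z q : PP A B g} : z • (line q : Car A B g) = line q ↔ q⁻¹ * z * q ∈ PB A B g := by
  rw [smul_line, eq_comm, line_eq, mul_assoc]

theorem IsPl.smul {c : Car A B g} (h : IsPl c) (p : PP A B g) : IsPl (p • c) := by
  obtain ⟨q, rfl⟩ := h
  exact ⟨p * q, rfl⟩

theorem IsLn.smul {c : Car A B g} (h : IsLn c) (p : PP A B g) : IsLn (p • c) := by
  obtain ⟨q, rfl⟩ := h
  exact ⟨p * q, rfl⟩

theorem car_act (p : PP A B g) (e : XE A B g) : car (actE p e) = p • car e := by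
  refine XE.ind (P := fun e => car (actE p e) = p • car e) ?_ ?_ e
  · intro m q; rfl
  · intro m q; rfl

theorem stab_conj {z p : PP A B g} {c : Car A B g} (h : z • c = c) :
    (p * z * p⁻¹) • (p • c) = p • c := by
  rw [smul_smul, inv_mul_cancel_right, mul_smul, h]

theorem stab_inv {z : PP A B g} {c : Car A B g} (h : z • c = c) : z⁻¹ • c = c := by
  rw [inv_smul_eq_iff]; exact h.symm

theorem Rot.inv {z : PP A B g} (h : Rot z) : Rot z⁻¹ := by
  unfold Rot at *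
  rw [dg_inv, dg_inv, h.1, h.2]
  exact ⟨rfl, rfl⟩

theorem Rot_inv {z : PP A B g} : Rot z⁻¹ ↔ Rot z :=
  ⟨fun h => by have := h.inv; rwa [_root_.inv_inv] at this, Rot.inv⟩

theorem Rot_conj {p z : PP A B g} : Rot (p * z * p⁻¹) ↔ Rot z := by
  unfold Rot
  rw [dg_conj, dg_conj]

theorem Rot_mul {z z' : PP A B g} (h : Rot z) (h' : Rot z') : Rot (z * z') := by
  unfold Rot at *
  rw [dg_mul, dg_mul, h.1, h.2, h'.1, h'.2]
  exact ⟨rfl, rfl⟩

/-! ## STAB, FIX, OPP -/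

section

variable {hg : ¬ IsABA A B g} {hgeo : Geo A B} {hι : Function.Injective (Pι A B g)}

theorem stab_of_plane (M : Mods) (hSC : (XX hg hgeo hι).SC) (hA : ∀ x ∈ A, ∀ y ∈ A, x * y = y * x)
    {q r z : PP A B g} (hz : z ≠ 1) (h1 : z • (plane q : Car A B g) = plane q)
    (h2 : z • (plane r : Car A B g) = plane r) : (plane q : Car A B g) = plane r := by
  rw [stab_plane] at h1 h2
  rw [plane_eq]
  have h3 := field_aa (hg := hg) (hgeo := hgeo) (hι := hι) M hSC hA (r⁻¹ * q) (q⁻¹ * z * q) h1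
    (by
      have : r⁻¹ * q * (q⁻¹ * z * q) * (r⁻¹ * q)⁻¹ = r⁻¹ * z * r := by group
      rw [this]
      exact h2) (by
      intro h
      apply hz
      have : z = q * (q⁻¹ * z * q) * q⁻¹ := by group
      rw [this, h]
      group)
  have : q⁻¹ * r = (r⁻¹ * q)⁻¹ := by group
  rw [this]
  exact inv_mem h3

theorem stab_of_line (M : Mods) (hSC : (XX hg hgeo hι).SC) (hA : ∀ x ∈ A, ∀ y ∈ A, x * y = y * x)
    {q r z : PP A B g} (hz : z ≠ 1) (h1 : z • (line q : Car A B g) = line q)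
    (h2 : z • (line r : Car A B g) = line r) : (line q : Car A B g) = line r := by
  rw [stab_line] at h1 h2
  rw [line_eq]
  have h3 := field_bb (hg := hg) (hgeo := hgeo) (hι := hι) M hSC hA (r⁻¹ * q) (q⁻¹ * z * q) h1
    (by
      have : r⁻¹ * q * (q⁻¹ * z * q) * (r⁻¹ * q)⁻¹ = r⁻¹ * z * r := by group
      rw [this]
      exact h2) (by
      intro h
      apply hz
      have : z = q * (q⁻¹ * z * q) * q⁻¹ := by group
      rw [this, h]
      group)
  have : q⁻¹ * r = (r⁻¹ * q)⁻¹ := by group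
  rw [this]
  exact inv_mem h3

theorem stab_pl_ln (M : Mods) (hSC : (XX hg hgeo hι).SC) (hA : ∀ x ∈ A, ∀ y ∈ A, x * y = y * x)
    {q r z : PP A B g} (hz : z ≠ 1) (h1 : z • (plane q : Car A B g) = plane q)
    (h2 : z • (line r : Car A B g) = line r) : False := by
  rw [stab_plane] at h1
  rw [stab_line] at h2
  have h3 := field_ab' (hg := hg) (hgeo := hgeo) (hι := hι) M hSC hA (r⁻¹ * q) (q⁻¹ * z * q) h1
    (by
      have : r⁻¹ * q * (q⁻¹ * z * q) * (r⁻¹ * q)⁻¹ = r⁻¹ * z * r := by group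
      rw [this]
      exact h2)
  apply hz
  have : z = q * (q⁻¹ * z * q) * q⁻¹ := by group
  rw [this, h3]
  group

/-- **STAB** -/
theorem stab_stmt (M : Mods) (hSC : (XX hg hgeo hι).SC)
    (hA : ∀ x ∈ A, ∀ y ∈ A, x * y = y * x) : StabStmt A B g := by
  intro c c' z hz h1 h2
  rcases H89.car_cases c with ⟨q, rfl⟩ | ⟨q, rfl⟩ <;> rcases H89.car_cases c' with ⟨r, rfl⟩ | ⟨r, rfl⟩
  · exact stab_of_plane M hSC hA hz h1 h2
  · exact (stab_pl_ln M hSC hA hz h1 h2).elim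
  · exact (stab_pl_ln M hSC hA hz h2 h1).elim
  · exact stab_of_line M hSC hA hz h1 h2

theorem not_fix {z : PP A B g} (hz : ¬ Rot z) (y : XV A B g) : z • y ≠ y := by
  intro h
  apply hz
  constructor
  · have := vdg_smul 1 0 z y
    rw [h] at this
    linarith
  · have := vdg_smul 0 1 z y
    rw [h] at this
    linarith

theorem fix_plane (M : Mods) (hSC : (XX hg hgeo hι).SC) (hA : ∀ x ∈ A, ∀ y ∈ A, x * y = y * x)
    {q z : PP A B g} (hz : z ≠ 1) (h1 : z • (plane q : Car A B g) = plane q) (hr : Rot z)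
    (y : XV A B g) : z • y = y ↔ On (plane q) y := by
  rw [stab_plane] at h1
  have hr' : Rot (q⁻¹ * z * q) := by
    have := (Rot_conj (p := q⁻¹) (z := z)).2 hr
    rwa [_root_.inv_inv] at this
  obtain ⟨a, ha, hza⟩ := PA_deg_zero h1 hr'.1 hr'.2
  have hz' : z = q * Pι A B g a * q⁻¹ := by rw [← hza]; group
  have ha1 : a ≠ 1 := by
    rintro rfl
    apply hz
    rw [hz', map_one]
    group
  rw [On_plane]
  revert y
  refine xv_ind ?_
  intro r
  constructor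
  · intro h
    have h2 : (vx (Pι A B g a * (q⁻¹ * r)) : XV A B g) = vx (q⁻¹ * r) := by
      have h3 : q⁻¹ • (z • (vx r : XV A B g)) = q⁻¹ • vx r := by rw [h]
      rw [hz'] at h3
      simp only [smul_vx] at h3
      rw [← h3]
      congr 1
      group
    obtain ⟨q1, hq1, k, hk⟩ := ell_plane (hg := hg) (hgeo := hgeo) (hι := hι) M hSC hA ha ha1 h2
    refine ⟨q1, hq1, ?_⟩
    have h4 : r = q * q1 * Pι A B g k := by
      rw [mul_assoc, ← hk, mul_inv_cancel_left]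
    exact (vx_eq.2 ⟨k, h4⟩).symm
  · rintro ⟨x, hx, h⟩
    rw [h, hz', smul_vx]
    obtain ⟨a1, ha1', -, hc⟩ := PA_comm_ι hx ha ha1
    refine (vx_eq.2 ⟨a1, ?_⟩).symm
    have : q * Pι A B g a * q⁻¹ * (q * x) = q * (Pι A B g a * x) := by group
    rw [this, hc, mul_assoc]

theorem fix_line (M : Mods) (hSC : (XX hg hgeo hι).SC) (hA : ∀ x ∈ A, ∀ y ∈ A, x * y = y * x)
    {q z : PP A B g} (hz : z ≠ 1) (h1 : z • (line q : Car A B g) = line q) (hr : Rot z)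
    (y : XV A B g) : z • y = y ↔ On (line q) y := by
  rw [stab_line] at h1
  have hr' : Rot (q⁻¹ * z * q) := by
    have := (Rot_conj (p := q⁻¹) (z := z)).2 hr
    rwa [_root_.inv_inv] at this
  obtain ⟨a, ha, hza⟩ := PB_deg_zero h1 hr'.1
  have hz' : z = q * Pι A B g a * q⁻¹ := by rw [← hza]; group
  have ha1 : a ≠ 1 := by
    rintro rfl
    apply hz
    rw [hz', map_one]
    group
  rw [On_line]
  revert y
  refine xv_ind ?_
  intro r
  constructor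
  · intro h
    have h2 : (vx (Pι A B g a * (q⁻¹ * r)) : XV A B g) = vx (q⁻¹ * r) := by
      have h3 : q⁻¹ • (z • (vx r : XV A B g)) = q⁻¹ • vx r := by rw [h]
      rw [hz'] at h3
      simp only [smul_vx] at h3
      rw [← h3]
      congr 1
      group
    obtain ⟨q1, hq1, k, hk⟩ := ell_line (hg := hg) (hgeo := hgeo) (hι := hι) M hSC hA ha ha1 h2
    refine ⟨q1, hq1, ?_⟩
    have h4 : r = q * q1 * Pι A B g k := by
      rw [mul_assoc, ← hk, mul_inv_cancel_left]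
    exact (vx_eq.2 ⟨k, h4⟩).symm
  · rintro ⟨x, hx, h⟩
    rw [h, hz', smul_vx]
    obtain ⟨a1, ha1', -, hc⟩ := PB_comm_ι hx ha ha1
    refine (vx_eq.2 ⟨a1, ?_⟩).symm
    have : q * Pι A B g a * q⁻¹ * (q * x) = q * (Pι A B g a * x) := by group
    rw [this, hc, mul_assoc]

/-- **fixed vertices** -/
theorem fix_stmt (M : Mods) (hSC : (XX hg hgeo hι).SC)
    (hA : ∀ x ∈ A, ∀ y ∈ A, x * y = y * x) : FixStmt A B g := by
  intro c z hz h1
  refine ⟨fun hr y => ?_, fun hr y => not_fix hr y⟩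
  rcases H89.car_cases c with ⟨q, rfl⟩ | ⟨q, rfl⟩
  · exact fix_plane M hSC hA hz h1 hr y
  · exact fix_line M hSC hA hz h1 hr y

/-- **opposite nodes** -/
theorem opp_stmt (hι : Function.Injective (Pι A B g)) : OppStmt A B g := by
  constructor
  · intro m q z h1 h2
    rw [xinv_eA, xsrc_eA] at h2
    rw [xinv_eA, actE_eA]
    have h3 : (plane q : Car A B g) = plane (z⁻¹ * (q * trn A B g m)) := by
      rw [← smul_plane]
      have h4 : (plane (q * trn A B g m) : Car A B g) = plane q := by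
        rw [plane_eq, mul_inv_rev, inv_mul_cancel_right]
        exact inv_mem (trn_PA m)
      rw [h4, stab_inv h1]
    have h5 : (vx q : XV A B g) = vx (z⁻¹ * (q * trn A B g m)) := by
      rw [← smul_vx, h2, inv_smul_smul]
    exact same_flat (m := m) hι h3 h5
  · intro m q z h1 h2
    rw [xinv_eC, xsrc_eC] at h2
    rw [xinv_eC, actE_eC]
    have h3 : (line q : Car A B g) = line (z⁻¹ * (q * trc A B g m)) := by
      rw [← smul_line]
      have h4 : (line (q * trc A B g m) : Car A B g) = line q := by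
        rw [line_eq, mul_inv_rev, inv_mul_cancel_right]
        exact inv_mem (trc_PB m)
      rw [h4, stab_inv h1]
    have h5 : (vx q : XV A B g) = vx (z⁻¹ * (q * trc A B g m)) := by
      rw [← smul_vx, h2, inv_smul_smul]
    exact same_line hι h3 h5

/-! ## distances -/

theorem exists_dVC (x : XV A B g) (c : Car A B g) :
    ∃ y, On c y ∧ dst (XX hg hgeo hι) x y = dVC hg hgeo hι x c := by
  obtain ⟨y, hy⟩ := On_ex c
  exact Nat.sInf_mem (s := {n | ∃ y, On c y ∧ dst (XX hg hgeo hι) x y = n}) ⟨_, y, hy, rfl⟩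

theorem dVC_le {x y : XV A B g} {c : Car A B g} (h : On c y) :
    dVC hg hgeo hι x c ≤ dst (XX hg hgeo hι) x y := Nat.sInf_le ⟨y, h, rfl⟩

theorem dVC_path {x y : XV A B g} {c : Car A B g} {w : List (XE A B g)} (h : On c y)
    (hw : (XX hg hgeo hι).IsP x w y) : dVC hg hgeo hι x c ≤ w.length :=
  (dVC_le h).trans (dst_le hw)

/-- a geodesic slit from `x` to `c` -/
theorem exists_slit (x : XV A B g) (c : Car A B g) :
    ∃ y w, On c y ∧ (XX hg hgeo hι).IsP x w y ∧ w.length = dVC hg hgeo hι x c := by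
  obtain ⟨y, hy, h⟩ := exists_dVC (hg := hg) (hgeo := hgeo) (hι := hι) x c
  obtain ⟨w, hw, hl⟩ := exists_geod (connX (hg := hg) (hgeo := hgeo) (hι := hι)) x y
  exact ⟨y, w, hy, hw, by rw [hl, h]⟩

theorem dVC_on {x : XV A B g} {c : Car A B g} (h : On c x) : dVC hg hgeo hι x c = 0 := by
  have := dVC_le (hg := hg) (hgeo := hgeo) (hι := hι) (x := x) h
  rw [dst_self] at this
  omega

theorem dVC_eq_zero {x : XV A B g} {c : Car A B g} : dVC hg hgeo hι x c = 0 ↔ On c x := by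
  constructor
  · intro h
    obtain ⟨y, hy, h2⟩ := exists_dVC (hg := hg) (hgeo := hgeo) (hι := hι) x c
    rw [h] at h2
    rw [eq_of_dst (connX (hg := hg) (hgeo := hgeo) (hι := hι)) h2]
    exact hy
  · exact dVC_on

theorem dVC_tri (x y : XV A B g) (c : Car A B g) :
    dVC hg hgeo hι x c ≤ dst (XX hg hgeo hι) x y + dVC hg hgeo hι y c := by
  obtain ⟨z, hz, h⟩ := exists_dVC (hg := hg) (hgeo := hgeo) (hι := hι) y c
  have h1 := dVC_le (hg := hg) (hgeo := hgeo) (hι := hι) (x := x) hz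
  have h2 := dst_tri (connX (hg := hg) (hgeo := hgeo) (hι := hι)) x y z
  omega

theorem dVC_smul (p : PP A B g) (x : XV A B g) (c : Car A B g) :
    dVC hg hgeo hι (p • x) (p • c) = dVC hg hgeo hι x c := by
  have key : ∀ (p : PP A B g) (x : XV A B g) (c : Car A B g),
      dVC hg hgeo hι (p • x) (p • c) ≤ dVC hg hgeo hι x c := by
    intro p x c
    obtain ⟨y, hy, h⟩ := exists_dVC (hg := hg) (hgeo := hgeo) (hι := hι) x c
    rw [← h, ← (gactX (hg := hg) (hgeo := hgeo) (hι := hι)).dst p x y]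
    exact dVC_le (hy.smul p)
  apply le_antisymm (key p x c)
  have := key p⁻¹ (p • x) (p • c)
  rwa [inv_smul_smul, inv_smul_smul] at this

theorem exists_dCC (c c' : Car A B g) :
    ∃ x y, On c x ∧ On c' y ∧ dst (XX hg hgeo hι) x y = dCC hg hgeo hι c c' := by
  obtain ⟨x, hx⟩ := On_ex c
  obtain ⟨y, hy⟩ := On_ex c'
  exact Nat.sInf_mem (s := {n | ∃ x y, On c x ∧ On c' y ∧ dst (XX hg hgeo hι) x y = n})
    ⟨_, x, y, hx, hy, rfl⟩

theorem dCC_le {x y : XV A B g} {c c' : Car A B g} (h : On c x) (h' : On c' y) :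
    dCC hg hgeo hι c c' ≤ dst (XX hg hgeo hι) x y := Nat.sInf_le ⟨x, y, h, h', rfl⟩

theorem dCC_le_dVC {x : XV A B g} {c c' : Car A B g} (h : On c x) :
    dCC hg hgeo hι c c' ≤ dVC hg hgeo hι x c' := by
  obtain ⟨y, hy, h2⟩ := exists_dVC (hg := hg) (hgeo := hgeo) (hι := hι) x c'
  rw [← h2]
  exact dCC_le h hy

theorem dCC_comm (c c' : Car A B g) : dCC hg hgeo hι c c' = dCC hg hgeo hι c' c := by
  have key : ∀ c c' : Car A B g, dCC hg hgeo hι c c' ≤ dCC hg hgeo hι c' c := by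
    intro c c'
    obtain ⟨x, y, hx, hy, h⟩ := exists_dCC (hg := hg) (hgeo := hgeo) (hι := hι) c' c
    rw [← h, dst_comm (connX (hg := hg) (hgeo := hgeo) (hι := hι)) x y]
    exact dCC_le hy hx
  exact le_antisymm (key _ _) (key _ _)

/-- a pair of carriers at distance `dCC` with a slit starting at a vertex of the first -/
theorem exists_dCC_slit (c c' : Car A B g) :
    ∃ x, On c x ∧ dVC hg hgeo hι x c' = dCC hg hgeo hι c c' := by
  obtain ⟨x, y, hx, hy, h⟩ := exists_dCC (hg := hg) (hgeo := hgeo) (hι := hι) c c'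
  refine ⟨x, hx, le_antisymm ?_ (dCC_le_dVC hx)⟩
  rw [← h]
  exact dVC_le hy

/-- through any vertex -/
theorem dCC_le_add (n : XV A B g) (c c' : Car A B g) :
    dCC hg hgeo hι c c' ≤ dVC hg hgeo hι n c + dVC hg hgeo hι n c' := by
  obtain ⟨x, hx, h⟩ := exists_dVC (hg := hg) (hgeo := hgeo) (hι := hι) n c
  have h1 := dCC_le_dVC (hg := hg) (hgeo := hgeo) (hι := hι) (c' := c') hx
  have h2 := dVC_tri (hg := hg) (hgeo := hgeo) (hι := hι) x n c'
  rw [dst_comm (connX (hg := hg) (hgeo := hgeo) (hι := hι)) x n, h] at h2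
  omega

theorem dCC_smul (p : PP A B g) (c c' : Car A B g) :
    dCC hg hgeo hι (p • c) (p • c') = dCC hg hgeo hι c c' := by
  have key : ∀ (p : PP A B g) (c c' : Car A B g),
      dCC hg hgeo hι (p • c) (p • c') ≤ dCC hg hgeo hι c c' := by
    intro p c c'
    obtain ⟨x, y, hx, hy, h⟩ := exists_dCC (hg := hg) (hgeo := hgeo) (hι := hι) c c'
    rw [← h, ← (gactX (hg := hg) (hgeo := hgeo) (hι := hι)).dst p x y]
    exact dCC_le (hx.smul p) (hy.smul p)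
  apply le_antisymm (key p c c')
  have := key p⁻¹ (p • c) (p • c')
  rwa [inv_smul_smul, inv_smul_smul] at this

theorem dCC_eq_zero {c c' : Car A B g} : dCC hg hgeo hι c c' = 0 ↔ ∃ x, On c x ∧ On c' x := by
  constructor
  · intro h
    obtain ⟨x, y, hx, hy, h2⟩ := exists_dCC (hg := hg) (hgeo := hgeo) (hι := hι) c c'
    rw [h] at h2
    have := eq_of_dst (connX (hg := hg) (hgeo := hgeo) (hι := hι)) h2
    exact ⟨x, hx, by rw [this]; exact hy⟩
  · rintro ⟨x, hx, hy⟩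
    have := dCC_le (hg := hg) (hgeo := hgeo) (hι := hι) hx hy
    rw [dst_self] at this
    omega

/-- distances along a slit -/
theorem slit_dVC {x n y : XV A B g} {c : Car A B g} {w w' : List (XE A B g)}
    (hy : On c y) (hw : (XX hg hgeo hι).IsP x w n) (hw' : (XX hg hgeo hι).IsP n w' y)
    (hl : w.length + w'.length = dVC hg hgeo hι x c) :
    dVC hg hgeo hι n c = w'.length ∧ dst (XX hg hgeo hι) x n = w.length ∧
      dst (XX hg hgeo hι) n y = w'.length := by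
  have h1 := dVC_path (hg := hg) (hgeo := hgeo) (hι := hι) hy hw'
  have h2 := dVC_tri (hg := hg) (hgeo := hgeo) (hι := hι) x n c
  have h3 := dst_le hw
  have h4 := dst_le hw'
  have h5 := dVC_le (hg := hg) (hgeo := hgeo) (hι := hι) (x := n) hy
  omega

/-! ## sides -/

theorem SideP.act {c : Car A B g} {x y : XV A B g} {s : List (XE A B g)}
    (h : SideP hg hgeo hι c x y s) (p : PP A B g) :
    SideP hg hgeo hι (p • c) (p • x) (p • y) (s.map (actE p)) := by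
  refine ⟨IsP_act p h.1, ?_⟩
  intro e he
  obtain ⟨f, hf, rfl⟩ := List.mem_map.1 he
  rw [car_act, h.2 f hf]

theorem SideP.rev {c : Car A B g} {x y : XV A B g} {s : List (XE A B g)}
    (h : SideP hg hgeo hι c x y s) : SideP hg hgeo hι c y x ((XX hg hgeo hι).rv s) := by
  refine ⟨h.1.rv, ?_⟩
  intro e he
  unfold TG.rv at he
  rw [List.mem_reverse, List.mem_map] at he
  obtain ⟨f, hf, rfl⟩ := he
  change car (xinv f) = c
  rw [car_inv, h.2 f hf]

theorem NTwo.conj {c : Car A B g} {z : PP A B g} (h : NTwo hg hgeo hι c z) (p : PP A B g) :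
    NTwo hg hgeo hι (p • c) (p * z * p⁻¹) := by
  intro y s hs
  have h1 := hs.act p⁻¹
  rw [inv_smul_smul, smul_smul] at h1
  have e : p⁻¹ * (p * z * p⁻¹) = z * p⁻¹ := by group
  rw [e, mul_smul] at h1
  have := h _ _ h1
  rwa [List.length_map] at this

theorem NTwo.inv {c : Car A B g} {z : PP A B g} (h : NTwo hg hgeo hι c z) :
    NTwo hg hgeo hι c z⁻¹ := by
  intro y s hs
  have h1 := hs.rev
  have h2 : y = z • (z⁻¹ • y) := by rw [smul_inv_smul]
  rw [show SideP hg hgeo hι c (z⁻¹ • y) y = SideP hg hgeo hι c (z⁻¹ • y) (z • (z⁻¹ • y)) by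
    rw [← h2]] at h1
  have := h _ _ h1
  rwa [rv_length] at this

/-- **lengths of translations** -/
theorem len_stmt : LenStmt hg hgeo hι := by
  have vd : ∀ (z : PP A B g) (d e : ℤ) (y : XV A B g), vdg d e (z • y) - vdg d e y = dg A B g d e z := by
    intro z d e y
    rw [vdg_smul]; ring
  have path : ∀ (f : XV A B g → ℤ) (s : List (XE A B g)) (x y : XV A B g),
      (XX hg hgeo hι).IsP x s y → (∀ e ∈ s, |f (xsrc (xinv e)) - f (xsrc e)| ≤ 1) →
      |f y - f x| ≤ s.length := by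
    intro f s
    induction s with
    | nil =>
      intro x y h _
      rw [← show x = y from h]
      simp
    | cons e w ih =>
      intro x y h he
      have h1 := ih _ _ h.2 (fun e' h' => he e' (List.mem_cons_of_mem _ h'))
      have h2 := he e List.mem_cons_self
      have h3 : xsrc e = x := h.1
      have h4 : (XX hg hgeo hι).tgt e = xsrc (xinv e) := rfl
      rw [h4] at h1
      rw [h3] at h2
      rw [abs_le] at h1 h2 ⊢
      simp only [List.length_cons]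
      push_cast
      constructor <;> linarith [h1.1, h1.2, h2.1, h2.2]
  constructor
  · rintro c z y s hs ⟨q, rfl⟩
    rw [← vd z 1 1 y]
    refine path _ _ _ _ hs.1 ?_
    intro e he
    obtain ⟨m, q', rfl⟩ := H89.plane_letter (hs.2 e he)
    rw [xinv_eA, xsrc_eA, xsrc_eA, vdg_vx, vdg_vx, dg_mul, add_sub_cancel_left]
    cases m <;> simp [trn, dg_mul, dg_inv, dg_u, dg_v]
  · intro c z y s hs
    rw [← vd z 1 0 y]
    refine path _ _ _ _ hs.1 ?_
    intro e _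
    exact lipX (hg := hg) (hgeo := hgeo) (hι := hι) 1 0 (Or.inl ⟨rfl, rfl⟩) e

/-! ## triples -/

theorem mul3_cyc {H : Type*} [Group H] {a b c : H} (h : a * b * c = 1) : b * c * a = 1 := by
  have : b * c * a = a⁻¹ * (a * b * c) * a := by group
  rw [this, h]; group

theorem Trp.Ok.cyc {T : Trp A B g} (h : T.Ok) : T.cyc.Ok :=
  ⟨mul3_cyc h.mul, h.s2, h.s3, h.s1, h.n2, h.n3, h.n1, h.d23, h.d13.symm, h.d12.symm⟩

theorem Trp.Ok.mir {T : Trp A B g} (h : T.Ok) : T.mir.Ok := by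
  refine ⟨?_, stab_inv h.s3, stab_inv h.s2, stab_inv h.s1, inv_ne_one.2 h.n3, inv_ne_one.2 h.n2,
    inv_ne_one.2 h.n1, h.d23.symm, h.d12.symm, h.d13.symm⟩
  change T.z3⁻¹ * T.z2⁻¹ * T.z1⁻¹ = 1
  have : T.z3⁻¹ * T.z2⁻¹ * T.z1⁻¹ = (T.z1 * T.z2 * T.z3)⁻¹ := by group
  rw [this, h.mul, inv_one]

theorem conj_ne_one {H : Type*} [Group H] {p z : H} (h : z ≠ 1) : p * z * p⁻¹ ≠ 1 := by
  intro h1
  exact h (conj_eq_one_iff.1 h1)

theorem Trp.Ok.conj {T : Trp A B g} (h : T.Ok) (p : PP A B g) : (T.conj p).Ok := by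
  refine ⟨?_, stab_conj h.s1, stab_conj h.s2, stab_conj h.s3, conj_ne_one h.n1, conj_ne_one h.n2,
    conj_ne_one h.n3, ?_, ?_, ?_⟩
  · change p * T.z1 * p⁻¹ * (p * T.z2 * p⁻¹) * (p * T.z3 * p⁻¹) = 1
    have : p * T.z1 * p⁻¹ * (p * T.z2 * p⁻¹) * (p * T.z3 * p⁻¹) =
        p * (T.z1 * T.z2 * T.z3) * p⁻¹ := by group
    rw [this, h.mul]; group
  · exact fun h1 => h.d12 (smul_left_cancel p h1)
  · exact fun h1 => h.d23 (smul_left_cancel p h1)
  · exact fun h1 => h.d13 (smul_left_cancel p h1)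

theorem Trp.Ok.hur (hS : StabStmt A B g) {T : Trp A B g} (h : T.Ok) : T.hur.Ok := by
  refine ⟨?_, stab_conj h.s2, h.s1, h.s3, conj_ne_one h.n2, h.n1, h.n3, ?_, h.d13, ?_⟩
  · change T.z1 * T.z2 * T.z1⁻¹ * T.z1 * T.z3 = 1
    rw [inv_mul_cancel_right, h.mul]
  · intro h1
    change T.z1 • T.c2 = T.c1 at h1
    apply h.d12
    rw [← stab_inv h.s1, ← h1, inv_smul_smul]
  · intro h1
    change T.z1 • T.c2 = T.c3 at h1
    apply h.d13
    refine hS _ _ T.z1 h.n1 h.s1 ?_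
    have h2 := stab_conj (p := T.z1) h.s2
    rw [h1] at h2
    have h3 : T.z1 = (T.z1 * T.z2 * T.z1⁻¹)⁻¹ * T.z3⁻¹ := by
      have h4 := h.mul
      have h5 : T.z3⁻¹ = T.z1 * T.z2 := by
        rw [inv_eq_iff_mul_eq_one.2]
        have := mul3_cyc (mul3_cyc h4)
        rwa [← mul_assoc]
      rw [h5]; group
    rw [h3, mul_smul, stab_inv h.s3, stab_inv h2]

theorem cls_Rt (hS : StabStmt A B g) : Trp.Cls (Trp.Rt (A := A) (B := B) (g := g)) where
  ok T h := h.1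
  cyc T h := ⟨h.1.cyc, h.2.2.1, h.2.2.2.1, h.2.1, by
    have := h.2.2.2.2
    change (¬ Rot T.z2 ∧ ¬ Rot T.z3) ∨ (¬ Rot T.z3 ∧ ¬ Rot T.z1) ∨ (¬ Rot T.z2 ∧ ¬ Rot T.z1)
    tauto⟩
  mir T h := ⟨h.1.mir, h.2.2.2.1, h.2.2.1, h.2.1, by
    have := h.2.2.2.2
    change (¬ Rot T.z3⁻¹ ∧ ¬ Rot T.z2⁻¹) ∨ (¬ Rot T.z2⁻¹ ∧ ¬ Rot T.z1⁻¹) ∨
      (¬ Rot T.z3⁻¹ ∧ ¬ Rot T.z1⁻¹)
    rw [Rot_inv, Rot_inv, Rot_inv]
    tauto⟩
  conj p T h := ⟨h.1.conj p, h.2.1.smul p, h.2.2.1.smul p, h.2.2.2.1.smul p, by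
    have := h.2.2.2.2
    change (¬ Rot (p * T.z1 * p⁻¹) ∧ ¬ Rot (p * T.z2 * p⁻¹)) ∨
      (¬ Rot (p * T.z2 * p⁻¹) ∧ ¬ Rot (p * T.z3 * p⁻¹)) ∨
      (¬ Rot (p * T.z1 * p⁻¹) ∧ ¬ Rot (p * T.z3 * p⁻¹))
    rw [Rot_conj, Rot_conj, Rot_conj]
    exact this⟩
  hur T h := ⟨h.1.hur hS, h.2.2.1.smul _, h.2.1, h.2.2.2.1, by
    have := h.2.2.2.2
    change (¬ Rot (T.z1 * T.z2 * T.z1⁻¹) ∧ ¬ Rot T.z1) ∨ (¬ Rot T.z1 ∧ ¬ Rot T.z3) ∨
      (¬ Rot (T.z1 * T.z2 * T.z1⁻¹) ∧ ¬ Rot T.z3)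
    rw [Rot_conj]
    tauto⟩

theorem cls_Rr (hS : StabStmt A B g) : Trp.Cls (Trp.Rr (A := A) (B := B) (g := g)) where
  ok T h := h.1
  cyc T h := ⟨h.1.cyc, h.2.2.1, h.2.2.2.1, h.2.1, h.2.2.2.2.2.1, h.2.2.2.2.2.2, h.2.2.2.2.1⟩
  mir T h := ⟨h.1.mir, h.2.2.2.1, h.2.2.1, h.2.1, h.2.2.2.2.2.2.inv, h.2.2.2.2.2.1.inv,
    h.2.2.2.2.1.inv⟩
  conj p T h := ⟨h.1.conj p, h.2.1.smul p, h.2.2.1.smul p, h.2.2.2.1.smul p,
    Rot_conj.2 h.2.2.2.2.1, Rot_conj.2 h.2.2.2.2.2.1, Rot_conj.2 h.2.2.2.2.2.2⟩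
  hur T h := ⟨h.1.hur hS, h.2.2.1.smul _, h.2.1, h.2.2.2.1, Rot_conj.2 h.2.2.2.2.2.1,
    h.2.2.2.2.1, h.2.2.2.2.2.2⟩

theorem cls_Lt (hS : StabStmt A B g) : Trp.Cls (Trp.Lt (A := A) (B := B) (g := g) hg hgeo hι) where
  ok T h := h.1
  cyc T h := by
    obtain ⟨h0, h1, r1, r2, r3, n1, n2, n3⟩ := h
    exact ⟨h0.cyc, by
      change (IsLn T.c2 ∧ IsPl T.c3 ∧ IsPl T.c1) ∨ (IsPl T.c2 ∧ IsLn T.c3 ∧ IsPl T.c1) ∨
        (IsPl T.c2 ∧ IsPl T.c3 ∧ IsLn T.c1)
      tauto, r2, r3, r1, n2, n3, n1⟩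
  mir T h := by
    obtain ⟨h0, h1, r1, r2, r3, n1, n2, n3⟩ := h
    exact ⟨h0.mir, by
      change (IsLn T.c3 ∧ IsPl T.c2 ∧ IsPl T.c1) ∨ (IsPl T.c3 ∧ IsLn T.c2 ∧ IsPl T.c1) ∨
        (IsPl T.c3 ∧ IsPl T.c2 ∧ IsLn T.c1)
      tauto, by rwa [show T.mir.z1 = T.z3⁻¹ from rfl, Rot_inv],
      by rwa [show T.mir.z2 = T.z2⁻¹ from rfl, Rot_inv],
      by rwa [show T.mir.z3 = T.z1⁻¹ from rfl, Rot_inv], n3.inv, n2.inv, n1.inv⟩
  conj p T h := by
    obtain ⟨h0, h1, r1, r2, r3, n1, n2, n3⟩ := h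
    refine ⟨h0.conj p, ?_, by rwa [show (T.conj p).z1 = p * T.z1 * p⁻¹ from rfl, Rot_conj],
      by rwa [show (T.conj p).z2 = p * T.z2 * p⁻¹ from rfl, Rot_conj],
      by rwa [show (T.conj p).z3 = p * T.z3 * p⁻¹ from rfl, Rot_conj], n1.conj p, n2.conj p,
      n3.conj p⟩
    rcases h1 with ⟨a, b, c⟩ | ⟨a, b, c⟩ | ⟨a, b, c⟩
    · exact Or.inl ⟨a.smul p, b.smul p, c.smul p⟩
    · exact Or.inr (Or.inl ⟨a.smul p, b.smul p, c.smul p⟩)
    · exact Or.inr (Or.inr ⟨a.smul p, b.smul p, c.smul p⟩)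
  hur T h := by
    obtain ⟨h0, h1, r1, r2, r3, n1, n2, n3⟩ := h
    refine ⟨h0.hur hS, ?_, by rwa [show T.hur.z1 = T.z1 * T.z2 * T.z1⁻¹ from rfl, Rot_conj],
      r1, r3, n2.conj T.z1, n1, n3⟩
    rcases h1 with ⟨a, b, c⟩ | ⟨a, b, c⟩ | ⟨a, b, c⟩
    · exact Or.inr (Or.inl ⟨b.smul _, a, c⟩)
    · exact Or.inl ⟨b.smul _, a, c⟩
    · exact Or.inr (Or.inr ⟨b.smul _, a, c⟩)

/-- **the classes** -/
theorem cls_stmt (hS : StabStmt A B g) : ClsStmt hg hgeo hι :=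
  ⟨cls_Rt hS, cls_Rr hS, cls_Lt hS⟩

/-- **the minimum** -/
theorem min_stmt : MinStmt hg hgeo hι := by
  classical
  intro K hK hne
  let Q : ℕ → Prop := fun n => ∃ T, K T ∧ ((∃ m, T.LY hg hgeo hι m = n) ∨ T.LV hg hgeo hι = n)
  have hex : ∃ n, Q n := by
    obtain ⟨T, hT⟩ := hne
    exact ⟨_, T, hT, Or.inr rfl⟩
  have hmin : ∀ n, Q n → Nat.find hex ≤ n := fun n hn => Nat.find_min' hex hn
  refine ⟨Nat.find hex, fun T hT => ⟨fun m => hmin _ ⟨T, hT, Or.inl ⟨m, rfl⟩⟩,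
    hmin _ ⟨T, hT, Or.inr rfl⟩⟩, ?_⟩
  by_cases h : ∃ T, K T ∧ T.LV hg hgeo hι = Nat.find hex
  · exact Or.inr h
  · left
    push Not at h
    obtain ⟨T, hT, ⟨m, hm⟩ | h1⟩ := Nat.find_spec hex
    · exact ⟨T, m, hT, hm, fun T' hT' =>
        lt_of_le_of_ne (hmin _ ⟨T', hT', Or.inr rfl⟩) (h T' hT').symm⟩
    · exact absurd h1 (h T hT)

/-- **consequences of minimality** -/
theorem hur_stmt : HurStmt hg hgeo hι := by
  intro K L hK hL T hT
  have h0 := hK.ok T hT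
  have e1 : T.z1 • T.c2 = T.z3⁻¹ • T.c2 := by
    have h5 : T.z3⁻¹ = T.z1 * T.z2 := by
      rw [inv_eq_iff_mul_eq_one.2]
      have := mul3_cyc (mul3_cyc h0.mul)
      rwa [← mul_assoc]
    rw [h5, mul_smul, h0.s2]
  have e2 : dCC hg hgeo hι (T.z1 • T.c2) T.c3 = dCC hg hgeo hι T.c2 T.c3 := by
    rw [e1]
    have h2 : T.c3 = T.z3⁻¹ • T.c3 := (stab_inv h0.s3).symm
    calc dCC hg hgeo hι (T.z3⁻¹ • T.c2) T.c3
        = dCC hg hgeo hι (T.z3⁻¹ • T.c2) (T.z3⁻¹ • T.c3) := by rw [← h2]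
      _ = _ := dCC_smul _ _ _
  have e3 : dCC hg hgeo hι (T.z1 • T.c2) (T.z1 • T.c3) = dCC hg hgeo hι T.c2 T.c3 := dCC_smul _ _ _
  have e4 : dCC hg hgeo hι T.c1 (T.z1 • T.c3) = dCC hg hgeo hι T.c1 T.c3 := by
    have h2 : T.c1 = T.z1 • T.c1 := h0.s1.symm
    calc dCC hg hgeo hι T.c1 (T.z1 • T.c3)
        = dCC hg hgeo hι (T.z1 • T.c1) (T.z1 • T.c3) := by rw [← h2]
      _ = _ := dCC_smul _ _ _
  have hH := hK.hur T hT
  have hC := hK.conj T.z1 T hT
  have y1 := (hL _ hH).1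
  have y2 := (hL _ hC).1
  have v1 := (hL _ (hK.cyc _ (hK.cyc _ hH))).2
  have v2 := (hL _ (hK.cyc _ (hK.cyc _ hC))).2
  have v3 := (hL _ hT).2
  refine ⟨?_, ?_, ?_, ?_, v3, e1, e2, e3, e4, ?_⟩
  · intro n
    have h1 := y1 n
    change L ≤ dVC hg hgeo hι n (T.z1 • T.c2) + dVC hg hgeo hι n T.c1 + dVC hg hgeo hι n T.c3 at h1
    omega
  · intro n
    have h1 := y2 n
    change L ≤ dVC hg hgeo hι n (T.z1 • T.c1) + dVC hg hgeo hι n (T.z1 • T.c2) +
      dVC hg hgeo hι n (T.z1 • T.c3) at h1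
    rwa [h0.s1] at h1
  · change L ≤ dCC hg hgeo hι T.c3 T.c1 + dCC hg hgeo hι (T.z1 • T.c2) T.c1 at v1
    rw [dCC_comm T.c3 T.c1, dCC_comm _ T.c1] at v1
    omega
  · change L ≤ dCC hg hgeo hι (T.z1 • T.c3) (T.z1 • T.c2) +
      dCC hg hgeo hι (T.z1 • T.c1) (T.z1 • T.c2) at v2
    rw [h0.s1, dCC_comm (T.z1 • T.c3), e3] at v2
    omega
  · intro h1
    apply h0.d12
    rw [← stab_inv h0.s1, h1, inv_smul_smul]

end

end Pool.Agent.ABA.B
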