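import Pool.Agent.Helper17_ABA.LobeDefs
import Pool.Agent.Helper49_ABB.Walk
import Pool.Agent.Helper70_ABA.Exc2

/-!
# Lobes: PAIR, TIP, FOOT (MP_d857f1_al, part B, module LOBE)
-/

set_option autoImplicit false

namespace Pool.Agent.ABA.B.H70L

open Knd Pool.Agent.ABA Pool.Agent.ABA.B Pool.Agent.ABA.B.TG Pool.Agent.ABA.B.H17
  Pool.Agent.ABA.B.H49 Pool.Agent.ABA.B.H50 Pool.Agent.ABA.B.H83 Pool.Agent.ABA.B.Slt

variable {G : Type} [Group G] {A B : Subgroup G} {g : G}
variable {hg : ¬ IsABA A B g} {hgeo : Geo A B} {hι : Function.Injective (Pι A B g)}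

/-- letters of the same kind are never adjacent -/
theorem not_cor_act (z : PP A B g) (e : XE A B g) : ¬ (XX hg hgeo hι).Cor e (actE z e) :=
  (tip_ G A B g hg hgeo hι).1 z e

theorem wk_len {v : List (XE A B g)} {x y : XE A B g} (h : Wk (XX hg hgeo hι) v x y)
    (hne : x ≠ y ∨ True) (hc : ¬ (XX hg hgeo hι).Cor x y) : v.length ≠ 2 := by
  intro h2
  obtain ⟨c, hh, hl⟩ := h
  rcases v with _ | ⟨a, _ | ⟨b, _ | ⟨d, v⟩⟩⟩
  · simp at h2
  · simp at h2
  · simp only [List.head?_cons, Option.some.injEq] at hh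
    simp only [List.getLast?_cons_cons, List.getLast?_singleton, Option.some.injEq] at hl
    simp only [List.isChain_cons_cons, List.IsChain.singleton, and_true] at c
    rw [hh, hl] at c
    exact hc c
  · simp at h2

theorem wk_two_le {w : List (XE A B g)} {a : ℕ → XE A B g} {W : ℕ → List (XE A B g)}
    {I : List (List (XE A B g))} (h : Bd (XX hg hgeo hι) w.length a W I) (i : ℕ) :
    2 ≤ (W (i + 1)).length := by
  obtain ⟨f1, f2, l, r, -, -, h3⟩ := h.edg i
  rw [h3]; simp

theorem cor_two {v : List (XE A B g)} {x y : XE A B g} (h : Wk (XX hg hgeo hι) v x y)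
    (h2 : v.length = 2) : (XX hg hgeo hι).Cor x y := by
  obtain ⟨c, hh, hl⟩ := h
  rcases v with _ | ⟨a, _ | ⟨b, _ | ⟨d, v⟩⟩⟩
  · simp at h2
  · simp at h2
  · simp only [List.head?_cons, Option.some.injEq] at hh
    simp only [List.getLast?_cons_cons, List.getLast?_singleton, Option.some.injEq] at hl
    simp only [List.isChain_cons_cons, List.IsChain.singleton, and_true] at c
    rwa [hh, hl] at c
  · simp at h2

/-- a walk with two corners -/
theorem wk_three {v : List (XE A B g)} {x y : XE A B g} (h : Wk (XX hg hgeo hι) v x y)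
    (h3 : v.length = 3) : ∃ n, v = [x, n, y] ∧ (XX hg hgeo hι).Cor x n ∧
      (XX hg hgeo hι).Cor n y := by
  obtain ⟨c, hh, hl⟩ := h
  rcases v with _ | ⟨a, _ | ⟨b, _ | ⟨d, _ | ⟨e, v⟩⟩⟩⟩
  · simp at h3
  · simp at h3
  · simp at h3
  · simp only [List.head?_cons, Option.some.injEq] at hh
    simp only [List.getLast?_cons_cons, List.getLast?_singleton, Option.some.injEq] at hl
    simp only [List.isChain_cons_cons, List.IsChain.singleton, and_true] at c
    subst hh hl
    exact ⟨b, rfl, c.1, c.2⟩
  · simp at h3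

/-- a geodesic has no corner -/
theorem geod_no_cor {x y : XV A B g} {γ1 γ2 : List (XE A B g)} {e f : XE A B g} {n : ℕ}
    (h : (XX hg hgeo hι).IsP x (γ1 ++ e :: f :: γ2) y)
    (hmin : ∀ δ, (XX hg hgeo hι).IsP x δ y → (γ1 ++ e :: f :: γ2).length ≤ δ.length) :
    ¬ (XX hg hgeo hι).Cor (xinv e) f ∧ f ≠ xinv e := by
  obtain ⟨u, h1, h2⟩ := isP_append.1 h
  have h3 : (XX hg hgeo hι).src e = u := h2.1
  have h4 : (XX hg hgeo hι).src f = (XX hg hgeo hι).tgt e := h2.2.1
  have h5 : (XX hg hgeo hι).IsP ((XX hg hgeo hι).tgt f) γ2 y := h2.2.2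
  constructor
  · rintro ⟨c, hc⟩
    -- Tri (xinv e) f c : `inv e = f c`
    have t1 : (XX hg hgeo hι).Tri f (xinv e) ((XX hg hgeo hι).inv c) := (XX hg hgeo hι).tri_swap hc
    have hs := (XX hg hgeo hι).tri_mid t1
    have ht := (XX hg hgeo hι).tri_tgt t1
    have hs' : (XX hg hgeo hι).src ((XX hg hgeo hι).inv c) = u := by
      rw [hs]
      have : (XX hg hgeo hι).inv (xinv e) = e := (XX hg hgeo hι).inv_inv e
      rw [this, h3]
    have := hmin (γ1 ++ (XX hg hgeo hι).inv c :: γ2)
      (isP_append.2 ⟨u, h1, hs', by rw [show (XX hg hgeo hι).tgt ((XX hg hgeo hι).inv c) =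
        (XX hg hgeo hι).tgt f from ht]; exact h5⟩)
    simp at this
  · rintro rfl
    have h6 : (XX hg hgeo hι).tgt (xinv e) = u := by
      change (XX hg hgeo hι).tgt ((XX hg hgeo hι).inv e) = u
      rw [tgt_inv, h3]
    rw [h6] at h5
    have := hmin (γ1 ++ γ2) (isP_append.2 ⟨u, h1, h5⟩)
    simp at this

theorem xx_inv (e : XE A B g) : (XX hg hgeo hι).inv e = xinv e := rfl

/-- last letter and first letter of a cyclic word: the walk at position `0` -/
theorem wk_zero {w : List (XE A B g)} {a : ℕ → XE A B g} {W : ℕ → List (XE A B g)}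
    {I : List (List (XE A B g))} (h : DW (XX hg hgeo hι) w a W I) {e f : XE A B g}
    {v : List (XE A B g)} (hw : w = e :: v) (hl : w.getLast? = some f) :
    Wk (XX hg hgeo hι) (W 0) (xinv f) e := by
  have hN : 0 < w.length := by rw [hw]; simp
  have h1 := bd_wk h.bd (w.length - 1)
  rw [show w.length - 1 + 1 = 0 + w.length by omega, h.bd.perW, h.bd.per] at h1
  have h2 : a 0 = e := by
    rw [h.get 0 hN]
    simp [hw]
  have h3 : a (w.length - 1) = f := by
    rw [h.get _ (by omega)]
    rw [List.getLast?_eq_getElem?] at hl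
    rw [List.getElem?_eq_getElem (by omega)] at hl
    simpa using hl
  rw [h2, h3] at h1
  exact h1

/-- letters at a given place -/
theorem dw_get {w l r : List (XE A B g)} {b : XE A B g} {a : ℕ → XE A B g}
    {W : ℕ → List (XE A B g)} {I : List (List (XE A B g))} (h : DW (XX hg hgeo hι) w a W I)
    (hw : w = l ++ b :: r) : a l.length = b := by
  rw [h.get _ (by rw [hw]; simp)]
  subst hw
  simp

/-- the walk between two consecutive letters -/
theorem dw_wk {w l r : List (XE A B g)} {b c : XE A B g} {a : ℕ → XE A B g}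
    {W : ℕ → List (XE A B g)} {I : List (List (XE A B g))} (h : DW (XX hg hgeo hι) w a W I)
    (hw : w = l ++ b :: c :: r) : Wk (XX hg hgeo hι) (W (l.length + 1)) (xinv b) c := by
  have h1 := dw_get h hw
  have h2 := dw_get h (l := l ++ [b]) (b := c) (r := r) (by rw [hw]; simp)
  rw [List.length_append, List.length_singleton] at h2
  have h3 := bd_wk h.bd l.length
  rw [h1, h2] at h3
  exact h3

/-- **FOOT** -/
theorem foot_ : FootStmt hg hgeo hι := by
  intro M hSC z x e l m r w a W I hw hcl hD hW1 hW2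
  have hc : (XX hg hgeo hι).Cor x e := by
    have := (dw_wk hD (l := l) (b := xinv x) (c := e) (by rw [hw]))
    exact cor_two (v := W (l.length + 1)) (by
      rw [show xinv (xinv x) = x from (XX hg hgeo hι).inv_inv x] at this
      exact this) (by rw [hW1]; rfl)
  obtain ⟨c0, hc0⟩ := hc
  obtain ⟨f, hf⟩ : ∃ f, xinv f = c0 := ⟨xinv c0, (XX hg hgeo hι).inv_inv c0⟩
  subst hf
  have ii : ∀ y : XE A B g, xinv (xinv y) = y := fun y => (XX hg hgeo hι).inv_inv y
  have t1 : (XX hg hgeo hι).Tri e x f := by
    have := (XX hg hgeo hι).tri_swap hc0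
    rwa [xx_inv, ii] at this
  have t2 : (XX hg hgeo hι).Tri (actE z x) (actE z e) (actE z (xinv f)) := XT_act z hc0
  have r1 : Rep (XX hg hgeo hι) (xinv x) e (W (l.length + 1)) [f] := by
    refine Rep.one ?_ ?_
    · rw [hW1, xx_inv, ii]
    · rw [xx_inv, ii]; exact t1
  have r2 : Rep (XX hg hgeo hι) (actE z (xinv e)) (actE z x) (W (l.length + 2 + m.length + 1))
      [actE z (xinv f)] := by
    have e1 : (XX hg hgeo hι).inv (actE z (xinv e)) = actE z e := by
      rw [xx_inv, xinv_act, ii]
    refine Rep.one ?_ ?_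
    · rw [hW2, e1]
    · rw [e1]; exact t2
  have key := site2 M hSC hD.bd hD.get hD.mask hcl (l := l) (m := m) (r := r)
    (R := [f]) (R' := [actE z (xinv f)]) hw r1 r2 (by
      by_cases hm : m = []
      · right
        subst hm
        have h1 := dw_wk hD (l := l ++ [xinv x]) (b := e) (c := actE z (xinv e))
          (r := actE z x :: r) (by rw [hw]; simp)
        rw [List.length_append, List.length_singleton] at h1
        rw [show l.length + 2 = l.length + 1 + 1 by ring]
        exact wk_len h1 (Or.inr trivial) (not_cor_act _ _)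
      · exact Or.inl hm) (by
      by_cases hlr : l ++ r = []
      · right
        rw [List.append_eq_nil_iff] at hlr
        obtain ⟨rfl, rfl⟩ := hlr
        have h1 := wk_zero hD (e := xinv x) (f := actE z x)
          (v := e :: (m ++ actE z (xinv e) :: [actE z x])) (by rw [hw]; simp) (by
          rw [hw]
          rw [List.nil_append, List.getLast?_cons_cons, List.getLast?_cons]
          simp)
        rw [xinv_act] at h1
        have h2 : ¬ (XX hg hgeo hι).Cor (actE z (xinv x)) (xinv x) := by
          intro h3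
          exact not_cor_act z (xinv x) ((XX hg hgeo hι).tri_swap (Classical.choose_spec h3) |>
            fun t => ⟨_, t⟩)
        exact wk_len h1 (Or.inr trivial) h2
      · exact Or.inl hlr)
  refine ⟨f, ?_, ?_, t1, ?_, ?_⟩
  · have := (XX hg hgeo hι).tri_mid t1
    exact this
  · exact (XX hg hgeo hι).tri_tgt t1
  · have := key.2
    simpa using this
  · have := key.1
    simpa using this

theorem not_cor_act' (z : PP A B g) (e : XE A B g) : ¬ (XX hg hgeo hι).Cor (actE z e) e := by
  rintro ⟨c, hc⟩
  exact not_cor_act z e ⟨_, (XX hg hgeo hι).tri_swap hc⟩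

/-- the slit data around an inner vertex -/
theorem pair_data {c : Car A B g} {z : PP A B g} {p : XV A B g} {k : ℕ}
    {l γ s r : List (XE A B g)} (h : LobeMin hg hgeo hι c z p k l γ s r) {γ1 γ2 : List (XE A B g)}
    {e f : XE A B g} (hγ : γ = γ1 ++ e :: f :: γ2) :
    ¬ (XX hg hgeo hι).Cor (xinv e) f ∧ f ≠ xinv e := by
  obtain ⟨y, hy, hp, -⟩ := h.lob.mid
  rw [hγ] at hp
  refine geod_no_cor (n := 0) hp ?_
  intro δ hδ
  have h1 := dVC_path (hg := hg) (hgeo := hgeo) (hι := hι) hy hδ
  have h2 := h.dist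
  have h3 := h.lob.len
  rw [← hγ]
  omega

theorem lobe_split (z : PP A B g) (γ1 γ2 s : List (XE A B g)) (e f : XE A B g) :
    lobe hg hgeo hι z (γ1 ++ e :: f :: γ2) s =
      γ1 ++ e :: f :: ((γ2 ++ s ++ ((XX hg hgeo hι).rv γ2).map (actE z)) ++
        actE z (xinv f) :: actE z (xinv e) :: ((XX hg hgeo hι).rv γ1).map (actE z)) := by
  unfold lobe
  rw [rv_append, rv_cons, rv_cons]
  simp only [List.append_assoc, List.cons_append, List.nil_append, List.map_append, List.map_cons,
    List.map_nil]
  rfl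

/-- **PAIR** -/
theorem pairL_ : PairLStmt hg hgeo hι := by
  intro hA M hSC c z p k l γ s r w a W I hw hcl hD hL j hj0 hjk
  have hlen := hL.lob.len
  obtain ⟨γ1, e, f, γ2, hγ, hl1⟩ : ∃ γ1 e f γ2, γ = γ1 ++ e :: f :: γ2 ∧ γ1.length + 1 = j := by
    refine ⟨γ.take (j - 1), γ[j - 1], γ[j], γ.drop (j + 1), ?_, ?_⟩
    · conv_lhs => rw [← List.take_append_drop (j - 1) γ, List.drop_eq_getElem_cons (by omega)]
      congr 2
      rw [show j - 1 + 1 = j by omega, List.drop_eq_getElem_cons (by omega)]
    · rw [List.length_take]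
      omega
  obtain ⟨hnc, hne⟩ := pair_data hL hγ
  have ii : ∀ y : XE A B g, xinv (xinv y) = y := fun y => (XX hg hgeo hι).inv_inv y
  -- the word
  have hw' : w = (l ++ γ1) ++ e :: f :: ((γ2 ++ s ++ ((XX hg hgeo hι).rv γ2).map (actE z)) ++
        actE z (xinv f) :: actE z (xinv e) :: (((XX hg hgeo hι).rv γ1).map (actE z) ++ r)) := by
    rw [hw, hγ, lobe_split]
    simp only [List.append_assoc, List.cons_append]
  have k1 := dw_wk hD hw'
  have hw'' : w = ((l ++ γ1) ++ e :: f :: (γ2 ++ s ++ ((XX hg hgeo hι).rv γ2).map (actE z))) ++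
        actE z (xinv f) :: actE z (xinv e) :: (((XX hg hgeo hι).rv γ1).map (actE z) ++ r) := by
    rw [hw']
    simp only [List.append_assoc, List.cons_append]
  have k2 := dw_wk hD hw''
  have p1 : (l ++ γ1).length + 1 = l.length + j := by
    rw [List.length_append]; omega
  have hγl : γ.length = γ1.length + γ2.length + 2 := by
    rw [hγ]; simp; omega
  have p2 : ((l ++ γ1) ++ e :: f :: (γ2 ++ s ++
      ((XX hg hgeo hι).rv γ2).map (actE z))).length + 1 = l.length + k + s.length + (k - j) := by
    simp only [List.length_append, List.length_cons, List.length_map, rv_length]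
    omega
  have p3 : (l ++ γ1).length + 2 + (γ2 ++ s ++
      ((XX hg hgeo hι).rv γ2).map (actE z)).length + 1 = l.length + k + s.length + (k - j) := by
    simp only [List.length_append, List.length_map, rv_length]
    omega
  rw [p1] at k1
  rw [p2] at k2
  have k2' := wk_map (k := z⁻¹) k2
  rw [xinv_act, ii, actE_inv_act, actE_inv_act] at k2'
  have n1 : 2 ≤ (W (l.length + j)).length := by
    rw [← p1]; exact wk_two_le hD.bd _
  have n2 : 2 ≤ (W (l.length + k + s.length + (k - j))).length := by
    rw [← p2]; exact wk_two_le hD.bd _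
  have n3 : (W (l.length + j)).length ≠ 2 := wk_len k1 (Or.inr trivial) hnc
  have n4 : (W (l.length + k + s.length + (k - j))).length ≠ 2 := by
    have := wk_len k2' (Or.inr trivial) (fun h => hnc (by
      obtain ⟨c0, hc0⟩ := h
      exact ⟨_, (XX hg hgeo hι).tri_swap hc0⟩))
    rwa [List.length_map] at this
  rcases pair_ _ _ (XX hg hgeo hι) (hsysX hA) _ _ _ _ k1 k2' hne.symm (by omega)
    (by rw [List.length_map]; omega) with h8 | ⟨n, e1, e2⟩
  · rw [List.length_map] at h8
    unfold vl
    have : (8 : ℤ) ≤ (W (l.length + j)).length +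
        (W (l.length + k + s.length + (k - j))).length := by exact_mod_cast h8
    linarith
  · exfalso
    have e3 : W (l.length + k + s.length + (k - j)) = [actE z f, actE z n, actE z (xinv e)] := by
      have := congrArg (List.map (actE z)) e2
      rw [List.map_map] at this
      have hid : actE z ∘ actE z⁻¹ = id := by
        funext y; exact actE_act_inv z y
      rw [hid, List.map_id] at this
      exact this
    have c1 : (XX hg hgeo hι).Cor (xinv e) n ∧ (XX hg hgeo hι).Cor n f := by
      have := k1.1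
      rw [e1] at this
      simpa using this
    obtain ⟨⟨c0, hc0⟩, ⟨d0, hd0⟩⟩ := c1
    have t1 : (XX hg hgeo hι).Tri e (xinv c0) (xinv n) := by
      have := tri_flip hc0
      rwa [ii] at this
    have t2 : (XX hg hgeo hι).Tri f n (xinv d0) := (XX hg hgeo hι).tri_swap hd0
    have t3 : (XX hg hgeo hι).Tri (actE z (xinv f)) (actE z d0) (xinv (actE z n)) := by
      have h1 := tri_flip t2
      rw [ii] at h1
      rw [xinv_act]
      exact XT_act z h1
    have t4 : (XX hg hgeo hι).Tri (actE z (xinv e)) (actE z n) (actE z c0) := XT_act z hc0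
    have r1 : Rep (XX hg hgeo hι) e f (W ((l ++ γ1).length + 1)) [xinv c0, xinv d0] := by
      rw [p1]
      exact Rep.two (m := n) (by rw [e1]; rfl) t1 t2
    have r2 : Rep (XX hg hgeo hι) (actE z (xinv f)) (actE z (xinv e))
        (W ((l ++ γ1).length + 2 + (γ2 ++ s ++
          ((XX hg hgeo hι).rv γ2).map (actE z)).length + 1)) [actE z d0, actE z c0] := by
      rw [p3]
      refine Rep.two (m := actE z n) ?_ t3 t4
      rw [e3, xx_inv, xinv_act, ii]
    have key := site2 M hSC hD.bd hD.get hD.mask hcl hw' r1 r2 (by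
        by_cases hm : γ2 ++ s ++ ((XX hg hgeo hι).rv γ2).map (actE z) = []
        · right
          have h1 := dw_wk hD (l := l ++ γ1 ++ [e]) (b := f) (c := actE z (xinv f))
            (r := actE z (xinv e) :: (((XX hg hgeo hι).rv γ1).map (actE z) ++ r)) (by
            rw [hw', hm]; simp)
          rw [List.length_append, List.length_singleton] at h1
          rw [show (l ++ γ1).length + 2 = (l ++ γ1).length + 1 + 1 by ring]
          exact wk_len h1 (Or.inr trivial) (not_cor_act _ _)
        · exact Or.inl hm) (by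
        by_cases hlr : (l ++ γ1) ++ (((XX hg hgeo hι).rv γ1).map (actE z) ++ r) = []
        · right
          rw [List.append_eq_nil_iff] at hlr
          obtain ⟨hl0, hr0⟩ := hlr
          have h1 := wk_zero hD (e := e) (f := actE z (xinv e)) (v := f :: ((γ2 ++ s ++
            ((XX hg hgeo hι).rv γ2).map (actE z)) ++ [actE z (xinv f), actE z (xinv e)])) (by
              rw [hw', hl0, hr0]; simp) (by
              rw [hw', hl0, hr0, List.nil_append, List.getLast?_cons_cons, List.getLast?_cons]
              simp)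
          rw [xinv_act, ii] at h1
          exact wk_len h1 (Or.inr trivial) (not_cor_act' _ _)
        · exact Or.inl hlr)
    obtain ⟨y, hy, hp, hs⟩ := hL.lob.mid
    have hnew : IsLobe hg hgeo hι c z p k (γ1 ++ xinv c0 :: xinv d0 :: γ2) s := by
      refine ⟨?_, ⟨y, hy, ?_, hs⟩, hL.lob.rot⟩
      · rw [← hlen, hγ]; simp
      · rw [hγ] at hp
        obtain ⟨u, h1, h2⟩ := isP_append.1 hp
        refine isP_append.2 ⟨u, h1, ?_⟩
        have a1 := (XX hg hgeo hι).tri_src t1
        have a2 := (XX hg hgeo hι).tri_mid t1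
        have b2 := (XX hg hgeo hι).tri_mid t2
        have b3 := (XX hg hgeo hι).tri_tgt t2
        refine ⟨?_, ?_, ?_⟩
        · rw [a1]; exact h2.1
        · rw [b2]
          exact a2
        · have h5 := h2.2.2
          rw [show (XX hg hgeo hι).tgt (xinv d0) = (XX hg hgeo hι).tgt f from b3]
          exact h5
    have hmin := (hL.min _ _ hnew).1
    rw [← hw] at hmin
    have hnw : l ++ lobe hg hgeo hι z (γ1 ++ xinv c0 :: xinv d0 :: γ2) s ++ r =
        l ++ γ1 ++ [xinv c0, xinv d0] ++ (γ2 ++ s ++ ((XX hg hgeo hι).rv γ2).map (actE z)) ++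
          [actE z d0, actE z c0] ++ (((XX hg hgeo hι).rv γ1).map (actE z) ++ r) := by
      rw [lobe_split, ii, ii]
      simp only [List.append_assoc, List.cons_append, List.nil_append]
    rw [hnw] at hmin
    have := key.1
    simp only [List.length_cons, List.length_nil] at this
    omega

theorem lobe_tip (z : PP A B g) (γ0 : List (XE A B g)) (f : XE A B g) :
    lobe hg hgeo hι z (γ0 ++ [f]) [] =
      γ0 ++ f :: actE z (xinv f) :: ((XX hg hgeo hι).rv γ0).map (actE z) := by
  unfold lobe
  rw [rv_append, rv_cons, rv_nil]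
  simp only [List.append_assoc, List.cons_append, List.nil_append, List.map_append, List.map_cons,
    List.map_nil]
  rfl

/-- **TIP** -/
theorem tipL_ : TipLStmt hg hgeo hι := by
  intro hA M hSC c z p k l γ s r w a W I hw hcl hD hL hk hR hPl
  have hFix := fix_stmt (hg := hg) (hgeo := hgeo) (hι := hι) M hSC hA
  have hlen := hL.lob.len
  have hs : s = [] := hL.lob.rot hR
  subst hs
  have ii : ∀ y : XE A B g, xinv (xinv y) = y := fun y => (XX hg hgeo hι).inv_inv y
  obtain ⟨γ0, f, rfl⟩ : ∃ γ0 f, γ = γ0 ++ [f] := by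
    have hne : γ ≠ [] := by
      rintro rfl
      simp at hlen
      omega
    exact ⟨γ.dropLast, γ.getLast hne, (List.dropLast_append_getLast hne).symm⟩
  have hl0 : γ0.length + 1 = k := by simpa using hlen
  have hw' : w = (l ++ γ0) ++ f :: actE z (xinv f) ::
      (((XX hg hgeo hι).rv γ0).map (actE z) ++ r) := by
    rw [hw, lobe_tip]
    simp only [List.append_assoc, List.cons_append]
  have k1 := dw_wk hD hw'
  have p1 : (l ++ γ0).length + 1 = l.length + k := by
    rw [List.length_append]; omega
  rw [p1] at k1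
  have n1 : 2 ≤ (W (l.length + k)).length := by
    rw [← p1]; exact wk_two_le hD.bd _
  have n2 : (W (l.length + k)).length ≠ 2 := wk_len k1 (Or.inr trivial) (not_cor_act _ _)
  refine ⟨γ0, f, rfl, k1, by omega, ?_⟩
  intro h3
  obtain ⟨n, e1, c1, c2⟩ := wk_three k1 h3
  obtain ⟨y, hy, hp, hside⟩ := hL.lob.mid
  obtain ⟨u, hp1, hp2⟩ := isP_append.1 hp
  have hfy : xsrc (xinv f) = y := hp2.2
  have hfu : xsrc f = u := hp2.1
  have hzy : z • y = y := ((hFix c z hL.ne hL.stab).1 hR y).2 hy
  have hcf : car f ≠ c := by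
    intro h
    have h1 : On c u := by
      rw [← hfu, ← h]; exact On_src f
    have h2 := dVC_path (hg := hg) (hgeo := hgeo) (hι := hι) h1 hp1
    have h4 := hL.dist
    omega
  obtain ⟨q, α, hα, hα1, hyq, hcq, hzq⟩ := Exc.rot_form hFix hL.ne hL.stab hR hPl hzy
  have hnsrc : xsrc n = y := by
    obtain ⟨c0, hc0⟩ := c1
    have := (XX hg hgeo hι).tri_src hc0
    rw [← hfy]
    exact this
  have hnc : car n ≠ c := by
    intro hcn
    -- the rotation fixes `n`
    have hzn : actE z n = n := by
      obtain ⟨m, rfl⟩ := (InF_iff_car hι (q := q) (by rw [hnsrc, hyq])).2 (by rw [hcn, hcq])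
      rw [actE_eA, hzq, inv_mul_cancel_right, eq_comm, eA_eq]
      exact ⟨rfl, α, hα, rfl⟩
    obtain ⟨c0, hc0⟩ := c1
    have t1 : (XX hg hgeo hι).Tri f (xinv c0) (xinv n) := by
      have := tri_flip hc0
      rwa [ii] at this
    have t2 : (XX hg hgeo hι).Tri (actE z (xinv f)) n (actE z c0) := by
      have : XT (actE z (xinv f)) (actE z n) (actE z c0) := XT_act z hc0
      rw [hzn] at this
      exact this
    have r1 : Rep (XX hg hgeo hι) f (actE z (xinv f)) (W ((l ++ γ0).length + 1))
        [xinv c0, actE z c0] := by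
      rw [p1]
      exact Rep.two (m := n) (by rw [e1]; rfl) t1 t2
    have key := site1 M hSC hD.bd hD.get hD.mask hcl hw' r1 (by
        by_cases hlr : (l ++ γ0) ++ (((XX hg hgeo hι).rv γ0).map (actE z) ++ r) = []
        · right
          rw [List.append_eq_nil_iff] at hlr
          obtain ⟨hl0, hr0⟩ := hlr
          have h1 := wk_zero hD (e := f) (f := actE z (xinv f)) (v := [actE z (xinv f)]) (by
              rw [hw', hl0, hr0]; simp) (by
              rw [hw', hl0, hr0]
              simp)
          rw [xinv_act, ii] at h1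
          exact wk_len h1 (Or.inr trivial) (not_cor_act' _ _)
        · exact Or.inl hlr)
    have a2 := (XX hg hgeo hι).tri_mid t1
    have hny : On c (xsrc (xinv n)) := by
      rw [← hcn]; exact On_tgt n
    have hfn : z • xsrc (xinv n) = xsrc (xinv n) := ((hFix c z hL.ne hL.stab).1 hR _).2 hny
    have hnew : IsLobe hg hgeo hι c z p k (γ0 ++ [xinv c0]) [] := by
      refine ⟨by simpa using hl0, ⟨xsrc (xinv n), hny, ?_, ?_⟩, fun _ => rfl⟩
      · refine isP_append.2 ⟨u, hp1, ?_, ?_⟩
        · have a1 := (XX hg hgeo hι).tri_src t1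
          rw [a1]; exact hfu
        · exact a2.symm
      · rw [hfn]
        exact ⟨rfl, by simp⟩
    have hmin := (hL.min _ _ hnew).1
    rw [← hw] at hmin
    have hnw : l ++ lobe hg hgeo hι z (γ0 ++ [xinv c0]) [] ++ r =
        l ++ γ0 ++ [xinv c0, actE z c0] ++ (((XX hg hgeo hι).rv γ0).map (actE z) ++ r) := by
      rw [lobe_tip, ii]
      simp only [List.append_assoc, List.cons_append, List.nil_append]
    rw [hnw] at hmin
    have := key.1
    simp only [List.length_cons, List.length_nil] at this
    omega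
  have tp := (tip_ G A B g hg hgeo hι).2 q α hα hα1 (xinv f) n (by rw [hfy, hyq])
    (by rw [car_inv, ← hcq]; exact hcf) (by rw [← hcq]; exact hnc) c1 (by rw [← hzq]; exact c2)
  rw [← hzq] at tp
  exact ⟨n, e1, hnc, by rw [e1]; exact tp.1, tp.2⟩

end Pool.Agent.ABA.B.H70L
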