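import Pool.Agent.Helper70_ABA.OSel
import Pool.Agent.Helper83_ABA.PresThm

/-! # Injectivity: a nontrivial element of G survives in almost all new groups -/

open Equiv Equiv.Perm H17ABA

namespace Pool.Agent.ABA

/-- INJ -/
def InjStmt : Prop :=
  ∀ (R : Set (Wd ℤ)) (g : Wd ℤ), R.Finite →
    (∀ r ∈ R, (r.map Prod.snd).sum = 0) →
    Geo (αP ℤ R true).range (αP ℤ R false).range →
    ¬ IsABA (αP ℤ R true).range (αP ℤ R false).range (ev (αP ℤ R) g) →
    LF R → ∀ w : Wd ℤ, ev (αP ℤ R) w ≠ 1 →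
      ∃ x₀ : ℤ, ∀ x y z : ℤ, x₀ ≤ x → 4 * x ≤ z → x ≤ |y| →
        x + y + z = (g.map Prod.snd).sum → ev (αP ℤ (Rnew R g id x y z)) w ≠ 1

namespace LFS

theorem arithI {x N b q W G B lw K T : ℤ} (hx : 0 < x) (hN : 1 ≤ N) (hB : 0 ≤ B) (hW : 0 ≤ W)
    (hK : 0 ≤ K) (hlw : 0 ≤ lw)
    (h0 : N ≤ 401 * b)
    (h1 : x * b ≤ W + N * G + q * B) (h2 : q ≤ K * (lw + N * T))
    (hx0 : 401 * (W + G + K * (lw + T) * B) < x) : False := by
  have h3 : q * B ≤ K * (lw + N * T) * B := mul_le_mul_of_nonneg_right h2 hB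
  have h4 : x * N ≤ x * (401 * b) := mul_le_mul_of_nonneg_left h0 hx.le
  have h5 : W ≤ N * W := le_mul_of_one_le_left hW hN
  have h6 : K * lw * B ≤ N * (K * lw * B) := le_mul_of_one_le_left (by positivity) hN
  have h7 : N * (401 * (W + G + K * (lw + T) * B)) < N * x := mul_lt_mul_of_pos_left hx0 (by linarith)
  nlinarith

theorem injStmt : InjStmt := by
  intro R g hfin h0 hG hg ⟨K, hK⟩ w hw
  obtain ⟨B, hB0, hB⟩ := exists_bound hfin
  refine ⟨401 * (nrm w + nrm g + K * (w.length + (g.length + 3)) * B) + 1, ?_⟩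
  intro x y z hx0 hz hy hxyz hev
  have hg0 := nrm_nonneg g
  have hw0 := nrm_nonneg w
  have hx : 0 < x := by
    have : (0 : ℤ) ≤ K * (w.length + (g.length + 3)) * B := by positivity
    linarith
  have hwne : w ≠ [] := by
    rintro rfl
    exact hw rfl
  obtain ⟨Q, hQ, hC⟩ := ((presStmt ℤ (Rnew R g id x y z)).2 w).1 hev
  classical
  have hex := to_PN Q [w] hQ hC
  have hmin : ∀ m, m < Nat.find hex → ¬ PN g x y z R [w] m := fun m hm => Nat.find_min hex hm
  obtain ⟨QT, QR0, hN, hQT, hQR0, hC0⟩ := Nat.find_spec hex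
  set N := Nat.find hex with hNdef
  -- N is positive
  have hNpos : 1 ≤ N := by
    by_contra hcon
    have hN0 : N = 0 := by omega
    rw [hN0, List.length_eq_zero_iff] at hN
    subst hN
    exact hw (((presStmt ℤ R).2 w).2 ⟨QR0, hQR0, hC0⟩)
  have hne : ∀ v ∈ [w] ++ QT, v ≠ [] := by
    intro v hv
    rw [List.mem_append, List.mem_singleton] at hv
    rcases hv with rfl | hv
    · exact hwne
    · rcases hQT v hv with rfl | rfl <;> simp [Tp, Tm]
  obtain ⟨QR, hQR, hlen, hC1⟩ := hK ([w] ++ QT) hne QR0 hQR0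
    (by rw [List.append_assoc]; exact hC0)
  rw [List.append_assoc] at hC1
  have hTlen : ∀ l : List (Wd ℤ), (∀ q ∈ l, q = Tp g x y z ∨ q = Tm g x y z) →
      (l.map List.length).sum = l.length * (g.length + 3) := by
    intro l
    induction l with
    | nil => simp
    | cons q l ih =>
      intro hl
      have h1 := ih (fun r hr => hl r (List.mem_cons_of_mem _ hr))
      have h2 : q.length = g.length + 3 := by
        rcases hl q List.mem_cons_self with rfl | rfl <;> simp [Tp, Tm]
      rw [List.map_cons, List.sum_cons, h1, h2, List.length_cons]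
      ring
  rw [List.map_append, List.sum_append, hTlen QT hQT, hN] at hlen
  simp only [List.map_cons, List.map_nil, List.sum_cons, List.sum_nil, add_zero] at hlen
  obtain ⟨Ω, i1, i2, fs, D, hfs⟩ := hC1
  obtain ⟨fsF, fs', rfl, hF1, hfs'⟩ := List.map_eq_append_iff.1 hfs.symm
  obtain ⟨fsT, fsR, rfl, hT1, hR1⟩ := List.map_eq_append_iff.1 hfs'
  obtain ⟨d0, fsF', rfl, hd0, hF'⟩ := List.map_eq_cons_iff.1 hF1
  have hF'' : fsF' = [] := List.map_eq_nil_iff.1 hF'
  subst hF''
  have hd0ne : d0 ≠ [] := by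
    rintro rfl
    exact hwne hd0.symm
  obtain ⟨o₀, ho₀⟩ := List.exists_mem_of_ne_nil d0 hd0ne
  have hT : TF g x y z D.lab fsT := by
    intro c hc
    refine hQT _ ?_
    rw [← hT1]
    exact List.mem_map.2 ⟨c, hc, rfl⟩
  have hRr : ∀ d ∈ fsR, Rel R (d.map D.lab) := by
    intro d hd
    refine hQR _ ?_
    rw [← hR1]
    exact List.mem_map.2 ⟨d, hd, rfl⟩
  have hR : ∀ d ∈ fsR, ev (αP ℤ R) (d.map D.lab) = 1 := fun d hd => ev_αP_of_rel (hRr d hd)
  have hTN : fsT.length = N := by
    rw [← hN, ← hT1, List.length_map]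
  obtain ⟨b, hb1, hb2⟩ := main_countO (O := {o₀}) (αP ℤ R) (αP_injective70 h0) hG hg hx hz hy D hT
    (by
      rintro o rfl
      simpa using ho₀)
    (by
      intro d hd _
      rw [List.mem_singleton] at hd
      subst hd
      exact ⟨o₀, ho₀, rfl⟩)
    hR ⟨o₀, Or.inl rfl⟩ (by
      intro w n c i c' i' hw hret hw' hkk hsum
      obtain ⟨fsT', hl, hsub, D', hD'⟩ := cancelO_T D hT hw hret hw' hkk hsum
      refine hmin fsT'.length (by omega) ⟨fsT'.map (fun c => c.map D.lab),
        fsR.map (fun c => c.map D.lab), by simp, ?_, ?_, ?_⟩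
      · intro q hq
        obtain ⟨c, hc, rfl⟩ := List.mem_map.1 hq
        exact hT c (hsub c hc)
      · intro q hq
        obtain ⟨c, hc, rfl⟩ := List.mem_map.1 hq
        exact hRr c hc
      · refine ⟨Ω, i1, i2, [d0] ++ (fsT' ++ fsR), D', ?_⟩
        rw [← hF1, ← List.map_append, ← List.map_append]
        refine List.map_congr_left (fun c hc => ?_)
        refine List.map_congr_left (fun v hv => ?_)
        exact (hD' v (List.mem_flatten.2 ⟨c, hc, hv⟩)).symm)
  have hcard : Nat.card ({o₀} : Set Ω) = 1 := by simp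
  rw [hcard, hTN] at hb1
  have hqB : (fsR.map (fun c => nrm (c.map D.lab))).sum ≤ QR.length * B := by
    have h1 := sum_le_of_forall (fsR.map (fun c => nrm (c.map D.lab))) B (by
      intro a ha
      obtain ⟨c, hc, rfl⟩ := List.mem_map.1 ha
      exact hB _ (hRr c hc))
    rw [List.length_map] at h1
    rw [← hR1, List.length_map]
    exact h1
  rw [hTN] at hb2
  simp only [List.map_cons, List.map_nil, List.sum_cons, List.sum_nil, add_zero, hd0] at hb2
  have h2 : (QR.length : ℤ) ≤ K * (w.length + N * (g.length + 3)) := by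
    exact_mod_cast hlen
  have h3 : (N : ℤ) ≤ 401 * b := by
    have : N ≤ 401 * b := by omega
    exact_mod_cast this
  exact arithI (x := x) (N := N) (b := b) (q := QR.length) (W := nrm w) (G := nrm g) (B := B)
    (lw := w.length) (K := K) (T := (g.length : ℤ) + 3) hx (by exact_mod_cast hNpos) hB0 hw0
    (by positivity) (by positivity) h3 (by linarith) h2 (by linarith)

end LFS

end Pool.Agent.ABA
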