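import Pool.Agent.Helper70_ABA.Final

/-! # LFnewStmt -/

open Equiv Equiv.Perm H17ABA

namespace Pool.Agent.ABA

theorem ev_comp70 {L : Type} [AddCommGroup L] {Γ Δ : Type} [Group Γ] [Group Δ]
    (α : Bool → Multiplicative L →* Γ) (f : Γ →* Δ) (w : Wd L) :
    ev (fun t => f.comp (α t)) w = f (ev α w) := by
  induction w with
  | nil => simp
  | cons s w ih =>
    rw [ev_cons, ev_cons, map_mul, ih]
    rfl

theorem ev_αP70 {L : Type} [AddCommGroup L] (R : Set (Wd L)) (w : Wd L) :
    ev (αP L R) w = QuotientGroup.mk' (Subgroup.normalClosure (ev (αF L) '' R)) (ev (αF L) w) :=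
  ev_comp70 (αF L) _ w

theorem ev_αP_of_mem {L : Type} [AddCommGroup L] {R : Set (Wd L)} {r : Wd L} (h : r ∈ R) :
    ev (αP L R) r = 1 := by
  rw [ev_αP70]
  exact (QuotientGroup.eq_one_iff _).2 (Subgroup.subset_normalClosure ⟨r, h, rfl⟩)

theorem ev_αP_of_rel {L : Type} [AddCommGroup L] {R : Set (Wd L)} {r : Wd L} (h : Rel R r) :
    ev (αP L R) r = 1 := by
  rcases h with h | h
  · exact ev_αP_of_mem h
  · have := ev_αP_of_mem h
    rw [ev_winv, inv_eq_one] at this
    exact this

/-- exponent sum -/
def expo (L : Type) [AddCommGroup L] : FP L →* Multiplicative L :=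
  Monoid.CoprodI.lift (fun _ : Bool => MonoidHom.id (Multiplicative L))

theorem expo_αF (L : Type) [AddCommGroup L] (t : Bool) (k : Multiplicative L) :
    expo L (αF L t k) = k := by
  unfold expo αF
  rw [Monoid.CoprodI.lift_of]
  rfl

theorem expo_ev (L : Type) [AddCommGroup L] (w : Wd L) :
    expo L (ev (αF L) w) = Multiplicative.ofAdd (w.map Prod.snd).sum := by
  induction w with
  | nil => simp
  | cons s w ih =>
    rw [ev_cons, map_mul, ih, List.map_cons, List.sum_cons, ofAdd_add]
    congr 1

theorem αP_injective70 {L : Type} [AddCommGroup L] {R : Set (Wd L)}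
    (h0 : ∀ r ∈ R, (r.map Prod.snd).sum = 0) (t : Bool) : Function.Injective (αP L R t) := by
  have hker : Subgroup.normalClosure (ev (αF L) '' R) ≤ (expo L).ker := by
    refine Subgroup.normalClosure_le_normal ?_
    rintro _ ⟨r, hr, rfl⟩
    change expo L _ = 1
    rw [expo_ev, h0 r hr, ofAdd_zero]
  let φ : PG L R →* Multiplicative L := QuotientGroup.lift _ (expo L) hker
  have h1 : ∀ k, φ (αP L R t k) = k := by
    intro k
    change expo L (αF L t k) = k
    exact expo_αF L t k
  intro a b hab
  rw [← h1 a, ← h1 b, hab]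

namespace LFS

theorem exists_bound {R : Set (Wd ℤ)} (hR : R.Finite) :
    ∃ B : ℤ, 0 ≤ B ∧ ∀ q, Rel R q → nrm q ≤ B := by
  obtain ⟨B, hB⟩ := (hR.image nrm).bddAbove
  refine ⟨max B 0, le_max_right _ _, ?_⟩
  rintro q (h | h)
  · exact (hB ⟨q, h, rfl⟩).trans (le_max_left _ _)
  · have := (hB ⟨_, h, rfl⟩).trans (le_max_left B 0)
    rwa [nrm_winv] at this

theorem sum_le_of_forall (L : List ℤ) (B : ℤ) (h : ∀ a ∈ L, a ≤ B) : L.sum ≤ L.length * B := by
  induction L with
  | nil => simp
  | cons a L ih =>
    have h1 := h a List.mem_cons_self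
    have h2 := ih (fun b hb => h b (List.mem_cons_of_mem _ hb))
    rw [List.sum_cons, List.length_cons]
    push_cast
    linarith

theorem arith {x N L q G B : ℤ} {K T : ℤ} (hx : 0 < x) (hN : 0 ≤ N) (hL : 0 ≤ L) (hB : 0 ≤ B)
    (h1 : x * N ≤ 804 * x * L + 401 * (N * G + q * B)) (h2 : q ≤ K * (L + N * T))
    (hx0 : 802 * (G + K * T * B) ≤ x) (hx1 : 802 * (K * B) ≤ x) : N ≤ 1609 * L := by
  have h3 : q * B ≤ K * (L + N * T) * B := mul_le_mul_of_nonneg_right h2 hB
  have h4 : N * (802 * (G + K * T * B)) ≤ N * x := mul_le_mul_of_nonneg_left hx0 hN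
  have h5 : L * (802 * (K * B)) ≤ L * x := mul_le_mul_of_nonneg_left hx1 hL
  have h6 : x * N ≤ x * (1609 * L) := by nlinarith
  exact le_of_mul_le_mul_left h6 hx

theorem lfnew : LFnewStmt := by
  intro R g hfin h0 hG hg ⟨K, hK⟩
  obtain ⟨B, hB0, hB⟩ := exists_bound hfin
  refine ⟨1609 + K * (1 + (g.length + 3) * 1609),
    802 * (nrm g + K * (g.length + 3) * B) + 802 * (K * B) + 1, ?_⟩
  intro x y z hx0 hz hy hxyz F hF Q hQ hC
  have hg0 := nrm_nonneg g
  have hx : 0 < x := by
    have : (0 : ℤ) ≤ K * (g.length + 3) * B := by positivity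
    have : (0 : ℤ) ≤ K * B := by positivity
    linarith
  have hxa : 802 * (nrm g + K * (g.length + 3) * B) ≤ x := by
    have : (0 : ℤ) ≤ K * B := by positivity
    linarith
  have hxb : 802 * (K * B) ≤ x := by
    have : (0 : ℤ) ≤ K * (g.length + 3) * B := by positivity
    linarith
  classical
  have hex := to_PN Q F hQ hC
  have hmin : ∀ m, m < Nat.find hex → ¬ PN g x y z R F m := fun m hm => Nat.find_min hex hm
  obtain ⟨QT, QR0, hN, hQT, hQR0, hC0⟩ := Nat.find_spec hex
  set N := Nat.find hex with hNdef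
  -- bound the number of old relators
  have hne : ∀ w ∈ F ++ QT, w ≠ [] := by
    intro w hw
    rw [List.mem_append] at hw
    rcases hw with hw | hw
    · exact hF w hw
    · rcases hQT w hw with rfl | rfl <;> simp [Tp, Tm]
  obtain ⟨QR, hQR, hlen, hC1⟩ := hK (F ++ QT) hne QR0 hQR0 (by rw [List.append_assoc]; exact hC0)
  rw [List.append_assoc] at hC1
  have hTlen : ∀ l : List (Wd ℤ), (∀ q ∈ l, q = Tp g x y z ∨ q = Tm g x y z) →
      (l.map List.length).sum = l.length * (g.length + 3) := by
    intro l
    induction l with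
    | nil => simp
    | cons q l ih =>
      intro hl
      have h1 := ih (fun r hr => hl r (List.mem_cons_of_mem _ hr))
      have h2 : q.length = g.length + 3 := by
        rcases hl q List.mem_cons_self with rfl | rfl <;> simp [Tp, Tm]
      rw [List.map_cons, List.sum_cons, h1, h2, List.length_cons]
      ring
  rw [List.map_append, List.sum_append, hTlen QT hQT, hN] at hlen
  -- the certificate
  have key : N ≤ 1609 * (F.map List.length).sum := by
    obtain ⟨Ω, i1, i2, fs, D, hfs⟩ := hC1
    obtain ⟨fsF, fs', rfl, hF1, hfs'⟩ := List.map_eq_append_iff.1 hfs.symm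
    obtain ⟨fsT, fsR, rfl, hT1, hR1⟩ := List.map_eq_append_iff.1 hfs'
    have hT : TF g x y z D.lab fsT := by
      intro c hc
      refine hQT _ ?_
      rw [← hT1]
      exact List.mem_map.2 ⟨c, hc, rfl⟩
    have hRr : ∀ d ∈ fsR, Rel R (d.map D.lab) := by
      intro d hd
      refine hQR _ ?_
      rw [← hR1]
      exact List.mem_map.2 ⟨d, hd, rfl⟩
    have hR : ∀ d ∈ fsR, ev (αP ℤ R) (d.map D.lab) = 1 := fun d hd => ev_αP_of_rel (hRr d hd)
    have hTN : fsT.length = N := by
      rw [← hN, ← hT1, List.length_map]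
    have hcount := main_count (αP ℤ R) (αP_injective70 h0) hG hg hx hz hy D hT hR (by
      intro w n c i c' i' hw hret hw' hkk hsum
      obtain ⟨fsT', hl, hsub, D', hD'⟩ := cancel_T D hT hw hret hw' hkk hsum
      refine hmin fsT'.length (by omega) ⟨fsT'.map (fun c => c.map D.lab),
        fsR.map (fun c => c.map D.lab), by simp, ?_, ?_, ?_⟩
      · intro q hq
        obtain ⟨c, hc, rfl⟩ := List.mem_map.1 hq
        exact hT c (hsub c hc)
      · intro q hq
        obtain ⟨c, hc, rfl⟩ := List.mem_map.1 hq
        exact hRr c hc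
      · refine ⟨Ω, i1, i2, fsF ++ (fsT' ++ fsR), D', ?_⟩
        rw [← hF1, ← List.map_append, ← List.map_append]
        refine List.map_congr_left (fun c hc => ?_)
        refine List.map_congr_left (fun v hv => ?_)
        exact (hD' v (List.mem_flatten.2 ⟨c, hc, hv⟩)).symm)
    have hLF : fsF.flatten.length = (F.map List.length).sum := by
      rw [← hF1, List.map_map, List.length_flatten]
      congr 1
      refine List.map_congr_left (fun c _ => ?_)
      simp
    have hqB : (fsR.map (fun c => nrm (c.map D.lab))).sum ≤ QR.length * B := by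
      have h1 := sum_le_of_forall (fsR.map (fun c => nrm (c.map D.lab))) B (by
        intro a ha
        obtain ⟨c, hc, rfl⟩ := List.mem_map.1 ha
        exact hB _ (hRr c hc))
      rw [List.length_map] at h1
      rw [← hR1, List.length_map]
      exact h1
    rw [hTN, hLF] at hcount
    have h2 : (QR.length : ℤ) ≤ K * ((F.map List.length).sum + N * (g.length + 3)) := by
      exact_mod_cast hlen
    have h3 := arith (x := x) (N := N) (L := (F.map List.length).sum) (q := QR.length)
      (G := nrm g) (B := B) (K := K) (T := (g.length : ℤ) + 3) hx (by positivity) (by positivity)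
      hB0 (by linarith) h2 hxa hxb
    exact_mod_cast h3
  -- back
  have hC2 : Cert ((QR ++ F) ++ QT) := by
    refine hC1.perm ?_
    have e : (F ++ (QT ++ QR)).Perm ((F ++ QT) ++ QR) := by rw [List.append_assoc]
    refine e.trans (List.perm_append_comm.trans ?_)
    rw [List.append_assoc]
  obtain ⟨Q', hl, hR', hC3⟩ := from_PN (R := R) QT (QR ++ F) hQT hC2
  refine ⟨Q' ++ QR, ?_, ?_, ?_⟩
  · intro q hq
    rw [List.mem_append] at hq
    rcases hq with hq | hq
    · exact hR' q hq
    · exact Rel.of_old (hQR q hq)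
  · rw [List.length_append, hl, hN]
    have h1 : K * ((F.map List.length).sum + N * (g.length + 3)) ≤
        K * ((F.map List.length).sum + 1609 * (F.map List.length).sum * (g.length + 3)) :=
      Nat.mul_le_mul_left _ (Nat.add_le_add_left (Nat.mul_le_mul_right _ key) _)
    calc N + QR.length ≤ 1609 * (F.map List.length).sum +
          K * ((F.map List.length).sum + 1609 * (F.map List.length).sum * (g.length + 3)) :=
          Nat.add_le_add key (hlen.trans h1)
      _ = _ := by ring
  · refine hC3.perm ?_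
    rw [List.append_assoc]
    refine List.perm_append_comm.trans ?_
    rw [List.append_assoc]

end LFS

end Pool.Agent.ABA
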