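import Pool.Agent.Helper70_ABA.Lobe70
import Pool.Agent.Helper17_ABA.Lobe2

/-!
# Lobes: INT, the sum of the values strictly inside a lobe (MP_d857f1_al, part B, module LOBE)
-/

set_option autoImplicit false

namespace Pool.Agent.ABA.B.H70L

open Knd Pool.Agent.ABA Pool.Agent.ABA.B Pool.Agent.ABA.B.TG Pool.Agent.ABA.B.H17
  Pool.Agent.ABA.B.H49 Pool.Agent.ABA.B.H50

/-- splitting the sum over the inside of a lobe -/
theorem sum_lobe (f : ℕ → ℤ) (L k s : ℕ) (hk : 1 ≤ k) :
    ∑ i ∈ Finset.Ico (L + 1) (L + (k + s + k)), f i =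
      ∑ j ∈ Finset.Ico 1 k, (f (L + j) + f (L + k + s + (k - j))) +
        ∑ i ∈ Finset.range (s + 1), f (L + k + i) := by
  have h1 : ∑ i ∈ Finset.Ico (L + 1) (L + k), f i = ∑ j ∈ Finset.Ico 1 k, f (L + j) := by
    rw [Finset.sum_Ico_add f 1 k L, add_comm 1 L, add_comm k L]
  have h2 : ∑ i ∈ Finset.Ico (L + k) (L + k + s + 1), f i =
      ∑ i ∈ Finset.range (s + 1), f (L + k + i) := by
    rw [Finset.sum_Ico_eq_sum_range]
    congr 2
    omega
  have h3 : ∑ i ∈ Finset.Ico (L + k + s + 1) (L + (k + s + k)), f i =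
      ∑ j ∈ Finset.Ico 1 k, f (L + k + s + (k - j)) := by
    have h4 := Finset.sum_Ico_reflect f 1 (m := k) (n := L + (k + s + k)) (by omega)
    rw [show L + (k + s + k) + 1 - k = L + k + s + 1 by omega,
      show L + (k + s + k) + 1 - 1 = L + (k + s + k) by omega] at h4
    rw [← h4]
    refine Finset.sum_congr rfl (fun j hj => ?_)
    rw [Finset.mem_Ico] at hj
    congr 1
    omega
  rw [← Finset.sum_Ico_consecutive f (m := L + 1) (n := L + k) (k := L + (k + s + k)) (by omega)
    (by omega), ← Finset.sum_Ico_consecutive f (m := L + k) (n := L + k + s + 1)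
    (k := L + (k + s + k)) (by omega) (by omega), h1, h2, h3, Finset.sum_add_distrib]
  ring

variable {G : Type} [Group G] {A B : Subgroup G} {g : G}
variable {hg : ¬ IsABA A B g} {hgeo : Geo A B} {hι : Function.Injective (Pι A B g)}

theorem lobe_len (z : PP A B g) (γ s : List (XE A B g)) :
    (lobe hg hgeo hι z γ s).length = γ.length + s.length + γ.length := by
  simp [lobe, TG.rv]
  omega

theorem intL_of (hEnd : EndLStmt hg hgeo hι) : IntLStmt hg hgeo hι := by
  intro hA M hSC c z p k l γ s r w a W I hw hcl hD hL hk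
  have hP := pairL_ hA M hSC c z p k l γ s r w a W I hw hcl hD hL
  obtain ⟨E1, E2, E3, E4⟩ := hEnd hA M hSC c z p k l γ s r w a W I hw hcl hD hL hk
  have hlen := hL.lob.len
  have hsum : vsum W l.length (l.length + (lobe hg hgeo hι z γ s).length) ≤
      ∑ i ∈ Finset.range (s.length + 1), vl W (l.length + k + i) := by
    unfold vsum
    rw [lobe_len, hlen, sum_lobe (vl W) l.length k s.length hk]
    have h1 : ∑ j ∈ Finset.Ico 1 k, (vl W (l.length + j) +
        vl W (l.length + k + s.length + (k - j))) ≤ 0 := by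
      refine Finset.sum_nonpos (fun j hj => ?_)
      rw [Finset.mem_Ico] at hj
      exact hP j (by omega) hj.2
    linarith
  refine ⟨?_, ?_, ?_, ?_⟩
  · intro hR
    have hs : s = [] := hL.lob.rot hR
    have h1 := E1 hR
    subst hs
    refine hsum.trans ?_
    simpa using h1
  · exact fun h1 h2 => hsum.trans (E2 h1 h2)
  · exact fun h1 h2 h3 => hsum.trans (E3 h1 h2 h3)
  · exact fun h1 h2 h3 => hsum.trans (E4 h1 h2 h3)

theorem intL_ : IntLStmt hg hgeo hι := intL_of end_

end Pool.Agent.ABA.B.H70L
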