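import Pool.Agent.Helper70_ABA.SumMain

/-! # Bad lines carry large passes -/

open Equiv Equiv.Perm H17ABA

namespace Pool.Agent.ABA

open Kind

/-- label of a side -/
def Kind.lbl (x y z : ℤ) : Kind → ℤ
  | al => x | be => y | ga => z | al' => -x | be' => -y | ga' => -z | out _ => 0

theorem clsSum_range {Ω L : Type} [Fintype Ω] [AddCommGroup L] (π : Perm Ω) (f : Ω → L)
    (w : Ω) : clsSum (cs π) f w =
      ∑ j ∈ Finset.range (Function.minimalPeriod π w), f ((π ^ j) w) := by
  rw [← cycSum_eq, cycSum_range]

theorem clsSum_one_card {S : Type} [Fintype S] (r : Setoid S) (w : S) :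
    clsSum r (fun _ => (1 : ℤ)) w = Nat.card {v // r w v} := by
  classical
  unfold clsSum
  rw [Nat.card_eq_fintype_card, Fintype.card_subtype]
  simp

theorem card_cls {S : Type} [Fintype S] (π : Perm S) (w : S) :
    Nat.card {v // (cs π) w v} = Function.minimalPeriod π w := by
  have h := clsSum_one_card (cs π) w
  rw [clsSum_range] at h
  simp only [Finset.sum_const, Finset.card_range, nsmul_eq_mul, mul_one] at h
  exact_mod_cast h.symm

theorem abs_clsSum_le {S : Type} [Fintype S] (r : Setoid S) (f : S → ℤ) (w : S) :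
    |clsSum r f w| ≤ clsSum r (fun v => |f v|) w := by
  unfold clsSum
  exact Finset.abs_sum_le_sum_abs _ _

theorem clsSum_add {S : Type} [Fintype S] (r : Setoid S) (f g : S → ℤ) (w : S) :
    clsSum r (fun v => f v + g v) w = clsSum r f w + clsSum r g w := by
  unfold clsSum
  exact Finset.sum_add_distrib

theorem lbl_one {x y z : ℤ} (hx : 0 < x) (hz : 4 * x ≤ z) {a : Kind}
    (ha : a.isOut = false) (ta : a.ty = true) : x ≤ |a.lbl x y z| := by
  rw [le_abs]
  cases a <;> simp_all [isOut, ty, lbl] <;> omega

theorem lbl_two {x y z : ℤ} (hx : 0 < x) (hz : 4 * x ≤ z) {a b : Kind}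
    (ha : a.isOut = false) (ta : a.ty = true) (hb : b.isOut = false) (tb : b.ty = true)
    (hab : b ≠ a.inv) : x ≤ |a.lbl x y z + b.lbl x y z| := by
  rw [le_abs]
  cases a <;> cases b <;> simp_all [isOut, ty, lbl, inv] <;> omega

theorem lbl_three {x y z : ℤ} (hx : 0 < x) (hz : 4 * x ≤ z) {a b c : Kind}
    (ha : a.isOut = false) (ta : a.ty = true) (hb : b.isOut = false) (tb : b.ty = true)
    (hc : c.isOut = false) (tc : c.ty = true) :
    x ≤ |a.lbl x y z + b.lbl x y z + c.lbl x y z| := by
  rw [le_abs]
  cases a <;> cases b <;> cases c <;> simp_all [isOut, ty, lbl] <;> omega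

theorem lbl_B {x y z : ℤ} (hy : x ≤ |y|) {a : Kind}
    (ha : a.isOut = false) (ta : a.ty = false) : x ≤ |a.lbl x y z| := by
  cases a <;> simp_all [isOut, ty, lbl]

namespace CD

variable {Γ : Type} [Group Γ] {α : Bool → Multiplicative ℤ →* Γ} {g : Γ} {S : Type} [Fintype S]

theorem ty_const (C : CD α g S) {w v : S} (h : (cs C.l) w v) : (C.kind v).ty = (C.kind w).ty := by
  refine const_of_step C.l (fun v => (C.kind v).ty) w ?_ v h
  intro v _ hv
  change (C.kind (C.l v)).ty = _
  rw [C.line]
  exact hv

/-- on a bad line the labels have a large sum -/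
theorem bad_large (C : CD α g S) {x y z : ℤ} (hx : 0 < x) (hz : 4 * x ≤ z) (hy : x ≤ |y|)
    (val : S → ℤ) (hval : ∀ w, (C.kind w).isOut = false → val w = (C.kind w).lbl x y z)
    {w : S} (hb : C.bad w) : x ≤ |clsSum (cs C.l) val w| := by
  obtain ⟨hpure, hb⟩ := hb
  have hpos : 0 < Function.minimalPeriod C.l w := by
    refine Function.minimalPeriod_pos_of_mem_periodicPts ?_
    exact Function.Injective.mem_periodicPts C.l.injective w
  rcases hb with ⟨ht, hcard, hpair⟩ | ⟨ht, hall⟩
  · have hl1 := cs_apply C.l w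
    have hl2 := (cs C.l).trans' hl1 (cs_apply C.l (C.l w))
    have t1 := C.ty_const hl1
    have t2 := C.ty_const hl2
    rw [ht] at t1 t2
    have p0 := hpure w ((cs C.l).refl' w)
    have p1 := hpure _ hl1
    have p2 := hpure _ hl2
    rw [card_cls] at hcard hpair
    rw [clsSum_range]
    have hcases : Function.minimalPeriod C.l w = 1 ∨ Function.minimalPeriod C.l w = 2 ∨
      Function.minimalPeriod C.l w = 3 := by omega
    rcases hcases with h | h | h
    · rw [h]
      simp only [Finset.sum_range_succ, Finset.sum_range_zero, zero_add, pow_zero, Perm.one_apply]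
      rw [hval w p0]
      exact lbl_one hx hz p0 ht
    · rw [h]
      simp only [Finset.sum_range_succ, Finset.sum_range_zero, zero_add, pow_zero, Perm.one_apply,
        pow_one]
      rw [hval w p0, hval _ p1]
      exact lbl_two hx hz p0 ht p1 t1 (fun hh => hpair ⟨h, hh⟩)
    · rw [h]
      simp only [Finset.sum_range_succ, Finset.sum_range_zero, zero_add, pow_zero, Perm.one_apply,
        pow_one]
      have e : (C.l ^ 2) w = C.l (C.l w) := by rw [pow_two, Perm.mul_apply]
      rw [e, hval w p0, hval _ p1, hval _ p2]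
      exact lbl_three hx hz p0 ht p1 t1 p2 t2
  · have p0 := hpure w ((cs C.l).refl' w)
    have h1 : clsSum (cs C.l) val w = Function.minimalPeriod C.l w * (C.kind w).lbl x y z := by
      rw [clsSum_range]
      have : ∀ j ∈ Finset.range (Function.minimalPeriod C.l w), val ((C.l ^ j) w) =
          (C.kind w).lbl x y z := by
        intro j _
        have h2 := cs_pow_apply C.l w j
        rw [hval _ (hpure _ h2), hall _ h2]
      rw [Finset.sum_congr rfl this]
      simp
    rw [h1, abs_mul]
    have h2 := lbl_B (z := z) hy p0 ht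
    have h3 : (1 : ℤ) ≤ |(Function.minimalPeriod C.l w : ℤ)| := by
      rw [Nat.abs_cast]
      exact_mod_cast hpos
    nlinarith [abs_nonneg ((C.kind w).lbl x y z)]

/-- x * nbad ≤ sum of |p| -/
theorem bad_count (C : CD α g S) {x y z : ℤ} (hx : 0 < x) (hz : 4 * x ≤ z) (hy : x ≤ |y|)
    (val : S → ℤ) (hval : ∀ w, (C.kind w).isOut = false → val w = (C.kind w).lbl x y z)
    (hsum : ∀ w, clsSum (cs C.l) (fun v => val v + C.p v) w = 0) :
    x * C.nbad ≤ ∑ w, |C.p w| := by
  have h := cls_ineq (cs C.l) (fun w => |C.p w|) C.badQ 0 x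
    (by
      rintro w ⟨u, hu, hb⟩
      have hru : (cs C.l) u w := Quotient.exact hu
      have h1 := C.bad_large hx hz hy val hval hb
      have h2 := hsum u
      rw [clsSum_add] at h2
      have h3 : clsSum (cs C.l) val u = - clsSum (cs C.l) C.p u := by linarith
      rw [h3, abs_neg] at h1
      have h4 := abs_clsSum_le (cs C.l) C.p u
      rw [← clsSum_congr_rel hru]
      linarith)
    (by
      intro w _
      exact clsSum_nonneg _ _ (fun v => abs_nonneg _) w)
  have e : (Nat.card {q // C.badQ q} : ℤ) = C.nbad := rfl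
  rw [e] at h
  linarith

end CD

end Pool.Agent.ABA
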