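import Pool.Agent.Helper70_ABA.Bad
import Pool.Agent.Helper83_ABA.Junk

/-! # M1: cancellation of two inverse faces -/

open Equiv Equiv.Perm H17ABA

namespace Pool.Agent.ABA

theorem split_iter {Ω : Type} [DecidableEq Ω] (l : Perm Ω) (w : Ω) (n : ℕ)
    (hret : ∀ j, 0 < j → j < n → (l ^ j) w ≠ w ∧ (l ^ j) w ≠ (l ^ n) w) :
    ∀ j, j + 1 < n → ((swap (l w) ((l ^ n) w) * l) ^ j) (l w) = (l ^ (j + 1)) w := by
  intro j
  induction j with
  | zero => intro _; simp
  | succ j ih =>
    intro hj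
    rw [pow_succ', Perm.mul_apply, ih (by omega), Perm.mul_apply]
    have e : l ((l ^ (j + 1)) w) = (l ^ (j + 2)) w := by
      rw [pow_succ' l (j + 1), Perm.mul_apply]
    rw [e]
    refine swap_apply_of_ne_of_ne ?_ (hret (j + 2) (by omega) hj).2
    intro hh
    rw [pow_succ' l (j + 1), Perm.mul_apply] at hh
    exact (hret (j + 1) (by omega) (by omega)).1 (l.injective hh)

theorem split_period {Ω : Type} [Fintype Ω] [DecidableEq Ω] (l : Perm Ω) (w : Ω) (n : ℕ)
    (hn : 1 < n) (hret : ∀ j, 0 < j → j < n → (l ^ j) w ≠ w ∧ (l ^ j) w ≠ (l ^ n) w) :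
    Function.minimalPeriod (swap (l w) ((l ^ n) w) * l) (l w) = n - 1 := by
  set l' := swap (l w) ((l ^ n) w) * l with hl'
  have hit := split_iter l w n hret
  have hlast : (l' ^ (n - 1)) (l w) = l w := by
    obtain ⟨m, rfl⟩ : ∃ m, n = m + 2 := ⟨n - 2, by omega⟩
    have h1 : m + 2 - 1 = m + 1 := by omega
    rw [h1, pow_succ', Perm.mul_apply, hit m (by omega), hl', Perm.mul_apply]
    have e : l ((l ^ (m + 1)) w) = (l ^ (m + 2)) w := by
      rw [pow_succ' l (m + 1), Perm.mul_apply]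
    rw [e, swap_apply_right]
  have hpos : 0 < Function.minimalPeriod l' (l w) := by
    refine Function.minimalPeriod_pos_of_mem_periodicPts ?_
    exact Function.Injective.mem_periodicPts l'.injective _
  have hle : Function.minimalPeriod l' (l w) ≤ n - 1 := by
    refine Function.IsPeriodicPt.minimalPeriod_le (by omega) ?_
    rw [Function.IsPeriodicPt, Perm.iterate_eq_pow]
    exact hlast
  by_contra hne
  have hlt : Function.minimalPeriod l' (l w) + 1 < n := by omega
  have h1 := hit _ hlt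
  have h2 := Function.iterate_minimalPeriod (f := l') (x := l w)
  rw [Perm.iterate_eq_pow] at h2
  rw [h2] at h1
  rw [pow_succ', Perm.mul_apply] at h1
  exact (hret _ hpos (by omega)).1 (l.injective h1).symm

theorem cycSum_split {Ω L : Type} [Fintype Ω] [DecidableEq Ω] [AddCommGroup L] (l : Perm Ω)
    (f : Ω → L) (w : Ω) (n : ℕ)
    (hn : 1 < n) (hret : ∀ j, 0 < j → j < n → (l ^ j) w ≠ w ∧ (l ^ j) w ≠ (l ^ n) w) :
    cycSum (swap (l w) ((l ^ n) w) * l) f (l w) =
      ∑ j ∈ Finset.range (n - 1), f ((l ^ (j + 1)) w) := by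
  rw [cycSum_range, split_period l w n hn hret]
  refine Finset.sum_congr rfl (fun j hj => ?_)
  rw [Finset.mem_range] at hj
  rw [split_iter l w n hret j (by omega)]

theorem btw_sum {Ω L : Type} [AddCommGroup L] (l : Perm Ω) (lab : Ω → Bool × L) (w : Ω) (n : ℕ) :
    ((btw l lab w n).map Prod.snd).sum =
      ∑ j ∈ Finset.range (n - 1), (lab ((l ^ (j + 1)) w)).2 := by
  unfold btw
  rw [List.map_map]
  generalize n - 1 = m
  induction m with
  | zero => simp
  | succ m ih =>
    rw [List.range_succ, List.map_append, List.sum_append, ih, Finset.sum_range_succ]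
    simp

namespace FC

variable {L : Type} [AddCommGroup L] {Ω : Type} [Fintype Ω] [DecidableEq Ω]
  {fs gs : List (List Ω)}

/-- M1 -/
theorem cancelFaces {c c' : List Ω} {w w' : Ω} (D : FC L Ω ((c ++ [w]) :: (w' :: c') :: fs))
    (n : ℕ) (hn : 0 < n) (hw : (D.l ^ n) w = w')
    (hret : ∀ j, 0 < j → j < n → (D.l ^ j) w ≠ w ∧ (D.l ^ j) w ≠ w')
    (hsum : ((btw D.l D.lab w n).map Prod.snd).sum = 0)
    (hev : ev (αF L) ((c ++ [w]).map D.lab) * ev (αF L) ((w' :: c').map D.lab) = 1) :
    ∃ D' : FC L Ω fs, ∀ x ∈ fs.flatten, D'.lab x = D.lab x := by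
  obtain ⟨D1, hlab, hl⟩ : ∃ D1 : FC L Ω ((c ++ [w]) :: (w' :: c') :: fs), D1.lab = D.lab ∧
      D1.l w = w' := by
    by_cases h1 : n = 1
    · subst h1
      exact ⟨D, rfl, by simpa using hw⟩
    · have hn1 : 1 < n := by omega
      refine ⟨D.lineSplit (u := D.l w) (v := w') ?_ ?_, rfl, ?_⟩
      · have h2 := cs_pow_apply D.l w n
        rw [hw] at h2
        have h3 := cs_apply D.l w
        exact (cs D.l).trans' ((cs D.l).symm' h3) h2
      · have h4 := cycSum_split D.l (fun v => (D.lab v).2) w n hn1 (by rw [hw]; exact hret)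
        rw [hw, ← btw_sum] at h4
        rw [h4]
        exact hsum
      · change (swap (D.l w) w' * D.l) w = _
        rw [Perm.mul_apply, swap_apply_left]
  obtain ⟨x, xs, hxs⟩ : ∃ x xs, c ++ [w] = x :: xs := by
    cases c with
    | nil => exact ⟨w, [], rfl⟩
    | cons y ys => exact ⟨y, ys ++ [w], rfl⟩
  have hev' : ev (αF L) ((x :: xs ++ w' :: c').map D.lab) = 1 := by
    rw [List.map_append, ev_append, ← hxs]
    exact hev
  have hlast : (x :: xs).getLast (by simp) = w := by
    simp only [← hxs]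
    simp
  have key : ∀ (E : FC L Ω ((x :: xs) :: (w' :: c') :: fs)), E.lab = D.lab → E.l w = w' →
      ∃ D' : FC L Ω fs, ∀ x ∈ fs.flatten, D'.lab x = D.lab x := by
    intro E hE1 hE2
    obtain ⟨D', hD'⟩ := (E.faceMerge hlast hE2).junk (by
      change ev (αF L) ((x :: xs ++ w' :: c').map E.lab) = 1
      rw [hE1]; exact hev')
    refine ⟨D', fun y hy => ?_⟩
    rw [hD' y hy]
    change E.lab y = D.lab y
    rw [hE1]
  exact key (D1.ofPerm (gs := (x :: xs) :: (w' :: c') :: fs) (by rw [hxs])) hlab hl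

end FC

end Pool.Agent.ABA
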