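import Pool.Agent.Helper70_ABA.Canc

/-! # The coarse diagram of a certificate: kinds and first returns of the faces -/

open Equiv Equiv.Perm H17ABA

namespace Pool.Agent.ABA

theorem flat_unique {Ω : Type} {fs : List (List Ω)} (hn : fs.flatten.Nodup) {c c' : List Ω}
    (hc : c ∈ fs) (hc' : c' ∈ fs) {o : Ω} (ho : o ∈ c) (ho' : o ∈ c') : c = c' := by
  induction fs with
  | nil => simp at hc
  | cons d fs ih =>
    rw [List.flatten_cons, List.nodup_append] at hn
    rcases List.mem_cons.1 hc with rfl | h1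
    · rcases List.mem_cons.1 hc' with rfl | h2
      · rfl
      · exact absurd rfl (hn.2.2 o ho o (List.mem_flatten.2 ⟨c', h2, ho'⟩))
    · rcases List.mem_cons.1 hc' with rfl | h2
      · exact absurd rfl (hn.2.2 o ho' o (List.mem_flatten.2 ⟨c, h1, ho⟩))
      · exact ih hn.2.1 h1 h2

theorem idx_unique {Ω : Type} {c : List Ω} (hn : c.Nodup) {i j : ℕ} {o : Ω}
    (hi : (c)[i]? = some o) (hj : (c)[j]? = some o) : i = j := by
  obtain ⟨h1, h2⟩ := List.getElem?_eq_some_iff.1 hi
  obtain ⟨h3, h4⟩ := List.getElem?_eq_some_iff.1 hj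
  exact (List.Nodup.getElem_inj_iff hn).1 (h2.trans h4.symm)

theorem Ret.unique {Ω : Type} {π : Perm Ω} {Sel : Set Ω} {w : Ω} {n m : ℕ} (hn : Ret π Sel w n)
    (hm : Ret π Sel w m) : n = m := by
  by_contra hne
  rcases Nat.lt_or_gt_of_ne hne with h | h
  · exact hm.2.2 n hn.1 h hn.2.1
  · exact hn.2.2 m hm.1 h hm.2.1

namespace LFS

/-- the T-face -/
def Tp (g : Wd ℤ) (x y z : ℤ) : Wd ℤ := (true, x) :: (false, y) :: (true, z) :: winv g

/-- the inverse T-face, rotated -/
def Tm (g : Wd ℤ) (x y z : ℤ) : Wd ℤ := (true, -z) :: (false, -y) :: (true, -x) :: g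

def kk : Bool → ℕ → Kind
  | true, 0 => .al
  | true, 1 => .be
  | true, _ => .ga
  | false, 0 => .ga'
  | false, 1 => .be'
  | false, _ => .al'

theorem kk_isOut (s : Bool) (i : ℕ) : (kk s i).isOut = false := by
  rcases i with _ | _ | i <;> cases s <;> rfl

theorem kk_nxt (s : Bool) {i : ℕ} (hi : i < 3) : kk s ((i + 1) % 3) = (kk s i).nxt := by
  interval_cases i <;> cases s <;> rfl

/-- the T-word of sign s -/
def Ts (g : Wd ℤ) (x y z : ℤ) (s : Bool) : Wd ℤ := if s then Tp g x y z else Tm g x y z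

theorem Ts_length (g : Wd ℤ) (x y z : ℤ) (s : Bool) : (Ts g x y z s).length = g.length + 3 := by
  cases s <;> simp [Ts, Tp, Tm]

theorem Ts_get (g : Wd ℤ) (x y z : ℤ) (s : Bool) {i : ℕ} (hi : i < 3) :
    (Ts g x y z s)[i]? = some ((kk s i).ty, (kk s i).lbl x y z) := by
  interval_cases i <;> cases s <;> rfl

theorem Ts_drop (g : Wd ℤ) (x y z : ℤ) (s : Bool) :
    (Ts g x y z s).drop 3 = if s then winv g else g := by
  cases s <;> rfl

section

variable {g : Wd ℤ} {x y z : ℤ} {Ω : Type} [Fintype Ω] [DecidableEq Ω]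
  {fsF fsT fsR : List (List Ω)}

/-- the long sides of the T-faces -/
def Long (fsT : List (List Ω)) (c : List Ω) (i : ℕ) (o : Ω) : Prop :=
  c ∈ fsT ∧ i < 3 ∧ (c)[i]? = some o

/-- selected syllables -/
def Sel (fsF fsT : List (List Ω)) : Set Ω :=
  {o | o ∈ fsF.flatten ∨ ∃ c i, Long fsT c i o}

variable (g x y z) in
/-- sign of a T-face -/
noncomputable def sg (lab : Ω → Bool × ℤ) (c : List Ω) : Bool := by
  classical
  exact decide (c.map lab = Tp g x y z)

/-- all T-faces are T-faces -/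
def TF (g : Wd ℤ) (x y z : ℤ) (lab : Ω → Bool × ℤ) (fsT : List (List Ω)) : Prop :=
  ∀ c ∈ fsT, c.map lab = Tp g x y z ∨ c.map lab = Tm g x y z

theorem TF.eq {lab : Ω → Bool × ℤ} (hT : TF g x y z lab fsT) {c : List Ω} (hc : c ∈ fsT) :
    c.map lab = Ts g x y z (sg g x y z lab c) := by
  unfold sg Ts
  by_cases h : c.map lab = Tp g x y z
  · simp [h]
  · rcases hT c hc with h' | h'
    · exact absurd h' h
    · simp only [h, decide_false]
      rw [h']
      rfl

theorem TF.length {lab : Ω → Bool × ℤ} (hT : TF g x y z lab fsT) {c : List Ω} (hc : c ∈ fsT) :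
    c.length = g.length + 3 := by
  have := congrArg List.length (hT.eq hc)
  rwa [List.length_map, Ts_length] at this

theorem TF.lab_eq {lab : Ω → Bool × ℤ} (hT : TF g x y z lab fsT) {c : List Ω} {i : ℕ} {o : Ω}
    (h : Long fsT c i o) :
    lab o = ((kk (sg g x y z lab c) i).ty, (kk (sg g x y z lab c) i).lbl x y z) := by
  obtain ⟨hc, hi, ho⟩ := h
  have h1 := Ts_get g x y z (sg g x y z lab c) hi
  rw [← hT.eq hc, List.getElem?_map, ho] at h1
  simpa using h1

variable (g x y z) in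
/-- kind of a position -/
noncomputable def kd (lab : Ω → Bool × ℤ) (fsT : List (List Ω)) (o : Ω) : Kind := by
  classical
  exact if h : ∃ c i, Long fsT c i o then
    kk (sg g x y z lab h.choose) h.choose_spec.choose
  else .out (lab o).1

theorem long_unique {fs : List (List Ω)} (hn : fs.flatten.Nodup) (hsub : ∀ c ∈ fsT, c ∈ fs)
    {c c' : List Ω} {i i' : ℕ} {o : Ω} (h : Long fsT c i o) (h' : Long fsT c' i' o) :
    c = c' ∧ i = i' := by
  have e : c = c' := flat_unique hn (hsub c h.1) (hsub c' h'.1) (List.mem_of_getElem? h.2.2)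
    (List.mem_of_getElem? h'.2.2)
  subst e
  exact ⟨rfl, idx_unique ((List.nodup_flatten.1 hn).1 c (hsub c h.1)) h.2.2 h'.2.2⟩

theorem kd_T {fs : List (List Ω)} (hn : fs.flatten.Nodup) (hsub : ∀ c ∈ fsT, c ∈ fs)
    (lab : Ω → Bool × ℤ) {c : List Ω} {i : ℕ} {o : Ω} (h : Long fsT c i o) :
    kd g x y z lab fsT o = kk (sg g x y z lab c) i := by
  have hex : ∃ c i, Long fsT c i o := ⟨c, i, h⟩
  unfold kd
  rw [dif_pos hex]
  obtain ⟨h1, h2⟩ := long_unique hn hsub hex.choose_spec.choose_spec h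
  rw [h2]
  exact congrArg (fun d => kk (sg g x y z lab d) i) h1

theorem kd_F (lab : Ω → Bool × ℤ) {o : Ω} (h : ¬ ∃ c i, Long fsT c i o) :
    kd g x y z lab fsT o = .out (lab o).1 := by
  unfold kd
  rw [dif_neg h]

theorem F_not_long (hn : (fsF ++ (fsT ++ fsR)).flatten.Nodup) {o : Ω} (h : o ∈ fsF.flatten) :
    ¬ ∃ c i, Long fsT c i o := by
  rintro ⟨c, i, hc, hi, ho⟩
  rw [List.flatten_append, List.nodup_append] at hn
  refine hn.2.2 o h o ?_ rfl
  rw [List.flatten_append, List.mem_append]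
  exact Or.inl (List.mem_flatten.2 ⟨c, hc, List.mem_of_getElem? ho⟩)

theorem mem_fs_T {c : List Ω} (h : c ∈ fsT) : c ∈ fsF ++ (fsT ++ fsR) := by
  simp [h]

theorem mem_fs_F {c : List Ω} (h : c ∈ fsF) : c ∈ fsF ++ (fsT ++ fsR) := by
  simp [h]

theorem not_sel_of (hn : (fsF ++ (fsT ++ fsR)).flatten.Nodup) {c : List Ω} (hc : c ∈ fsT) {i : ℕ}
    (hi : 3 ≤ i) {o : Ω} (ho : (c)[i]? = some o) : o ∉ Sel fsF fsT := by
  rintro (h | ⟨c', i', h⟩)
  · rw [List.flatten_append, List.nodup_append] at hn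
    refine hn.2.2 o h o ?_ rfl
    rw [List.flatten_append, List.mem_append]
    exact Or.inl (List.mem_flatten.2 ⟨c, hc, List.mem_of_getElem? ho⟩)
  · have e : c = c' := flat_unique hn (mem_fs_T hc) (mem_fs_T h.1) (List.mem_of_getElem? ho)
      (List.mem_of_getElem? h.2.2)
    subst e
    have := idx_unique ((List.nodup_flatten.1 hn).1 c (mem_fs_T hc)) ho h.2.2
    have := h.2.1
    omega

theorem not_sel_R (hn : (fsF ++ (fsT ++ fsR)).flatten.Nodup) {c : List Ω} (hc : c ∈ fsR)
    {o : Ω} (ho : o ∈ c) : o ∉ Sel fsF fsT := by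
  rintro (h | ⟨c', i', h⟩)
  · rw [List.flatten_append, List.nodup_append] at hn
    refine hn.2.2 o h o ?_ rfl
    rw [List.flatten_append, List.mem_append]
    exact Or.inr (List.mem_flatten.2 ⟨c, hc, ho⟩)
  · rw [List.flatten_append, List.nodup_append] at hn
    have h2 := hn.2.1
    rw [List.flatten_append, List.nodup_append] at h2
    exact h2.2.2 o (List.mem_flatten.2 ⟨c', h.1, List.mem_of_getElem? h.2.2⟩) o
      (List.mem_flatten.2 ⟨c, hc, ho⟩) rfl

/-- first return of a syllable of an outer word -/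
theorem ret_F (hn : (fsF ++ (fsT ++ fsR)).flatten.Nodup) {o : Ω} (h : o ∈ fsF.flatten) :
    Ret (facePerm (fsF ++ (fsT ++ fsR))) (Sel fsF fsT) o 1 ∧
      facePerm (fsF ++ (fsT ++ fsR)) o ∈ fsF.flatten := by
  obtain ⟨c, hc, ho⟩ := List.mem_flatten.1 h
  have h1 : facePerm (fsF ++ (fsT ++ fsR)) o ∈ fsF.flatten := by
    rw [facePerm_apply_of_mem hn (mem_fs_F hc) ho]
    exact List.mem_flatten.2 ⟨c, hc, formPerm_mem ho⟩
  refine ⟨⟨one_pos, ?_, ?_⟩, h1⟩
  · rw [pow_one]; exact Or.inl h1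
  · intro j h2 h3; omega

/-- powers of the face permutation on a T-face -/
theorem pow_T (hn : (fsF ++ (fsT ++ fsR)).flatten.Nodup) {c : List Ω} (hc : c ∈ fsT) (n : ℕ)
    {k : ℕ} {o : Ω} (ho : (c)[k]? = some o) :
    (c)[(k + n) % c.length]? = some ((facePerm (fsF ++ (fsT ++ fsR)) ^ n) o) := by
  obtain ⟨h1, h2⟩ := List.getElem?_eq_some_iff.1 ho
  have := face_pow hn (mem_fs_T hc) n k h1
  rw [h2] at this
  rw [this]
  exact List.getElem?_eq_getElem _

/-- first return on a T-face -/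
theorem ret_T (hn : (fsF ++ (fsT ++ fsR)).flatten.Nodup) {c : List Ω} {m : ℕ}
    (hlen : c.length = m + 3) {i : ℕ} {o : Ω} (h : Long fsT c i o) :
    Ret (facePerm (fsF ++ (fsT ++ fsR))) (Sel fsF fsT) o (if i = 2 then m + 1 else 1) ∧
      (c)[(i + 1) % 3]? = some ((facePerm (fsF ++ (fsT ++ fsR)) ^ (if i = 2 then m + 1 else 1)) o) := by
  obtain ⟨hc, hi, ho⟩ := h
  by_cases h2 : i = 2
  · subst h2
    simp only [if_true]
    have h3 := pow_T hn hc (m + 1) ho
    have e1 : (2 + (m + 1)) % c.length = 0 := by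
      rw [hlen]
      have : 2 + (m + 1) = m + 3 := by omega
      rw [this, Nat.mod_self]
    have e2 : (2 + 1) % 3 = 0 := rfl
    rw [e1] at h3
    rw [e2]
    refine ⟨⟨by omega, Or.inr ⟨c, 0, hc, by omega, h3⟩, ?_⟩, h3⟩
    intro j hj1 hj2
    have h4 := pow_T hn hc j ho
    have e3 : (2 + j) % c.length = 2 + j := Nat.mod_eq_of_lt (by omega)
    rw [e3] at h4
    exact not_sel_of hn hc (by omega) h4
  · simp only [if_neg h2]
    have h3 := pow_T hn hc 1 ho
    have e1 : (i + 1) % c.length = i + 1 := Nat.mod_eq_of_lt (by omega)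
    have e2 : (i + 1) % 3 = i + 1 := Nat.mod_eq_of_lt (by omega)
    rw [e1] at h3
    rw [e2]
    refine ⟨⟨one_pos, Or.inr ⟨c, i + 1, hc, by omega, h3⟩, ?_⟩, h3⟩
    intro j hj1 hj2
    omega

/-- the word between two selected syllables of a T-face -/
theorem btw_T (hn : (fsF ++ (fsT ++ fsR)).flatten.Nodup) (lab : Ω → Bool × ℤ) {c : List Ω} {m : ℕ}
    (hlen : c.length = m + 3) {i : ℕ} {o : Ω} (h : Long fsT c i o) :
    btw (facePerm (fsF ++ (fsT ++ fsR))) lab o (if i = 2 then m + 1 else 1) =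
      if i = 2 then (c.map lab).drop 3 else [] := by
  obtain ⟨hc, hi, ho⟩ := h
  by_cases h2 : i = 2
  · subst h2
    simp only [if_true]
    refine List.ext_getElem? ?_
    intro j
    unfold btw
    rw [Nat.add_sub_cancel, List.getElem?_map, List.getElem?_drop, List.getElem?_map]
    by_cases hj : j < m
    · rw [List.getElem?_range hj]
      have h4 := pow_T hn hc (j + 1) ho
      have e3 : (2 + (j + 1)) % c.length = 3 + j := by
        rw [Nat.mod_eq_of_lt (by omega)]; omega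
      rw [e3] at h4
      rw [h4]
      rfl
    · have h5 : (List.range m)[j]? = none := by
        rw [List.getElem?_eq_none]
        rw [List.length_range]; omega
      have h6 : (c)[3 + j]? = none := by
        rw [List.getElem?_eq_none]
        omega
      rw [h5, h6]
      rfl
  · simp only [if_neg h2]
    rfl

end

end LFS

end Pool.Agent.ABA
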