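import Pool.Agent.Helper70_ABA.Step

/-! # Counting on the coarse diagram of a certificate -/

open Equiv Equiv.Perm H17ABA

namespace Pool.Agent.ABA

/-- sum of the absolute values of the labels -/
def nrm (w : Wd ℤ) : ℤ := (w.map (fun s => |s.2|)).sum

theorem nrm_winv (w : Wd ℤ) : nrm (winv w) = nrm w := by
  unfold nrm winv
  rw [List.map_reverse, List.sum_reverse, List.map_map]
  congr 1
  refine List.map_congr_left (fun s _ => ?_)
  simp

theorem nrm_nonneg (w : Wd ℤ) : 0 ≤ nrm w := by
  unfold nrm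
  refine List.sum_nonneg ?_
  intro a ha
  obtain ⟨s, -, rfl⟩ := List.mem_map.1 ha
  exact abs_nonneg _

theorem sum_toFinset_le {Ω : Type} [DecidableEq Ω] (F : Ω → ℤ) (hF : ∀ o, 0 ≤ F o)
    (L : List Ω) : ∑ o ∈ L.toFinset, F o ≤ (L.map F).sum := by
  induction L with
  | nil => simp
  | cons a L ih =>
    rw [List.toFinset_cons, List.map_cons, List.sum_cons]
    by_cases h : a ∈ L.toFinset
    · rw [Finset.insert_eq_of_mem h]
      have := hF a
      linarith
    · rw [Finset.sum_insert h]
      linarith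

namespace LFS

variable {g : Wd ℤ} {x y z : ℤ} {Ω : Type} [Fintype Ω] [DecidableEq Ω]
  {fsF fsT fsR : List (List Ω)}

theorem potential_iter {l : Perm Ω} {val κ : Ω → ℤ} (hκ : ∀ w, κ (l w) = κ w + val w) (w : Ω) :
    ∀ n, κ ((l ^ (n + 1)) w) = κ w + val w + ∑ j ∈ Finset.range n, val ((l ^ (j + 1)) w) := by
  intro n
  induction n with
  | zero => simp [hκ]
  | succ n ih =>
    rw [pow_succ' l (n + 1), Perm.mul_apply, hκ, ih, Finset.sum_range_succ]
    ring

/-- the line sums of the coarse diagram vanish -/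
theorem line_sums {fs : List (List Ω)} (D : FC ℤ Ω fs) {S : Set Ω} [Fintype S] (l : Perm S)
    (p : S → ℤ) (hl : ∀ w : S, ∃ n, Ret D.l S w n ∧ (l w : Ω) = (D.l ^ n) w ∧
      p w = ((btw D.l D.lab w n).map Prod.snd).sum) (w : S) :
    clsSum (cs l) (fun v => (D.lab v).2 + p v) w = 0 := by
  obtain ⟨κ, hκ⟩ := H17.exists_potential D.l (fun w => (D.lab w).2) D.sum_l
  have h1 : ∀ v : S, (D.lab v).2 + p v = κ (l v) - κ v := by
    intro v
    obtain ⟨n, h1, h2, h3⟩ := hl v
    obtain ⟨m, rfl⟩ : ∃ m, n = m + 1 := ⟨n - 1, by have := h1.1; omega⟩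
    rw [h3, btw_sum, h2, potential_iter hκ, Nat.add_sub_cancel]
    ring
  rw [clsSum_range]
  simp only [h1]
  have h2 : ∀ j : ℕ, (l ((l ^ j) w)) = (l ^ (j + 1)) w := by
    intro j
    rw [pow_succ', Perm.mul_apply]
  simp only [h2]
  rw [Finset.sum_range_sub (fun j => κ ((l ^ j) w))]
  have h3 := Function.iterate_minimalPeriod (f := l) (x := w)
  rw [Perm.iterate_eq_pow] at h3
  rw [h3, pow_zero, Perm.one_apply, sub_self]

/-- the passes are made of fillers -/
theorem sum_abs_le {fs : List (List Ω)} (D : FC ℤ Ω fs) {S : Set Ω} [Fintype S] (l : Perm S)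
    (p : S → ℤ) (hl : ∀ w : S, ∃ n, Ret D.l S w n ∧ (l w : Ω) = (D.l ^ n) w ∧
      p w = ((btw D.l D.lab w n).map Prod.snd).sum) (G : Finset Ω)
    (hG : ∀ o, o ∉ S → (D.lab o).2 ≠ 0 → o ∈ G) :
    ∑ w, |p w| ≤ ∑ o ∈ G, |(D.lab o).2| := by
  classical
  choose n hn using hl
  have h1 : ∀ w, |p w| ≤ ∑ j ∈ Finset.range (n w - 1), |(D.lab ((D.l ^ (j + 1)) w)).2| := by
    intro w
    rw [(hn w).2.2, btw_sum]
    exact Finset.abs_sum_le_sum_abs _ _
  refine (Finset.sum_le_sum (fun w _ => h1 w)).trans ?_
  rw [Finset.sum_sigma']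
  have hinj : Set.InjOn (fun q : (_ : S) × ℕ => (D.l ^ (q.2 + 1)) (q.1 : Ω))
      (Finset.univ.sigma (fun w => Finset.range (n w - 1)) : Finset ((_ : S) × ℕ)) := by
    have key : ∀ (w w' : S) (j j' : ℕ), j ≤ j' → j < n w - 1 → j' < n w' - 1 →
        (D.l ^ (j + 1)) (w : Ω) = (D.l ^ (j' + 1)) (w' : Ω) → w = w' ∧ j = j' := by
      intro w w' j j' hjj hj hj' h
      have h2 : (w : Ω) = (D.l ^ (j' - j)) (w' : Ω) := by
        have e : j' + 1 = (j + 1) + (j' - j) := by omega
        have h' : (D.l ^ (j + 1)) (w : Ω) = (D.l ^ (j + 1)) ((D.l ^ (j' - j)) (w' : Ω)) := by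
          rw [← Perm.mul_apply, ← pow_add, ← e]
          exact h
        exact (D.l ^ (j + 1)).injective h'
      by_cases h3 : j' - j = 0
      · rw [h3, pow_zero, Perm.one_apply] at h2
        exact ⟨Subtype.ext h2, by omega⟩
      · exfalso
        have h4 := (hn w').1.2.2 (j' - j) (by omega) (by omega)
        rw [← h2] at h4
        exact h4 w.2
    rintro ⟨w, j⟩ hq ⟨w', j'⟩ hq' h
    simp only [Finset.coe_sigma, Set.mem_sigma_iff, Finset.mem_coe, Finset.mem_univ, true_and,
      Finset.mem_range] at hq hq'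
    simp only at h
    rcases le_total j j' with hjj | hjj
    · obtain ⟨h5, h6⟩ := key w w' j j' hjj hq hq' h
      rw [h5, h6]
    · obtain ⟨h5, h6⟩ := key w' w j' j hjj hq' hq h.symm
      rw [h5, h6]
  rw [← Finset.sum_image (f := fun o => |(D.lab o).2|) hinj]
  rw [← Finset.sum_filter_add_sum_filter_not _ (fun o => (D.lab o).2 = 0)]
  have h0 : ∑ o ∈ (Finset.image (fun q : (_ : S) × ℕ => (D.l ^ (q.2 + 1)) (q.1 : Ω))
      (Finset.univ.sigma (fun w => Finset.range (n w - 1)))).filter
        (fun o => (D.lab o).2 = 0), |(D.lab o).2| = 0 := by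
    refine Finset.sum_eq_zero (fun o ho => ?_)
    rw [(Finset.mem_filter.1 ho).2, abs_zero]
  rw [h0, zero_add]
  refine Finset.sum_le_sum_of_subset_of_nonneg ?_ (fun o _ _ => abs_nonneg _)
  intro o ho
  rw [Finset.mem_filter] at ho
  obtain ⟨ho, ho2⟩ := ho
  refine hG o ?_ ho2
  obtain ⟨⟨w, j⟩, hq, rfl⟩ := Finset.mem_image.1 ho
  simp only [Finset.mem_sigma, Finset.mem_univ, true_and, Finset.mem_range] at hq
  exact (hn w).1.2.2 (j + 1) (by omega) (by omega)

theorem dead_val {fs : List (List Ω)} (D : FC ℤ Ω fs) {o : Ω} (ho : o ∉ fs.flatten) :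
    (D.lab o).2 = 0 := by
  have h1 := D.sum_l o
  rw [cycSum_range] at h1
  have h2 : Function.minimalPeriod D.l o = 1 := Function.minimalPeriod_eq_one_iff_isFixedPt.2
    (D.dead o ho)
  rw [h2] at h1
  simpa using h1

theorem flatten_drop_sum (lab : Ω → Bool × ℤ) (hT : TF g x y z lab fsT) :
    (((fsT.map (List.drop 3)).flatten).map (fun o => |(lab o).2|)).sum = fsT.length * nrm g := by
  induction fsT with
  | nil => simp
  | cons c fsT ih =>
    have ih' := ih (fun d hd => hT d (List.mem_cons_of_mem _ hd))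
    have hc := hT.eq (c := c) List.mem_cons_self
    have h1 : ((c.drop 3).map (fun o => |(lab o).2|)).sum = nrm g := by
      have h2 : (c.drop 3).map (fun o => |(lab o).2|) =
          ((c.map lab).drop 3).map (fun s => |s.2|) := by
        rw [← List.map_drop, List.map_map]
        rfl
      rw [h2, hc, Ts_drop]
      cases sg g x y z lab c
      · rfl
      · exact nrm_winv g
    rw [List.map_cons, List.flatten_cons, List.map_append, List.sum_append, ih', h1,
      List.length_cons]
    push_cast
    ring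

theorem flatten_nrm (lab : Ω → Bool × ℤ) (fs : List (List Ω)) :
    (fs.flatten.map (fun o => |(lab o).2|)).sum = (fs.map (fun c => nrm (c.map lab))).sum := by
  induction fs with
  | nil => simp
  | cons c fs ih =>
    rw [List.flatten_cons, List.map_append, List.sum_append, ih, List.map_cons, List.sum_cons]
    congr 1
    unfold nrm
    rw [List.map_map]
    rfl

/-- the total label of the fillers -/
theorem fillers_le (D : FC ℤ Ω (fsF ++ (fsT ++ fsR))) (hT : TF g x y z D.lab fsT) :
    ∃ G : Finset Ω, (∀ o, o ∉ Sel fsF fsT → (D.lab o).2 ≠ 0 → o ∈ G) ∧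
      ∑ o ∈ G, |(D.lab o).2| ≤ fsT.length * nrm g + (fsR.map (fun c => nrm (c.map D.lab))).sum := by
  refine ⟨((fsT.map (List.drop 3)).flatten ++ fsR.flatten).toFinset, ?_, ?_⟩
  · intro o ho h0
    have h1 : o ∈ (fsF ++ (fsT ++ fsR)).flatten := by
      by_contra hcon
      exact h0 (dead_val D hcon)
    rw [List.mem_toFinset, List.mem_append]
    rw [List.flatten_append, List.mem_append, List.flatten_append, List.mem_append] at h1
    rcases h1 with h1 | h1 | h1
    · exact absurd (Or.inl h1) ho
    · left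
      obtain ⟨c, hc, hoc⟩ := List.mem_flatten.1 h1
      refine List.mem_flatten.2 ⟨c.drop 3, List.mem_map.2 ⟨c, hc, rfl⟩, ?_⟩
      obtain ⟨i, hi, hio⟩ := List.mem_iff_getElem.1 hoc
      by_cases h3 : i < 3
      · exact absurd (Or.inr ⟨c, i, hc, h3, by rw [← hio]; exact List.getElem?_eq_getElem hi⟩) ho
      · rw [List.mem_iff_getElem?]
        refine ⟨i - 3, ?_⟩
        rw [List.getElem?_drop, ← hio]
        have : 3 + (i - 3) = i := by omega
        rw [this]
        exact List.getElem?_eq_getElem hi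
    · exact Or.inr h1
  · refine (sum_toFinset_le _ (fun o => abs_nonneg _) _).trans ?_
    rw [List.map_append, List.sum_append, flatten_drop_sum D.lab hT, flatten_nrm]

theorem card_out_le (hn : (fsF ++ (fsT ++ fsR)).flatten.Nodup) (lab : Ω → Bool × ℤ) :
    Nat.card {w : Sel fsF fsT // (kd g x y z lab fsT w).isOut = true} ≤ fsF.flatten.length := by
  classical
  have h1 : Nat.card {w : Sel fsF fsT // (kd g x y z lab fsT w).isOut = true} ≤
      Nat.card {o // o ∈ fsF.flatten.toFinset} := by
    refine Nat.card_le_card_of_injective (fun w => ⟨w.1.1, ?_⟩) ?_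
    · rw [List.mem_toFinset]
      exact F_of_out hn w.1.2 w.2
    · intro a b h
      simp only [Subtype.mk.injEq] at h
      exact Subtype.ext (Subtype.ext h)
  refine h1.trans ?_
  rw [Nat.card_eq_fintype_card, Fintype.card_coe]
  exact List.toFinset_card_le _

theorem take_sublist (fs : List (List Ω)) :
    ((fs.map (List.take 3)).flatten).Sublist fs.flatten := by
  induction fs with
  | nil => simp
  | cons c fs ih =>
    rw [List.map_cons, List.flatten_cons, List.flatten_cons]
    exact List.Sublist.append (List.take_sublist 3 c) ih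

theorem take_length (lab : Ω → Bool × ℤ) (hT : TF g x y z lab fsT) :
    (fsT.map (List.take 3)).flatten.length = 3 * fsT.length := by
  induction fsT with
  | nil => simp
  | cons c fsT ih =>
    have ih' := ih (fun d hd => hT d (List.mem_cons_of_mem _ hd))
    have := hT.length (c := c) List.mem_cons_self
    rw [List.map_cons, List.flatten_cons, List.length_append, ih', List.length_take, this,
      List.length_cons]
    have : min 3 (g.length + 3) = 3 := by omega
    rw [this]
    ring

theorem card_pure_ge (hn : (fsF ++ (fsT ++ fsR)).flatten.Nodup) (lab : Ω → Bool × ℤ)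
    (hT : TF g x y z lab fsT) :
    3 * fsT.length ≤ Nat.card {w : Sel fsF fsT // (kd g x y z lab fsT w).isOut = false} := by
  classical
  have hn2 : fsT.flatten.Nodup := by
    rw [List.flatten_append, List.nodup_append] at hn
    have h2 := hn.2.1
    rw [List.flatten_append, List.nodup_append] at h2
    exact h2.1
  have h1 : ((fsT.map (List.take 3)).flatten.toFinset).card = 3 * fsT.length := by
    rw [List.toFinset_card_of_nodup (hn2.sublist (take_sublist fsT)), take_length lab hT]
  rw [← h1]
  have h2 : Nat.card {o // o ∈ (fsT.map (List.take 3)).flatten.toFinset} ≤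
      Nat.card {w : Sel fsF fsT // (kd g x y z lab fsT w).isOut = false} := by
    have hmem : ∀ o ∈ (fsT.map (List.take 3)).flatten.toFinset, ∃ c i, Long fsT c i o := by
      intro o ho
      rw [List.mem_toFinset] at ho
      obtain ⟨d, hd, hod⟩ := List.mem_flatten.1 ho
      obtain ⟨c, hc, rfl⟩ := List.mem_map.1 hd
      obtain ⟨i, hi, hio⟩ := List.mem_iff_getElem.1 hod
      rw [List.length_take] at hi
      refine ⟨c, i, hc, by omega, ?_⟩
      rw [← hio, List.getElem_take]
      exact List.getElem?_eq_getElem _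
    refine Nat.card_le_card_of_injective
      (fun o => ⟨⟨o.1, Or.inr (hmem o.1 o.2)⟩, ?_⟩) ?_
    · obtain ⟨c, i, h⟩ := hmem o.1 o.2
      change (kd g x y z lab fsT o.1).isOut = false
      rw [kd_T hn (fun c hc => mem_fs_T hc) lab h, kk_isOut]
    · intro a b h
      have h' : (a.1 : Ω) = b.1 := congrArg (fun q => (q.1.1 : Ω)) h
      exact Subtype.ext h'
  refine le_trans (le_of_eq ?_) h2
  rw [Nat.card_eq_fintype_card, Fintype.card_coe]

/-- THE COUNT for one certificate -/
theorem main_count {Γ : Type} [Group Γ] (α : Bool → Multiplicative ℤ →* Γ)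
    (hα : ∀ t, Function.Injective (α t)) (hG : Geo (α true).range (α false).range)
    (hg : ¬ IsABA (α true).range (α false).range (ev α g))
    (hx : 0 < x) (hz : 4 * x ≤ z) (hy : x ≤ |y|)
    (D : FC ℤ Ω (fsF ++ (fsT ++ fsR))) (hT : TF g x y z D.lab fsT)
    (hR : ∀ d ∈ fsR, ev α (d.map D.lab) = 1)
    (hmin : ∀ (w : Ω) (n : ℕ) (c : List Ω) (i : ℕ) (c' : List Ω) (i' : ℕ), Long fsT c i w →
      Ret D.l (Sel fsF fsT) w n → Long fsT c' i' ((D.l ^ n) w) →
      kk (sg g x y z D.lab c') i' = (kk (sg g x y z D.lab c) i).inv →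
      ((btw D.l D.lab w n).map Prod.snd).sum ≠ 0) :
    x * fsT.length ≤ 804 * x * fsF.flatten.length +
      401 * (fsT.length * nrm g + (fsR.map (fun c => nrm (c.map D.lab))).sum) := by
  classical
  by_cases hne : ∃ w, w ∈ Sel fsF fsT
  · obtain ⟨C, hk, hl, hcount⟩ := exists_CD (x := x) (y := y) (z := z) α D hT hR hne hmin
    have h1 := sumStmt Γ α (ev α g) (Sel fsF fsT) C
      (fun η₀ h1 h2 => regStmt Γ α (ev α g) (Sel fsF fsT) C hα hG hg η₀ h1 h2) hcount
    have h2 := C.bad_count hx hz hy (fun w => (D.lab w).2)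
      (fun w hw => by
        rw [hk] at hw ⊢
        exact kd_lbl D.nodup hT hw)
      (fun w => line_sums D C.l C.p hl w)
    obtain ⟨G, hG1, hG2⟩ := fillers_le D hT
    have h3 := sum_abs_le D C.l C.p hl G hG1
    have h4 := card_out_le (g := g) (x := x) (y := y) (z := z) D.nodup D.lab
    have h5 := card_pure_ge (g := g) (x := x) (y := y) (z := z) D.nodup D.lab hT
    have e1 : Nat.card {w : Sel fsF fsT // (C.kind w).isOut = true} =
        Nat.card {w : Sel fsF fsT // (kd g x y z D.lab fsT w).isOut = true} := by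
      simp only [hk]
    have e2 : Nat.card {w : Sel fsF fsT // (C.kind w).isOut = false} =
        Nat.card {w : Sel fsF fsT // (kd g x y z D.lab fsT w).isOut = false} := by
      simp only [hk]
    rw [e1, e2] at h1
    have h6 : fsT.length ≤ 804 * fsF.flatten.length + 401 * C.nbad := by
      have : 804 * Nat.card {w : Sel fsF fsT // (kd g x y z D.lab fsT w).isOut = true} ≤
          804 * fsF.flatten.length := Nat.mul_le_mul_left _ h4
      omega
    have h7 : (fsT.length : ℤ) ≤ 804 * fsF.flatten.length + 401 * C.nbad := by exact_mod_cast h6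
    have h8 : x * fsT.length ≤ x * (804 * fsF.flatten.length + 401 * C.nbad) :=
      mul_le_mul_of_nonneg_left h7 hx.le
    linarith
  · have h1 : fsT.length = 0 := by
      rw [List.length_eq_zero_iff]
      by_contra hcon
      obtain ⟨c, hc⟩ := List.exists_mem_of_ne_nil fsT hcon
      have h1 : 0 < c.length := by rw [hT.length hc]; omega
      exact hne ⟨_, Or.inr ⟨c, 0, hc, by omega, List.getElem?_eq_getElem h1⟩⟩
    rw [h1]
    simp only [Nat.cast_zero, mul_zero, zero_mul, zero_add]
    have h2 : 0 ≤ (fsR.map (fun c => nrm (c.map D.lab))).sum := by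
      refine List.sum_nonneg ?_
      intro a ha
      obtain ⟨s, -, rfl⟩ := List.mem_map.1 ha
      exact nrm_nonneg _
    positivity

end LFS

end Pool.Agent.ABA
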