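import Pool.Agent.Helper83_ABA.Coarse

/-! # REG: enumeration of the cyclic corner words of cost < 1206 -/

namespace Pool.Agent.ABA

namespace Kind

/-- cost of the corner b and of the pass before it, a being the previous corner -/
def stp (a b : Kind) : ℕ := b.cor + pas b a.nxt

def okk (a b : Kind) : Bool := b.ty == a.nxt.ty

def pks : List Kind := [al, be, ga, al', be', ga']

theorem mem_pks {a : Kind} (h : a.isOut = false) : a ∈ pks := by
  cases a <;> simp_all [pks, isOut]

theorem stp_ge {a b : Kind} (h : b.isOut = false) : 198 ≤ stp a b := by
  cases b <;> simp_all [stp, cor, isOut] <;> omega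

/-- the 17 classes of cyclic words -/
def short : List (List Kind) :=
  [[al'], [ga], [al, be'], [al', al'], [al', ga], [be, ga'], [ga, ga], [al, be', al'],
   [al, be', ga], [al', al', ga], [al', ga, ga], [al', ga', be], [be, ga, ga'],
   [al, be', al, be'], [al', ga, al', ga], [be, ga', be, ga'], [al', ga, al', ga, al', ga]]

def isb (w : List Kind) : Bool := (List.range w.length).any (fun i => decide (w.rotate i ∈ short))

def chk (first : Kind) : ℕ → Kind → ℕ → List Kind → Bool
  | 0, prev, acc, path => !(okk prev first) || decide (1206 ≤ acc + stp prev first) || isb path
  | n + 1, prev, acc, path =>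
    (!(okk prev first) || decide (1206 ≤ acc + stp prev first) || isb path) &&
    pks.all (fun b => !(okk prev b) || decide (1206 ≤ acc + stp prev b) ||
      chk first n b (acc + stp prev b) (path ++ [b]))

def total (first : Kind) : Kind → List Kind → ℕ
  | prev, [] => stp prev first
  | prev, b :: t => stp prev b + total first b t

def valid (first : Kind) : Kind → List Kind → Prop
  | prev, [] => okk prev first = true
  | prev, b :: t => b.isOut = false ∧ okk prev b = true ∧ valid first b t

theorem chk_sound (first : Kind) (n : ℕ) : ∀ (prev : Kind) (acc : ℕ) (path t : List Kind),
    chk first n prev acc path = true → t.length ≤ n → valid first prev t →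
    acc + total first prev t < 1206 → isb (path ++ t) = true := by
  induction n with
  | zero =>
    intro prev acc path t h ht hv hc
    have : t = [] := List.length_eq_zero_iff.1 (by omega)
    subst this
    simp only [chk, Bool.or_eq_true, Bool.not_eq_true', decide_eq_true_eq] at h
    simp only [valid] at hv
    simp only [total] at hc
    rw [List.append_nil]
    rcases h with (h | h) | h
    · rw [hv] at h; simp at h
    · omega
    · exact h
  | succ n ih =>
    intro prev acc path t h ht hv hc
    simp only [chk, Bool.and_eq_true, Bool.or_eq_true, Bool.not_eq_true', decide_eq_true_eq,
      List.all_eq_true] at h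
    obtain ⟨h1, h2⟩ := h
    cases t with
    | nil =>
      simp only [valid] at hv
      simp only [total] at hc
      rw [List.append_nil]
      rcases h1 with (h | h) | h
      · rw [hv] at h; simp at h
      · omega
      · exact h
    | cons b t =>
      simp only [valid] at hv
      simp only [total] at hc
      obtain ⟨hb, hok, hv'⟩ := hv
      rcases h2 b (mem_pks hb) with (h | h) | h
      · rw [hok] at h; simp at h
      · omega
      · have := ih b (acc + stp prev b) (path ++ [b]) t h
          (by simp only [List.length_cons] at ht; omega) hv' (by omega)
        rw [List.append_assoc] at this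
        exact this

theorem chk_all : ∀ a ∈ pks, chk a 5 a 0 [a] = true := by decide

theorem total_ge (first : Kind) : ∀ (t : List Kind) (prev : Kind), first.isOut = false →
    valid first prev t → 198 * (t.length + 1) ≤ total first prev t := by
  intro t
  induction t with
  | nil =>
    intro prev hf _
    simp only [total, List.length_nil]
    have := stp_ge (a := prev) hf
    omega
  | cons b t ih =>
    intro prev hf hv
    simp only [valid] at hv
    simp only [total, List.length_cons]
    have h1 := stp_ge (a := prev) hv.1
    have h2 := ih b hf hv.2.2
    omega

/-- every cyclic word of cost < 1206 is a rotation of one of the 17 words -/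
theorem isb_of_total {a : Kind} {t : List Kind} (ha : a.isOut = false) (hv : valid a a t)
    (ht : total a a t < 1206) : isb (a :: t) = true := by
  have h1 := total_ge a t a ha hv
  have h2 := chk_sound a 5 a 0 [a] t (chk_all a (mem_pks ha)) (by omega) hv (by omega)
  simpa using h2

end Kind

end Pool.Agent.ABA
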