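import Pool.Agent.Helper70_ABA.Trip

/-!
# The exceptional case: algebra (MP_d857f1_al, part B, module EXCC; plan section 8)
-/

set_option autoImplicit false

namespace Pool.Agent.ABA.B.Exc

open Pool.Agent.ABA Pool.Agent.ABA.B Pool.Agent.ABA.B.TG Pool.Agent.ABA.B.H17

/-! ## two lemmas in `G` -/

section grp

variable {H : Type*} [Group H] {A B : Subgroup H}

/-- three rotations, two of them with the centres `1` and `h` -/
theorem r3_use (hgeo : Geo A B) {h : H} (hh : h ∉ A) {x y X k : H} (hx : x ∈ A) (hy : y ∈ A)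
    (hX : X ∈ A) (hx1 : x ≠ 1) (hy1 : y ≠ 1) (hX1 : X ≠ 1)
    (he : k * X * k⁻¹ = h * x * h⁻¹ * y) : False := by
  have h1 : k ∉ A := by
    intro hk
    apply hh
    refine hgeo.aa h x hx ?_ hx1
    have : h * x * h⁻¹ = k * X * k⁻¹ * y⁻¹ := by rw [he]; group
    rw [this]
    exact A.mul_mem (A.mul_mem (A.mul_mem hk hX) (A.inv_mem hk)) (A.inv_mem hy)
  have h2 : h⁻¹ * k ∉ A := by
    intro hk
    have h3 : h * (((h⁻¹ * k) * X * (h⁻¹ * k)⁻¹)⁻¹ * x) * h⁻¹ = y⁻¹ := by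
      have : h * (((h⁻¹ * k) * X * (h⁻¹ * k)⁻¹)⁻¹ * x) * h⁻¹ = (k * X * k⁻¹)⁻¹ * (h * x * h⁻¹) := by
        group
      rw [this, he]
      group
    have h4 : ((h⁻¹ * k) * X * (h⁻¹ * k)⁻¹)⁻¹ * x ∈ A :=
      A.mul_mem (A.inv_mem (A.mul_mem (A.mul_mem hk hX) (A.inv_mem hk))) hx
    by_cases h5 : ((h⁻¹ * k) * X * (h⁻¹ * k)⁻¹)⁻¹ * x = 1
    · rw [h5] at h3
      apply hy1
      have : y = (y⁻¹)⁻¹ := by group
      rw [this, ← h3]
      group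
    · exact hh (hgeo.aa h _ h4 (by rw [h3]; exact A.inv_mem hy) h5)
  refine hgeo.r3 h 1 k x y X⁻¹ hx hy (A.inv_mem hX) hx1 hy1 (inv_ne_one.2 hX1) ?_ ?_ h2 ?_
  · rw [mul_one]
    exact fun h' => hh ((A.inv_mem_iff).1 h')
  · rw [inv_one, one_mul]
    exact h1
  · have : h * x * h⁻¹ * (1 * y * 1⁻¹) * (k * X⁻¹ * k⁻¹) =
        h * x * h⁻¹ * y * (k * X * k⁻¹)⁻¹ := by group
    rw [this, he]
    group

theorem alg34 (hgeo : Geo A B) (hA : ∀ x ∈ A, ∀ y ∈ A, x * y = y * x) {h : H} (hh : h ∉ A)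
    {a1 a3 b x X k : H} (ha1 : a1 ∈ A) (ha3 : a3 ∈ A) (hb : b ∈ B) (hb1 : b ≠ 1) (hx : x ∈ A)
    (e1 : a1 * b * a3⁻¹ = h * x * h⁻¹) (hX : X ∈ A) (hX1 : X ≠ 1) (e2 : b * x⁻¹ = k * X * k⁻¹) :
    False := by
  have hx1 : x ≠ 1 := by
    rintro rfl
    apply hb1
    apply hgeo.ab b _ hb
    have : b = a1⁻¹ * a3 := by
      have h2 : a1 * b * a3⁻¹ = 1 := by rw [e1]; group
      have : b = a1⁻¹ * (a1 * b * a3⁻¹) * a3 := by group
      rw [this, h2]; group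
    rw [this]
    exact A.mul_mem (A.inv_mem ha1) ha3
  by_cases h1 : a3 * x⁻¹ * a1⁻¹ = 1
  · have h2 : a3 = a1 * x := by
      have : a3 = (a3 * x⁻¹ * a1⁻¹) * a1 * x := by group
      rw [this, h1]; group
    refine hgeo.el (a1⁻¹ * h) x hx b hb hx1 hb1 ?_
    have h3 : b = a1⁻¹ * (a1 * b * a3⁻¹) * a3 := by group
    rw [e1, h2] at h3
    rw [h3]
    group
  · refine r3_use hgeo hh hx (A.mul_mem (A.mul_mem ha3 (A.inv_mem hx)) (A.inv_mem ha1)) hX hx1 h1 hX1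
      (k := a1 * k) ?_
    have h4 : a1 * k * X * (a1 * k)⁻¹ = a1 * (k * X * k⁻¹) * a1⁻¹ := by group
    rw [h4, ← e2]
    have h5 : a1 * (b * x⁻¹) * a1⁻¹ = (a1 * b * a3⁻¹) * (a3 * x⁻¹ * a1⁻¹) := by group
    rw [h5, e1]

theorem alg12 (hgeo : Geo A B) (hA : ∀ x ∈ A, ∀ y ∈ A, x * y = y * x) {h : H} (hh : h ∉ A)
    {a a1 a3 b X k : H} (ha : a ∈ A) (ha1 : a1 ∈ A) (ha3 : a3 ∈ A) (hb : b ∈ B) (hne : a ≠ 1)
    (e1 : a1 * (h * a * h⁻¹) * a3⁻¹ = b) (hX : X ∈ A) (hX1 : X ≠ 1) (e2 : a * b⁻¹ = k * X * k⁻¹) :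
    False := by
  have hb1 : b ≠ 1 := by
    rintro rfl
    apply hh
    refine hgeo.aa h a ha ?_ hne
    have : h * a * h⁻¹ = a1⁻¹ * (a1 * (h * a * h⁻¹) * a3⁻¹) * a3 := by group
    rw [this, e1, mul_one]
    exact A.mul_mem (A.inv_mem ha1) ha3
  by_cases h1 : a1⁻¹ * a * a3 = 1
  · have h2 : a3⁻¹ = a1⁻¹ * a := (mul_eq_one_iff_eq_inv.1 h1).symm
    refine hgeo.el (a1 * h) a ha b hb hne hb1 ?_
    rw [← e1, h2]
    have h3 : a1⁻¹ * a = a * a1⁻¹ := hA _ (A.inv_mem ha1) _ ha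
    rw [h3]
    have h4 : a1 * h * a * (a1 * h)⁻¹ * a = a1 * (h * a * h⁻¹) * (a1⁻¹ * a) := by group
    rw [h4, h3]
  · -- the inverse relation
    have e3 : (a1⁻¹ * k) * X⁻¹ * (a1⁻¹ * k)⁻¹ = h * a * h⁻¹ * (a1⁻¹ * a * a3)⁻¹ := by
      have h5 : (a1⁻¹ * k) * X⁻¹ * (a1⁻¹ * k)⁻¹ = a1⁻¹ * (k * X * k⁻¹)⁻¹ * a1 := by group
      rw [h5, ← e2, ← e1]
      group
    exact r3_use hgeo hh ha (A.inv_mem (A.mul_mem (A.mul_mem (A.inv_mem ha1) ha) ha3))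
      (A.inv_mem hX) hne (inv_ne_one.2 h1) (inv_ne_one.2 hX1) e3

end grp

variable {G : Type} [Group G] {A B : Subgroup G} {g : G}

/-- a nontrivial element `τ m τ⁻¹` (`m ∈ G`) that stabilizes a plane -/
theorem rotG (hF : FixStmt A B g) (hι : Function.Injective (Pι A B g)) {c : Car A B g}
    (hc : IsPl c) {τ w : PP A B g} {m : G} (hw : w ≠ 1) (hwc : w • c = c)
    (he : w = τ * Pι A B g m * τ⁻¹) : ∃ k : G, ∃ X ∈ A, X ≠ 1 ∧ m = k * X * k⁻¹ := by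
  have hr : Rot w := by
    rw [he, Rot_conj]
    exact ⟨dg_ι _ _ _, dg_ι _ _ _⟩
  have h1 : w • (vx τ : XV A B g) = vx τ := by
    rw [smul_vx]
    refine (vx_eq.2 ⟨m, ?_⟩).symm
    rw [he]; group
  have h2 : On c (vx τ) := ((hF c w hw hwc).1 hr _).1 h1
  obtain ⟨q, hq, h3⟩ := h2
  obtain ⟨k, rfl⟩ := vx_eq.1 hq
  obtain ⟨q', hq'⟩ := hc
  have h4 : c = plane (τ * Pι A B g k) := by
    rcases h3 with h3 | h3
    · exact h3
    · rw [hq'] at h3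
      exact absurd h3 plane_ne_line
  rw [h4, stab_plane] at hwc
  have h5 : (τ * Pι A B g k)⁻¹ * w * (τ * Pι A B g k) = Pι A B g (k⁻¹ * m * k) := by
    rw [he, map_mul, map_mul, map_inv]
    group
  rw [h5, ι_PA hι] at hwc
  refine ⟨k, k⁻¹ * m * k, hwc, ?_, by group⟩
  intro h6
  apply hw
  have h7 : m = 1 := by
    have : m = k * (k⁻¹ * m * k) * k⁻¹ := by group
    rw [this, h6]; group
  rw [he, h7, map_one]
  group

/-- an element that stabilizes the plane `q` and moves `vx q` to `vx (q t)`, `t ∈ PA` -/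
theorem stab_form (hι : Function.Injective (Pι A B g)) {q t z : PP A B g} (ht : t ∈ PA A B g)
    (h1 : z • (plane q : Car A B g) = plane q)
    (h2 : (vx (q * t) : XV A B g) = z • vx q) : ∃ a ∈ A, z = q * (t * Pι A B g a) * q⁻¹ := by
  rw [smul_vx] at h2
  obtain ⟨k, hk⟩ := vx_eq.1 h2
  rw [stab_plane] at h1
  have h3 : q⁻¹ * z * q = t * Pι A B g k := by
    rw [mul_assoc, hk]; group
  have h4 : Pι A B g k ∈ PA A B g := by
    have : Pι A B g k = t⁻¹ * (q⁻¹ * z * q) := by rw [h3]; group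
    rw [this]
    exact mul_mem (inv_mem ht) h1
  refine ⟨k, (ι_PA hι).1 h4, ?_⟩
  rw [← h3]; group

/-- cases 1 and 2 -/
theorem case12 (hF : FixStmt A B g) (hgeo : Geo A B) (hι : Function.Injective (Pι A B g))
    (hA : ∀ x ∈ A, ∀ y ∈ A, x * y = y * x) {T : Trp A B g} (hT : T.Ok) (hc2 : IsPl T.c2)
    {r t τ γ : PP A B g} {h a a1 a3 b : G} (hh : h ∉ A) (ha : a ∈ A) (ha1 : a1 ∈ A) (ha3 : a3 ∈ A)
    (hb : b ∈ B) (hne : a ≠ 1)
    (h1 : T.z1 = r * Pι A B g h * (t * Pι A B g a1) * (r * Pι A B g h)⁻¹)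
    (h3 : T.z3⁻¹ = r * Pι A B g a * Pι A B g h * (t * Pι A B g a3) *
      (r * Pι A B g a * Pι A B g h)⁻¹)
    (hb2 : a1 * (h⁻¹ * a * h) * a3⁻¹ = b) (hτ : Pι A B g h * t = τ * γ)
    (c1 : Commute (Pι A B g a) τ) (c2 : Commute γ (Pι A B g b)) : False := by
  have hw : T.z3⁻¹ * T.z1⁻¹ = (r * τ) * Pι A B g (a * b⁻¹) * (r * τ)⁻¹ := by
    have e1 : T.z3⁻¹ * T.z1⁻¹ = r * (Pι A B g a * (Pι A B g h * t) *
        Pι A B g (a3 * (h⁻¹ * a * h)⁻¹ * a1⁻¹) * (Pι A B g h * t)⁻¹) * r⁻¹ := by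
      rw [h1, h3]
      simp only [map_mul, map_inv]
      group
    have e2 : a3 * (h⁻¹ * a * h)⁻¹ * a1⁻¹ = b⁻¹ := by rw [← hb2]; group
    have e3 : γ * (Pι A B g b)⁻¹ * γ⁻¹ = (Pι A B g b)⁻¹ := by
      rw [c2.inv_right.eq]; group
    rw [e1, e2, hτ, map_mul, map_inv]
    calc r * (Pι A B g a * (τ * γ) * (Pι A B g b)⁻¹ * (τ * γ)⁻¹) * r⁻¹
        = r * ((Pι A B g a * τ) * (γ * (Pι A B g b)⁻¹ * γ⁻¹) * τ⁻¹) * r⁻¹ := by group
      _ = _ := by rw [e3, c1.eq]; group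
  have hz : T.z3⁻¹ = T.z1 * T.z2 := by
    rw [inv_eq_iff_mul_eq_one.2]
    have := mul3_cyc (mul3_cyc hT.mul)
    rwa [← mul_assoc]
  have hw2 : T.z3⁻¹ * T.z1⁻¹ = T.z1 * T.z2 * T.z1⁻¹ := by rw [hz]
  obtain ⟨k, X, hX, hX1, e⟩ := rotG hF hι (hc2.smul T.z1) (w := T.z3⁻¹ * T.z1⁻¹)
    (by rw [hw2]; exact conj_ne_one hT.n2) (by rw [hw2]; exact stab_conj hT.s2) hw
  have hh' : h⁻¹ ∉ A := fun h' => hh ((A.inv_mem_iff).1 h')
  refine alg12 hgeo hA hh' ha ha1 ha3 hb hne ?_ hX hX1 e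
  rw [_root_.inv_inv]
  exact hb2

/-- cases 3 and 4 -/
theorem case34 (hF : FixStmt A B g) (hgeo : Geo A B) (hι : Function.Injective (Pι A B g))
    (hA : ∀ x ∈ A, ∀ y ∈ A, x * y = y * x) {T : Trp A B g} (hT : T.Ok) (hc2 : IsPl T.c2)
    {q t τ γ : PP A B g} {h x a1 a3 b : G} (hh : h ∉ A) (hx : x ∈ A) (ha1 : a1 ∈ A) (ha3 : a3 ∈ A)
    (hb : b ∈ B) (hne : b ≠ 1)
    (h1 : T.z1 = q * (t * Pι A B g a1) * q⁻¹)
    (h3 : T.z3⁻¹ = q * Pι A B g b * (t * Pι A B g a3) * (q * Pι A B g b)⁻¹)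
    (hb2 : a1 * b * a3⁻¹ = h * x * h⁻¹) (hτ : t * Pι A B g h = γ * τ)
    (c1 : Commute τ (Pι A B g x)) (c2 : Commute γ (Pι A B g b)) : False := by
  have hw : T.z3⁻¹ * T.z1⁻¹ = (q * γ) * Pι A B g (b * x⁻¹) * (q * γ)⁻¹ := by
    have e1 : T.z3⁻¹ * T.z1⁻¹ = q * (Pι A B g b * t *
        Pι A B g (a3 * b⁻¹ * a1⁻¹) * t⁻¹) * q⁻¹ := by
      rw [h1, h3]
      simp only [map_mul, map_inv]
      group
    have e2 : a3 * b⁻¹ * a1⁻¹ = h * x⁻¹ * h⁻¹ := by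
      have : a3 * b⁻¹ * a1⁻¹ = (a1 * b * a3⁻¹)⁻¹ := by group
      rw [this, hb2]; group
    have e3 : τ * (Pι A B g x)⁻¹ * τ⁻¹ = (Pι A B g x)⁻¹ := by
      rw [c1.inv_right.eq]; group
    rw [e1, e2]
    simp only [map_mul, map_inv]
    calc q * (Pι A B g b * t * (Pι A B g h * (Pι A B g x)⁻¹ * (Pι A B g h)⁻¹) * t⁻¹) * q⁻¹
        = q * (Pι A B g b * (t * Pι A B g h) * (Pι A B g x)⁻¹ * (t * Pι A B g h)⁻¹) * q⁻¹ := by
          group
      _ = q * ((Pι A B g b * γ) * (τ * (Pι A B g x)⁻¹ * τ⁻¹) * γ⁻¹) * q⁻¹ := by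
          rw [hτ]; group
      _ = _ := by rw [e3, ← c2.eq]; group
  have hz : T.z3⁻¹ = T.z1 * T.z2 := by
    rw [inv_eq_iff_mul_eq_one.2]
    have := mul3_cyc (mul3_cyc hT.mul)
    rwa [← mul_assoc]
  have hw2 : T.z3⁻¹ * T.z1⁻¹ = T.z1 * T.z2 * T.z1⁻¹ := by rw [hz]
  obtain ⟨k, X, hX, hX1, e⟩ := rotG hF hι (hc2.smul T.z1) (w := T.z3⁻¹ * T.z1⁻¹)
    (by rw [hw2]; exact conj_ne_one hT.n2) (by rw [hw2]; exact stab_conj hT.s2) hw
  exact alg34 hgeo hA hh ha1 ha3 hb hne hx hb2 hX hX1 e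

theorem uc_eq (r : PP A B g) : r * Pu A B g * Pc A B g = r * Pι A B g g * (Pv A B g)⁻¹ := by
  rw [mul_assoc, mul_assoc, P_g2]

theorem actE_solve {z : PP A B g} {e f : XE A B g} (h : actE z f = e) : f = actE z⁻¹ e := by
  have : actE z⁻¹ (actE z f) = f := by
    rw [← Function.comp_apply (f := actE z⁻¹), ← actE_mul, inv_mul_cancel, actE_one]
    rfl
  rw [← h, this]

theorem stab_act_eq {q t : PP A B g} {a : G} {z : PP A B g}
    (hz : z = q * (t * Pι A B g a) * q⁻¹) : z⁻¹ * (q * t) = q * (Pι A B g a)⁻¹ := by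
  rw [hz]; group

/-- **The lozenge is impossible.** -/
theorem lozenge (hF : FixStmt A B g) (hg : ¬ IsABA A B g) (hgeo : Geo A B)
    (hι : Function.Injective (Pι A B g))
    (hA : ∀ x ∈ A, ∀ y ∈ A, x * y = y * x) {T : Trp A B g} (hT : T.Ok) (hc1 : IsPl T.c1)
    (hc2 : IsPl T.c2) (hc3 : IsPl T.c3) {n s t f : XE A B g} (hs : car s = T.c1)
    (ht : car t = T.c3) (h1 : XT n s (actE T.z1 f)) (h2 : XT n t (actE T.z3⁻¹ f))
    (hs2 : xsrc (xinv s) = T.z1 • xsrc s) (ht2 : xsrc (xinv t) = T.z3⁻¹ • xsrc t)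
    (hn1 : car n ≠ T.c1) (hn3 : car n ≠ T.c3) : False := by
  have hgA : g ∉ A := not_mem_A hg
  have hgA' : g⁻¹ ∉ A := fun h' => hgA ((A.inv_mem_iff).1 h')
  have hb1 : ∀ {b : G}, b ∈ B → Commute (Pc A B g) (Pι A B g b) := fun hb => P_cb A B g hb
  have ha1 : ∀ {a : G}, a ∈ A → Commute (Pu A B g) (Pι A B g a) := fun ha => P_ua A B g ha
  have ha2 : ∀ {a : G}, a ∈ A → Commute (Pv A B g) (Pι A B g a) := fun ha => P_va A B g ha
  have h13 := hT.d13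
  have s1 := hT.s1
  have s3 := stab_inv hT.s3
  rcases h1.elim' with ⟨m, p, e1, e2, e3⟩ | ⟨m, p, e1, e2, e3⟩ | ⟨p, e1, e2, e3⟩ |
    ⟨p, e1, e2, e3⟩ | ⟨p, e1, e2, e3⟩ | ⟨p, e1, e2, e3⟩ | ⟨p, e1, e2, e3⟩ | ⟨p, e1, e2, e3⟩
  · exact hn1 (by rw [← hs, e1, e2, car_eA, car_eA])
  · exact hn1 (by rw [← hs, e1, e2, car_eA, car_eA])
  · -- n = V', s = U: case 2
    rcases h2.elim' with ⟨m, p', e4, e5, e6⟩ | ⟨m, p', e4, e5, e6⟩ | ⟨p', e4, e5, e6⟩ |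
      ⟨p', e4, e5, e6⟩ | ⟨p', e4, e5, e6⟩ | ⟨p', e4, e5, e6⟩ | ⟨p', e4, e5, e6⟩ | ⟨p', e4, e5, e6⟩
    · exact hn3 (by rw [← ht, e4, e5, car_eA, car_eA])
    · exact hn3 (by rw [← ht, e4, e5, car_eA, car_eA])
    · rw [e1, eA_eq] at e4
      obtain ⟨-, a, ha, hp'⟩ := e4
      have hp2 : p' = p * Pι A B g g * Pι A B g a * Pι A B g g⁻¹ := by
        rw [map_inv, ← hp']; group
      rw [e2, car_eA] at hs
      rw [e5, car_eA] at ht
      rw [e2, xinv_eA, xsrc_eA, xsrc_eA] at hs2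
      rw [e5, xinv_eA, xsrc_eA, xsrc_eA] at ht2
      rw [← hs] at s1
      rw [← ht] at s3
      obtain ⟨a1, ha1', f1⟩ := stab_form hι (trn_PA .U) s1 hs2
      obtain ⟨a3, ha3', f3⟩ := stab_form hι (trn_PA .U) s3 ht2
      have g1 := actE_solve e3
      have g3 := actE_solve e6
      rw [g1, actE_eC, actE_eC, eC_eq] at g3
      obtain ⟨-, b, hb, g3⟩ := g3
      have k1 : T.z1⁻¹ * (p * Pu A B g) = p * (Pι A B g a1)⁻¹ := stab_act_eq f1
      have k3 : T.z3⁻¹⁻¹ * (p' * Pu A B g) = p' * (Pι A B g a3)⁻¹ := stab_act_eq f3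
      rw [k1, k3, hp2] at g3
      have hab : a1 * (g⁻¹⁻¹ * a * g⁻¹) * a3⁻¹ = b := by
        apply hι
        simp only [map_mul, map_inv, _root_.inv_inv] at g3 ⊢
        have : Pι A B g b = (p * (Pι A B g a1)⁻¹)⁻¹ * (p * (Pι A B g a1)⁻¹ * Pι A B g b) := by
          group
        rw [this, ← g3]
        group
      have hne : a ≠ 1 := by
        rintro rfl
        apply h13
        rw [← hs, ← ht, hp2, map_one]
        congr 1
        simp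
      refine case12 hF hgeo hι hA hT hc2 (r := p * Pι A B g g) (t := Pu A B g)
        (τ := (Pv A B g)⁻¹) (γ := (Pc A B g)⁻¹) (h := g⁻¹) hgA' ha ha1' ha3' hb hne ?_ ?_ hab ?_
        ((ha2 ha).symm.inv_right) (hb1 hb).inv_left
      · rw [f1, map_inv, mul_inv_cancel_right]
        rfl
      · rw [f3, hp2]
        rfl
      · rw [map_inv, P_g]
        group
    · rw [e1, eA_eq] at e4
      exact absurd e4.1 (by decide)
    · rw [e1] at e4; exact absurd e4 eA_ne_eC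
    · rw [e1, eA_eq] at e4
      exact absurd e4.1 (by decide)
    · rw [e1, eA_eq] at e4
      exact absurd e4.1 (by decide)
    · rw [e1] at e4; exact absurd e4 eA_ne_eC
  · -- n = U, s = V': case 1
    rcases h2.elim' with ⟨m, p', e4, e5, e6⟩ | ⟨m, p', e4, e5, e6⟩ | ⟨p', e4, e5, e6⟩ |
      ⟨p', e4, e5, e6⟩ | ⟨p', e4, e5, e6⟩ | ⟨p', e4, e5, e6⟩ | ⟨p', e4, e5, e6⟩ | ⟨p', e4, e5, e6⟩
    · exact hn3 (by rw [← ht, e4, e5, car_eA, car_eA])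
    · exact hn3 (by rw [← ht, e4, e5, car_eA, car_eA])
    · rw [e1, eA_eq] at e4
      exact absurd e4.1 (by decide)
    · rw [e1, eA_eq] at e4
      obtain ⟨-, a, ha, hp2⟩ := e4
      rw [e2, car_eA] at hs
      rw [e5, car_eA] at ht
      rw [e2, xinv_eA, xsrc_eA, xsrc_eA] at hs2
      rw [e5, xinv_eA, xsrc_eA, xsrc_eA] at ht2
      rw [← hs] at s1
      rw [← ht] at s3
      obtain ⟨a1, ha1', f1⟩ := stab_form hι (trn_PA .V') s1 hs2
      obtain ⟨a3, ha3', f3⟩ := stab_form hι (trn_PA .V') s3 ht2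
      rw [uc_eq] at e3 e6
      have g1 := actE_solve e3
      have g3 := actE_solve e6
      rw [g1, actE_eC, actE_eC, eC_eq] at g3
      obtain ⟨-, b, hb, g3⟩ := g3
      have k1 : T.z1⁻¹ * (p * Pι A B g g * (Pv A B g)⁻¹) = p * Pι A B g g * (Pι A B g a1)⁻¹ :=
        stab_act_eq f1
      have k3 : T.z3⁻¹⁻¹ * (p' * Pι A B g g * (Pv A B g)⁻¹) =
        p' * Pι A B g g * (Pι A B g a3)⁻¹ := stab_act_eq f3
      rw [k1, k3, hp2] at g3
      have hab : a1 * (g⁻¹ * a * g) * a3⁻¹ = b := by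
        apply hι
        simp only [map_mul, map_inv] at g3 ⊢
        have : Pι A B g b = (p * Pι A B g g * (Pι A B g a1)⁻¹)⁻¹ *
            (p * Pι A B g g * (Pι A B g a1)⁻¹ * Pι A B g b) := by
          group
        rw [this, ← g3]
        group
      have hne : a ≠ 1 := by
        rintro rfl
        apply h13
        rw [← hs, ← ht, hp2, map_one, mul_one]
      refine case12 hF hgeo hι hA hT hc2 (r := p) (t := (Pv A B g)⁻¹)
        (τ := Pu A B g) (γ := Pc A B g) (h := g) hgA ha ha1' ha3' hb hne ?_ ?_ hab ?_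
        ((ha1 ha).symm) (hb1 hb)
      · rw [f1]
        rfl
      · rw [f3, hp2]
        rfl
      · exact P_g2
    · rw [e1] at e4; exact absurd e4 eA_ne_eC
    · rw [e1, eA_eq] at e4
      exact absurd e4.1 (by decide)
    · rw [e1, eA_eq] at e4
      exact absurd e4.1 (by decide)
    · rw [e1] at e4; exact absurd e4 eA_ne_eC
  · -- n = C, s = U': case 3
    rcases h2.elim' with ⟨m, p', e4, e5, e6⟩ | ⟨m, p', e4, e5, e6⟩ | ⟨p', e4, e5, e6⟩ |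
      ⟨p', e4, e5, e6⟩ | ⟨p', e4, e5, e6⟩ | ⟨p', e4, e5, e6⟩ | ⟨p', e4, e5, e6⟩ | ⟨p', e4, e5, e6⟩
    · rw [e1] at e4; exact absurd e4.symm eA_ne_eC
    · rw [e1] at e4; exact absurd e4.symm eA_ne_eC
    · rw [e1] at e4; exact absurd e4.symm eA_ne_eC
    · rw [e1] at e4; exact absurd e4.symm eA_ne_eC
    · rw [e1, eC_eq] at e4
      obtain ⟨-, b, hb, hp2⟩ := e4
      rw [e2, car_eA] at hs
      rw [e5, car_eA] at ht
      rw [e2, xinv_eA, xsrc_eA, xsrc_eA] at hs2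
      rw [e5, xinv_eA, xsrc_eA, xsrc_eA] at ht2
      rw [← hs] at s1
      rw [← ht] at s3
      obtain ⟨a1, ha1', f1⟩ := stab_form hι (trn_PA .U') s1 hs2
      obtain ⟨a3, ha3', f3⟩ := stab_form hι (trn_PA .U') s3 ht2
      have g1 := actE_solve e3
      have g3 := actE_solve e6
      rw [g1, actE_eA, actE_eA, eA_eq] at g3
      obtain ⟨-, x, hx, g3⟩ := g3
      have k1 : T.z1⁻¹ * (p * (Pu A B g)⁻¹ * Pι A B g g) = p * (Pι A B g a1)⁻¹ * Pι A B g g := by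
        rw [← mul_assoc T.z1⁻¹]; exact congrArg (· * Pι A B g g) (stab_act_eq f1)
      have k3 : T.z3⁻¹⁻¹ * (p' * (Pu A B g)⁻¹ * Pι A B g g) =
          p' * (Pι A B g a3)⁻¹ * Pι A B g g := by
        rw [← mul_assoc T.z3⁻¹⁻¹]; exact congrArg (· * Pι A B g g) (stab_act_eq f3)
      rw [k1, k3, hp2] at g3
      have hab : a1 * b * a3⁻¹ = g * x * g⁻¹ := by
        apply hι
        simp only [map_mul, map_inv] at g3 ⊢
        have : Pι A B g a1 * Pι A B g b * (Pι A B g a3)⁻¹ = (p * (Pι A B g a1)⁻¹)⁻¹ *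
            (p * Pι A B g b * (Pι A B g a3)⁻¹ * Pι A B g g) * (Pι A B g g)⁻¹ := by
          group
        rw [this, g3]
        group
      have hne : b ≠ 1 := by
        rintro rfl
        apply h13
        rw [← hs, ← ht, hp2, map_one, mul_one]
      refine case34 hF hgeo hι hA hT hc2 (q := p) (t := (Pu A B g)⁻¹)
        (τ := Pv A B g) (γ := Pc A B g) (h := g) hgA hx ha1' ha3' hb hne f1 ?_ hab P_g1
        (ha2 hx) (hb1 hb)
      rw [f3, hp2]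
      rfl
    · rw [e1] at e4; exact absurd e4.symm eA_ne_eC
    · rw [e1] at e4; exact absurd e4.symm eA_ne_eC
    · rw [e1, eC_eq] at e4
      exact absurd e4.1 (by decide)
  · exfalso
    obtain ⟨q, hq⟩ := hc1
    rw [e2, hq, car_eC] at hs
    exact plane_ne_line hs.symm
  · exfalso
    obtain ⟨q, hq⟩ := hc1
    rw [e2, hq, car_eC] at hs
    exact plane_ne_line hs.symm
  · -- n = C', s = V: case 4
    rcases h2.elim' with ⟨m, p', e4, e5, e6⟩ | ⟨m, p', e4, e5, e6⟩ | ⟨p', e4, e5, e6⟩ |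
      ⟨p', e4, e5, e6⟩ | ⟨p', e4, e5, e6⟩ | ⟨p', e4, e5, e6⟩ | ⟨p', e4, e5, e6⟩ | ⟨p', e4, e5, e6⟩
    · rw [e1] at e4; exact absurd e4.symm eA_ne_eC
    · rw [e1] at e4; exact absurd e4.symm eA_ne_eC
    · rw [e1] at e4; exact absurd e4.symm eA_ne_eC
    · rw [e1] at e4; exact absurd e4.symm eA_ne_eC
    · rw [e1, eC_eq] at e4
      exact absurd e4.1 (by decide)
    · rw [e1] at e4; exact absurd e4.symm eA_ne_eC
    · rw [e1] at e4; exact absurd e4.symm eA_ne_eC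
    · rw [e1, eC_eq] at e4
      obtain ⟨-, b, hb, hp2⟩ := e4
      rw [e2, car_eA] at hs
      rw [e5, car_eA] at ht
      rw [e2, xinv_eA, xsrc_eA, xsrc_eA] at hs2
      rw [e5, xinv_eA, xsrc_eA, xsrc_eA] at ht2
      rw [← hs] at s1
      rw [← ht] at s3
      obtain ⟨a1, ha1', f1⟩ := stab_form hι (trn_PA .V) s1 hs2
      obtain ⟨a3, ha3', f3⟩ := stab_form hι (trn_PA .V) s3 ht2
      have g1 := actE_solve e3
      have g3 := actE_solve e6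
      rw [g1, actE_eA, actE_eA, eA_eq] at g3
      obtain ⟨-, x, hx, g3⟩ := g3
      have k1 : T.z1⁻¹ * (p * Pv A B g * (Pι A B g g)⁻¹) =
          p * (Pι A B g a1)⁻¹ * (Pι A B g g)⁻¹ := by
        rw [← mul_assoc T.z1⁻¹]; exact congrArg (· * (Pι A B g g)⁻¹) (stab_act_eq f1)
      have k3 : T.z3⁻¹⁻¹ * (p' * Pv A B g * (Pι A B g g)⁻¹) =
          p' * (Pι A B g a3)⁻¹ * (Pι A B g g)⁻¹ := by
        rw [← mul_assoc T.z3⁻¹⁻¹]; exact congrArg (· * (Pι A B g g)⁻¹) (stab_act_eq f3)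
      rw [k1, k3, hp2] at g3
      have hab : a1 * b * a3⁻¹ = g⁻¹ * x * g⁻¹⁻¹ := by
        apply hι
        simp only [map_mul, map_inv] at g3 ⊢
        have : Pι A B g a1 * Pι A B g b * (Pι A B g a3)⁻¹ = (p * (Pι A B g a1)⁻¹)⁻¹ *
            (p * Pι A B g b * (Pι A B g a3)⁻¹ * (Pι A B g g)⁻¹) * Pι A B g g := by
          group
        rw [this, g3]
        group
      have hne : b ≠ 1 := by
        rintro rfl
        apply h13
        rw [← hs, ← ht, hp2, map_one, mul_one]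
      refine case34 hF hgeo hι hA hT hc2 (q := p) (t := Pv A B g)
        (τ := (Pu A B g)⁻¹) (γ := (Pc A B g)⁻¹) (h := g⁻¹) hgA' hx ha1' ha3' hb hne f1 ?_ hab ?_
        (ha1 hx).inv_left (hb1 hb).inv_left
      · rw [f3, hp2]
        rfl
      · rw [map_inv]
        exact P_g3

end Pool.Agent.ABA.B.Exc
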