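import Pool.Agent.Helper70_ABA.Count
import Pool.Agent.Helper89_ABA.Pres

/-! # LF for the new group -/

open Equiv Equiv.Perm H17ABA

namespace Pool.Agent.ABA

namespace LFS

theorem kk_inv_eq {s s' : Bool} {i i' : ℕ} (hi : i < 3) (hi' : i' < 3)
    (h : kk s' i' = (kk s i).inv) : s' = !s ∧ i' = 2 - i := by
  interval_cases i <;> interval_cases i' <;> cases s <;> cases s' <;>
    simp_all [kk, Kind.inv]

theorem ev_pair (g : Wd ℤ) (x y z : ℤ) (s : Bool) {i : ℕ} (hi : i < 3) :
    ev (αF ℤ) ((Ts g x y z s).rotate (i + 1)) * ev (αF ℤ) ((Ts g x y z (!s)).rotate (2 - i)) =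
      1 := by
  interval_cases i <;> cases s <;>
    simp [Ts, Tp, Tm, List.rotate_cons_succ, ev_append, ev_cons, ev_winv, pw_neg] <;> group

theorem rot_eq {Ω : Type} {c : List Ω} {i : ℕ} {w : Ω} (h : (c)[i]? = some w) :
    c.rotate (i + 1) = (c.drop (i + 1) ++ c.take i) ++ [w] := by
  obtain ⟨h1, h2⟩ := List.getElem?_eq_some_iff.1 h
  rw [List.rotate_eq_drop_append_take (by omega), List.take_succ, h]
  simp

theorem rot_eq' {Ω : Type} {c : List Ω} {i : ℕ} {w : Ω} (h : (c)[i]? = some w) :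
    c.rotate i = w :: (c.drop (i + 1) ++ c.take i) := by
  obtain ⟨h1, h2⟩ := List.getElem?_eq_some_iff.1 h
  rw [List.rotate_eq_drop_append_take (by omega), List.drop_eq_getElem_cons h1, h2]
  rfl

section

variable {g : Wd ℤ} {x y z : ℤ} {Ω : Type} [Fintype Ω] [DecidableEq Ω]
  {fsF fsT fsR : List (List Ω)}

/-- two inverse T-faces with a zero fold cancel -/
theorem cancel_T (D : FC ℤ Ω (fsF ++ (fsT ++ fsR))) (hT : TF g x y z D.lab fsT)
    {w : Ω} {n : ℕ} {c : List Ω} {i : ℕ} {c' : List Ω} {i' : ℕ} (hw : Long fsT c i w)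
    (hret : Ret D.l (Sel fsF fsT) w n) (hw' : Long fsT c' i' ((D.l ^ n) w))
    (hkk : kk (sg g x y z D.lab c') i' = (kk (sg g x y z D.lab c) i).inv)
    (hsum : ((btw D.l D.lab w n).map Prod.snd).sum = 0) :
    ∃ fsT' : List (List Ω), fsT'.length + 2 = fsT.length ∧ (∀ d ∈ fsT', d ∈ fsT) ∧
      ∃ D' : FC ℤ Ω (fsF ++ (fsT' ++ fsR)), ∀ v ∈ (fsF ++ (fsT' ++ fsR)).flatten,
        D'.lab v = D.lab v := by
  obtain ⟨hs, hi⟩ := kk_inv_eq hw.2.1 hw'.2.1 hkk
  have hcc : c ≠ c' := by
    rintro rfl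
    cases h : sg g x y z D.lab c <;> rw [h] at hs <;> exact absurd hs (by simp)
  have hmem : c' ∈ fsT.erase c := (List.mem_erase_of_ne (Ne.symm hcc)).2 hw'.1
  set fsT' := (fsT.erase c).erase c' with hfsT'
  have p1 : fsT.Perm (c :: fsT.erase c) := List.perm_cons_erase hw.1
  have p2 : (fsT.erase c).Perm (c' :: fsT') := List.perm_cons_erase hmem
  have p3 : fsT.Perm (c :: c' :: fsT') := p1.trans (p2.cons c)
  have hlen := p3.length_eq
  simp only [List.length_cons] at hlen
  refine ⟨fsT', by omega, ?_, ?_⟩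
  · intro d hd
    exact p3.symm.subset (List.mem_cons_of_mem _ (List.mem_cons_of_mem _ hd))
  · have p4 : (fsF ++ (fsT ++ fsR)).Perm (c :: c' :: (fsF ++ (fsT' ++ fsR))) := by
      have q1 : (fsF ++ (fsT ++ fsR)).Perm (fsF ++ ((c :: c' :: fsT') ++ fsR)) :=
        List.Perm.append_left _ (List.Perm.append_right _ p3)
      refine q1.trans ?_
      rw [List.cons_append, List.cons_append]
      refine List.perm_middle.trans ?_
      refine List.Perm.cons c ?_
      exact List.perm_middle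
    let D1 := D.ofPerm p4
    let D2 := D1.rot (e := (c.drop (i + 1) ++ c.take i) ++ [w]) ⟨i + 1, rot_eq hw.2.2⟩
    let D3 := D2.ofPerm (List.Perm.swap c' _ _)
    let D4 := D3.rot (e := (D.l ^ n) w :: (c'.drop (i' + 1) ++ c'.take i')) ⟨i', rot_eq' hw'.2.2⟩
    let D5 := D4.ofPerm (List.Perm.swap _ _ _)
    have hselw : w ∈ Sel fsF fsT := Or.inr ⟨c, i, hw⟩
    have hselw' : (D.l ^ n) w ∈ Sel fsF fsT := Or.inr ⟨c', i', hw'⟩
    obtain ⟨D', hD'⟩ := D5.cancelFaces n hret.1 rfl (by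
        intro j h1 h2
        have h3 := hret.2.2 j h1 h2
        refine ⟨fun hh => h3 ?_, fun hh => h3 ?_⟩
        · change (D.l ^ j) w = w at hh
          rw [hh]; exact hselw
        · change (D.l ^ j) w = (D.l ^ n) w at hh
          rw [hh]; exact hselw') hsum (by
        change ev (αF ℤ) (((c.drop (i + 1) ++ c.take i) ++ [w]).map D.lab) *
          ev (αF ℤ) (((D.l ^ n) w :: (c'.drop (i' + 1) ++ c'.take i')).map D.lab) = 1
        rw [← rot_eq hw.2.2, ← rot_eq' hw'.2.2, List.map_rotate, List.map_rotate, hT.eq hw.1,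
          hT.eq hw'.1, hs, hi]
        exact ev_pair g x y z _ hw.2.1)
    exact ⟨D', hD'⟩

end

/-- families of the normal form -/
def PN (g : Wd ℤ) (x y z : ℤ) (R : Set (Wd ℤ)) (F : List (Wd ℤ)) (N : ℕ) : Prop :=
  ∃ QT QR : List (Wd ℤ), QT.length = N ∧ (∀ q ∈ QT, q = Tp g x y z ∨ q = Tm g x y z) ∧
    (∀ q ∈ QR, Rel R q) ∧ Cert (F ++ (QT ++ QR))

theorem Tm_rot (g : Wd ℤ) (x y z : ℤ) : winv (Tw g x y z) ~r Tm g x y z := by
  have h : winv (Tw g x y z) = g ++ [(true, -z), (false, -y), (true, -x)] := by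
    unfold Tw
    rw [winv_append, winv_winv]
    rfl
  rw [h]
  refine ⟨g.length, ?_⟩
  rw [List.rotate_append_length_eq]
  rfl

theorem Rel.new {R : Set (Wd ℤ)} {g : Wd ℤ} {x y z : ℤ} {q : Wd ℤ}
    (h : Rel (Rnew R g id x y z) q) : Rel R q ∨ q = Tw g x y z ∨ q = winv (Tw g x y z) := by
  have hid : ∀ w : Wd ℤ, wmap id w = w := by
    intro w
    unfold wmap
    simp
  have hmem : ∀ w : Wd ℤ, w ∈ Rnew R g id x y z → w ∈ R ∨ w = Tw g x y z := by
    intro w hw
    rcases hw with ⟨r, hr, rfl⟩ | hw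
    · left; rw [hid]; exact hr
    · right
      rw [hid] at hw
      exact hw
  rcases h with h | h
  · rcases hmem _ h with h | h
    · exact Or.inl (Or.inl h)
    · exact Or.inr (Or.inl h)
  · rcases hmem _ h with h | h
    · exact Or.inl (Or.inr h)
    · right; right
      rw [← h, winv_winv]

theorem Rel.of_old {R : Set (Wd ℤ)} {g : Wd ℤ} {x y z : ℤ} {q : Wd ℤ} (h : Rel R q) :
    Rel (Rnew R g id x y z) q := by
  have hid : ∀ w : Wd ℤ, wmap id w = w := by
    intro w
    unfold wmap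
    simp
  rcases h with h | h
  · exact Or.inl (Or.inl ⟨q, h, hid q⟩)
  · exact Or.inr (Or.inl ⟨_, h, hid _⟩)

theorem Rel.T {R : Set (Wd ℤ)} {g : Wd ℤ} {x y z : ℤ} :
    Rel (Rnew R g id x y z) (Tw g x y z) := by
  have hid : ∀ w : Wd ℤ, wmap id w = w := by
    intro w
    unfold wmap
    simp
  refine Or.inl (Or.inr ?_)
  rw [hid]
  rfl

theorem Rel.T' {R : Set (Wd ℤ)} {g : Wd ℤ} {x y z : ℤ} :
    Rel (Rnew R g id x y z) (winv (Tw g x y z)) := by
  have hid : ∀ w : Wd ℤ, wmap id w = w := by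
    intro w
    unfold wmap
    simp
  refine Or.inr (Or.inr ?_)
  rw [hid, winv_winv]
  rfl

theorem to_PN {R : Set (Wd ℤ)} {g : Wd ℤ} {x y z : ℤ} (Q : List (Wd ℤ)) :
    ∀ F : List (Wd ℤ), (∀ q ∈ Q, Rel (Rnew R g id x y z) q) → Cert (F ++ Q) →
      ∃ N, PN g x y z R F N := by
  induction Q with
  | nil =>
    intro F _ h
    exact ⟨0, [], [], rfl, by simp, by simp, by simpa using h⟩
  | cons q Q ih =>
    intro F hQ h
    have hQ' : ∀ q ∈ Q, Rel (Rnew R g id x y z) q := fun q hq => hQ q (List.mem_cons_of_mem _ hq)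
    have step : ∀ q', q ~r q' → (Rel R q' ∨ q' = Tp g x y z ∨ q' = Tm g x y z) →
        ∃ N, PN g x y z R F N := by
      intro q' hr hq'
      have h1 : Cert (q' :: (F ++ Q)) := (h.perm List.perm_middle).rot hr
      obtain ⟨N, QT, QR, hN, hQT, hQR, hC⟩ := ih (q' :: F) hQ' h1
      rcases hq' with hq' | hq'
      · refine ⟨N, QT, q' :: QR, hN, hQT, ?_, ?_⟩
        · intro r hr
          rcases List.mem_cons.1 hr with rfl | hr
          · exact hq'
          · exact hQR r hr
        · refine hC.perm ?_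
          have e : F ++ (QT ++ q' :: QR) = (F ++ QT) ++ q' :: QR := by simp
          rw [e]
          refine List.Perm.symm (List.perm_middle.trans ?_)
          simp
      · refine ⟨N + 1, q' :: QT, QR, by simp [hN], ?_, hQR, ?_⟩
        · intro r hr
          rcases List.mem_cons.1 hr with rfl | hr
          · exact hq'
          · exact hQT r hr
        · refine hC.perm ?_
          rw [List.cons_append, List.cons_append]
          exact List.perm_middle.symm
    rcases Rel.new (hQ q List.mem_cons_self) with h1 | h1 | h1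
    · exact step q (List.IsRotated.refl q) (Or.inl h1)
    · exact step q (List.IsRotated.refl q) (Or.inr (Or.inl h1))
    · exact step (Tm g x y z) (h1 ▸ Tm_rot g x y z) (Or.inr (Or.inr rfl))

theorem from_PN {R : Set (Wd ℤ)} {g : Wd ℤ} {x y z : ℤ} (QT : List (Wd ℤ)) :
    ∀ F : List (Wd ℤ), (∀ q ∈ QT, q = Tp g x y z ∨ q = Tm g x y z) → Cert (F ++ QT) →
      ∃ Q' : List (Wd ℤ), Q'.length = QT.length ∧ (∀ q ∈ Q', Rel (Rnew R g id x y z) q) ∧
        Cert (F ++ Q') := by
  induction QT with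
  | nil =>
    intro F _ h
    exact ⟨[], rfl, by simp, h⟩
  | cons q Q ih =>
    intro F hQ h
    have hQ' : ∀ q ∈ Q, q = Tp g x y z ∨ q = Tm g x y z :=
      fun q hq => hQ q (List.mem_cons_of_mem _ hq)
    have step : ∀ q', q ~r q' → Rel (Rnew R g id x y z) q' →
        ∃ Q' : List (Wd ℤ), Q'.length = (q :: Q).length ∧
          (∀ q ∈ Q', Rel (Rnew R g id x y z) q) ∧ Cert (F ++ Q') := by
      intro q' hr hq'
      have h1 : Cert (q' :: (F ++ Q)) := (h.perm List.perm_middle).rot hr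
      obtain ⟨Q', hl, hR, hC⟩ := ih (q' :: F) hQ' h1
      refine ⟨q' :: Q', by simp [hl], ?_, ?_⟩
      · intro r hr
        rcases List.mem_cons.1 hr with rfl | hr
        · exact hq'
        · exact hR r hr
      · refine hC.perm ?_
        rw [List.cons_append]
        exact List.perm_middle.symm
    rcases hQ q List.mem_cons_self with h1 | h1
    · exact step q (List.IsRotated.refl q) (by rw [h1]; exact Rel.T)
    · exact step (winv (Tw g x y z)) (by rw [h1]; exact (Tm_rot g x y z).symm) Rel.T'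

end LFS

end Pool.Agent.ABA
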