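import Pool.Agent.Helper70_ABA.LFnew
import Pool.Agent.Helper83_ABA.Conj

/-! # The count with an arbitrary set of selected outer syllables -/

open Equiv Equiv.Perm H17ABA

namespace Pool.Agent.ABA

/-- SUM, sharp form -/
theorem sum_sharp {Γ : Type} [Group Γ] {α : Bool → Multiplicative ℤ →* Γ} {g : Γ} {S : Type}
    [Fintype S] (C : CD α g S)
    (hreg : ∀ η₀ : S, (∀ η, (cs (C.σ * C.l⁻¹)) η₀ η → (C.kind (C.l⁻¹ η)).isOut = false) →
      (∃ f : S → Γ, ∀ η, (cs (C.σ * C.l⁻¹)) η₀ η → f ((C.σ * C.l⁻¹) η) = f η * C.r η) →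
      1206 ≤ cycSum (L := ℤ) (C.σ * C.l⁻¹) (fun η => (C.cost η : ℤ)) η₀)
    (hcount : Nat.card S + 2 ≤ cyc C.σ + cyc C.l + good (C.σ * C.l⁻¹) C.r) :
    Nat.card {w // (C.kind w).isOut = false} + 2412 ≤
      2412 * Nat.card {w // (C.kind w).isOut = true} + 1203 * C.nbad := by
  have h1 := C.ineq1
  have h2 := C.ineq2
  have h3 := C.ineq3
  have h4 := C.ineq4 hreg
  have e0 : ∑ η, C.iO (C.l⁻¹ η) = ∑ w, C.iO w := Equiv.sum_comp C.l⁻¹ C.iO
  have e1 : ∑ η, (C.cost η : ℤ) = ∑ w, ((C.kind w).cor : ℤ) +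
      ∑ w, (Kind.pas (C.kind w) (C.kind (C.l w)) : ℤ) := by
    rw [← Finset.sum_add_distrib, ← Equiv.sum_comp C.l]
    refine Finset.sum_congr rfl (fun w _ => ?_)
    unfold CD.cost
    rw [perm_inv_l]
    push_cast
    rfl
  have e2 : (Nat.card S : ℤ) = ∑ w, C.iP w + ∑ w, C.iO w := by
    rw [← Finset.sum_add_distrib]
    simp only [C.iP_add_iO]
    rw [Nat.card_eq_fintype_card]
    simp
  have e3 := C.sum_cor
  have e4 := C.sum_iP
  have e5 := C.sum_iO
  have e6 : (Nat.card S : ℤ) + 2 ≤ cyc C.σ + cyc C.l + good (C.σ * C.l⁻¹) C.r := by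
    exact_mod_cast hcount
  rw [Finset.sum_add_distrib, ← Finset.mul_sum] at h1 h2 h4
  rw [Finset.sum_sub_distrib, Finset.sum_add_distrib, ← Finset.mul_sum] at h3
  have e7 : ∑ _w : S, (600 : ℤ) = 600 * Nat.card S := by
    rw [Nat.card_eq_fintype_card]
    simp
    ring
  rw [e7] at h3
  rw [e0, e1, e3] at h4
  rw [e2] at e6 h3
  have goal : (Nat.card {w // (C.kind w).isOut = false} : ℤ) + 2412 ≤
      2412 * Nat.card {w // (C.kind w).isOut = true} + 1203 * C.nbad := by
    rw [← e4, ← e5]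
    linarith
  exact_mod_cast goal

namespace LFS

variable {g : Wd ℤ} {x y z : ℤ} {Ω : Type} [Fintype Ω] [DecidableEq Ω]
  {fsF fsT fsR : List (List Ω)} {O : Set Ω}

/-- selected syllables -/
def SelO (O : Set Ω) (fsT : List (List Ω)) : Set Ω :=
  {o | o ∈ O ∨ ∃ c i, Long fsT c i o}

theorem not_selO_of (hn : (fsF ++ (fsT ++ fsR)).flatten.Nodup) (hO : ∀ o ∈ O, o ∈ fsF.flatten)
    {c : List Ω} (hc : c ∈ fsT) {i : ℕ}
    (hi : 3 ≤ i) {o : Ω} (ho : (c)[i]? = some o) : o ∉ SelO O fsT := by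
  rintro (h | ⟨c', i', h⟩)
  · exact not_sel_of hn hc hi ho (Or.inl (hO o h))
  · exact not_sel_of (fsF := fsF) hn hc hi ho (Or.inr ⟨c', i', h⟩)

/-- first return on a T-face -/
theorem retO_T (hn : (fsF ++ (fsT ++ fsR)).flatten.Nodup) (hO : ∀ o ∈ O, o ∈ fsF.flatten)
    {c : List Ω} {m : ℕ}
    (hlen : c.length = m + 3) {i : ℕ} {o : Ω} (h : Long fsT c i o) :
    Ret (facePerm (fsF ++ (fsT ++ fsR))) (SelO O fsT) o (if i = 2 then m + 1 else 1) ∧
      (c)[(i + 1) % 3]? = some ((facePerm (fsF ++ (fsT ++ fsR)) ^ (if i = 2 then m + 1 else 1)) o) := by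
  obtain ⟨h1, h2⟩ := ret_T hn hlen h
  refine ⟨⟨h1.1, ?_, ?_⟩, h2⟩
  · exact Or.inr ⟨c, (i + 1) % 3, h.1, Nat.mod_lt _ (by omega), h2⟩
  · intro j hj1 hj2 hj3
    refine h1.2.2 j hj1 hj2 ?_
    rcases hj3 with hj3 | hj3
    · exact Or.inl (hO _ hj3)
    · exact Or.inr hj3

theorem O_of_out (hn : (fsF ++ (fsT ++ fsR)).flatten.Nodup) {lab : Ω → Bool × ℤ} {o : Ω}
    (ho : o ∈ SelO O fsT) (h : (kd g x y z lab fsT o).isOut = true) : o ∈ O := by
  rcases ho with ho | ⟨c, i, ho⟩
  · exact ho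
  · rw [kd_T hn (fun c hc => mem_fs_T hc) lab ho, kk_isOut] at h
    exact absurd h (by simp)

/-- THE COARSE DIAGRAM -/
theorem exists_CDO {Γ : Type} [Group Γ] (α : Bool → Multiplicative ℤ →* Γ)
    (D : FC ℤ Ω (fsF ++ (fsT ++ fsR))) (hT : TF g x y z D.lab fsT)
    (hO : ∀ o ∈ O, o ∈ fsF.flatten) (hO2 : ∀ d ∈ fsF, d ≠ [] → ∃ o ∈ d, o ∈ O)
    (hR : ∀ d ∈ fsR, ev α (d.map D.lab) = 1) (hne : ∃ w, w ∈ SelO O fsT)
    (hmin : ∀ (w : Ω) (n : ℕ) (c : List Ω) (i : ℕ) (c' : List Ω) (i' : ℕ), Long fsT c i w →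
      Ret D.l (SelO O fsT) w n → Long fsT c' i' ((D.l ^ n) w) →
      kk (sg g x y z D.lab c') i' = (kk (sg g x y z D.lab c) i).inv →
      ((btw D.l D.lab w n).map Prod.snd).sum ≠ 0) :
    ∃ C : CD α (ev α g) (SelO O fsT),
      (∀ w, C.kind w = kd g x y z D.lab fsT w) ∧
      (∀ w : SelO O fsT, ∃ n, Ret D.l (SelO O fsT) w n ∧ (C.l w : Ω) = (D.l ^ n) w ∧
        C.p w = ((btw D.l D.lab w n).map Prod.snd).sum) ∧
      Nat.card (SelO O fsT) + 2 ≤ cyc C.σ + cyc C.l + good (C.σ * C.l⁻¹) C.r := by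
  have hn := D.nodup
  have hsub : ∀ c ∈ fsT, c ∈ fsF ++ (fsT ++ fsR) := fun c hc => mem_fs_T hc
  have hsel : ∀ w ∈ SelO O fsT, w ∈ (fsF ++ (fsT ++ fsR)).flatten := by
    rintro w (h | ⟨c, i, h⟩)
    · rw [List.flatten_append, List.mem_append]; exact Or.inl (hO w h)
    · exact List.mem_flatten.2 ⟨c, mem_fs_T h.1, List.mem_of_getElem? h.2.2⟩
  have hlong0 : ∀ c ∈ fsT, ∃ o ∈ c, o ∈ SelO O fsT := by
    intro c hc
    have h1 : 0 < c.length := by rw [hT.length hc]; omega
    exact ⟨_, List.getElem_mem h1, Or.inr ⟨c, 0, hc, by omega, List.getElem?_eq_getElem h1⟩⟩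
  have hface : ∀ d ∈ fsF ++ (fsT ++ fsR), (∀ w ∈ d, w ∉ SelO O fsT) →
      ev α (d.map D.lab) = 1 := by
    intro d hd hd2
    rw [List.mem_append, List.mem_append] at hd
    rcases hd with hd | hd | hd
    · have : d = [] := by
        by_contra hne
        obtain ⟨o, ho, ho2⟩ := hO2 d hd hne
        exact hd2 o ho (Or.inl ho2)
      subst this
      rfl
    · obtain ⟨o, ho1, ho2⟩ := hlong0 d hd
      exact absurd ho2 (hd2 o ho1)
    · exact hR d hd
  obtain ⟨σS, lS, p, k, hσ, hl, hcount⟩ := H17.cg2_all ℤ Γ Ω α _ D (SelO O fsT) hne hsel hface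
  -- face permutation on T-faces
  have key : ∀ (w : SelO O fsT) (c : List Ω) (i : ℕ), Long fsT c i (w : Ω) →
      Long fsT c ((i + 1) % 3) (σS w : Ω) ∧ k w = (kk (sg g x y z D.lab c) i).crn (ev α g) := by
    intro w c i hw
    obtain ⟨n, h1, h2, h3⟩ := hσ w
    have hlen : c.length = g.length + 3 := hT.length hw.1
    obtain ⟨h4, h5⟩ := retO_T hn hO hlen hw
    have e := h1.unique h4
    subst e
    refine ⟨⟨hw.1, Nat.mod_lt _ (by omega), ?_⟩, ?_⟩
    · rw [h2]; exact h5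
    · rw [h3, btw_T hn D.lab hlen hw]
      obtain ⟨hc, hi, -⟩ := hw
      have hi' : i = 0 ∨ i = 1 ∨ i = 2 := by omega
      rw [hT.eq hc, Ts_drop]
      rcases hi' with rfl | rfl | rfl
      · cases sg g x y z D.lab c <;> simp [kk, Kind.crn]
      · cases sg g x y z D.lab c <;> simp [kk, Kind.crn]
      · cases sg g x y z D.lab c
        · simp [kk, Kind.crn]
        · simp [kk, Kind.crn, ev_winv]
  have keyF : ∀ (w : SelO O fsT), (w : Ω) ∈ fsF.flatten → (σS w : Ω) ∈ fsF.flatten := by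
    intro w hw
    obtain ⟨n, h1, h2, h3⟩ := hσ w
    obtain ⟨d, hd, hwd⟩ := List.mem_flatten.1 hw
    rw [h2]
    exact List.mem_flatten.2 ⟨d, hd, face_closed hn (mem_fs_F hd) hwd (cs_pow_apply _ _ n)⟩
  have hkT : ∀ (o : Ω) (c : List Ω) (i : ℕ), Long fsT c i o →
      kd g x y z D.lab fsT o = kk (sg g x y z D.lab c) i := fun o c i h =>
    kd_T hn hsub D.lab h
  let C : CD α (ev α g) (SelO O fsT) :=
    { σ := σS
      l := lS
      kind := fun w => kd g x y z D.lab fsT w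
      p := p
      k := k
      face := by
        intro w hw
        obtain ⟨c, i, hw⟩ := long_of_pure hw
        obtain ⟨h1, -⟩ := key w c i hw
        obtain ⟨h2, -⟩ := key _ c _ h1
        obtain ⟨h3, -⟩ := key _ c _ h2
        refine ⟨?_, ?_⟩
        · rw [hkT _ c i hw, hkT _ c _ h1, kk_nxt _ hw.2.1]
        · have e : (((i + 1) % 3 + 1) % 3 + 1) % 3 = i := by
            have := hw.2.1
            omega
          rw [e] at h3
          have h4 : (σS (σS (σS w)) : Ω) = w := by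
            have := h3.2.2
            rw [hw.2.2] at this
            exact (Option.some.inj this).symm
          have h5 : (σS ^ 3) w = σS (σS (σS w)) := by
            rw [pow_succ', pow_succ', pow_one, Perm.mul_apply, Perm.mul_apply]
          rw [h5]
          exact Subtype.ext h4
      faceOut := by
        intro w hw
        have h1 := keyF w (hO _ (O_of_out hn w.2 hw))
        rw [kd_F D.lab (F_not_long hn h1)]
        rfl
      corner := by
        intro w hw
        obtain ⟨c, i, hw⟩ := long_of_pure hw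
        obtain ⟨-, h1⟩ := key w c i hw
        rw [h1, hkT _ c i hw]
      line := by
        intro w
        rw [kd_ty hn hT, kd_ty hn hT]
        obtain ⟨n, h1, h2, h3⟩ := hl w
        rw [h2]
        exact (D.ty_same (cs_pow_apply D.l w n)).symm
      fold := by
        intro w hw hw2
        obtain ⟨c, i, hlw⟩ := long_of_pure hw
        have hw3 : (kd g x y z D.lab fsT (lS w)).isOut = false := by
          rw [hw2, Kind.inv_isOut]; exact hw
        obtain ⟨c', i', hlw'⟩ := long_of_pure hw3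
        obtain ⟨n, h1, h2, h3⟩ := hl w
        rw [h3]
        rw [hkT _ c i hlw, hkT _ c' i' hlw'] at hw2
        rw [h2] at hlw'
        exact hmin w n c i c' i' hlw h1 hlw' hw2 }
  refine ⟨C, fun w => rfl, hl, ?_⟩
  have e : C.r = rstep α (fun w : SelO O fsT => (D.lab w).1) lS p k := by
    have e1 : (fun w : SelO O fsT => (C.kind w).ty) = (fun w : SelO O fsT => (D.lab w).1) := by
      funext w
      exact kd_ty hn hT w
    change rstep α (fun w : SelO O fsT => (C.kind w).ty) lS p k = _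
    rw [e1]
  rw [e]
  exact hcount

/-- the total label of the fillers -/
theorem fillersO_le (D : FC ℤ Ω (fsF ++ (fsT ++ fsR))) (hT : TF g x y z D.lab fsT) :
    ∃ G : Finset Ω, (∀ o, o ∉ SelO O fsT → (D.lab o).2 ≠ 0 → o ∈ G) ∧
      ∑ o ∈ G, |(D.lab o).2| ≤ (fsF.map (fun c => nrm (c.map D.lab))).sum +
        fsT.length * nrm g + (fsR.map (fun c => nrm (c.map D.lab))).sum := by
  refine ⟨(fsF.flatten ++ ((fsT.map (List.drop 3)).flatten ++ fsR.flatten)).toFinset, ?_, ?_⟩
  · intro o ho h0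
    have h1 : o ∈ (fsF ++ (fsT ++ fsR)).flatten := by
      by_contra hcon
      exact h0 (dead_val D hcon)
    rw [List.mem_toFinset, List.mem_append, List.mem_append]
    rw [List.flatten_append, List.mem_append, List.flatten_append, List.mem_append] at h1
    rcases h1 with h1 | h1 | h1
    · exact Or.inl h1
    · right; left
      obtain ⟨c, hc, hoc⟩ := List.mem_flatten.1 h1
      refine List.mem_flatten.2 ⟨c.drop 3, List.mem_map.2 ⟨c, hc, rfl⟩, ?_⟩
      obtain ⟨i, hi, hio⟩ := List.mem_iff_getElem.1 hoc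
      by_cases h3 : i < 3
      · exact absurd (Or.inr ⟨c, i, hc, h3, by rw [← hio]; exact List.getElem?_eq_getElem hi⟩) ho
      · rw [List.mem_iff_getElem?]
        refine ⟨i - 3, ?_⟩
        rw [List.getElem?_drop, ← hio]
        have : 3 + (i - 3) = i := by omega
        rw [this]
        exact List.getElem?_eq_getElem hi
    · exact Or.inr (Or.inr h1)
  · refine (sum_toFinset_le _ (fun o => abs_nonneg _) _).trans ?_
    rw [List.map_append, List.sum_append, List.map_append, List.sum_append,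
      flatten_drop_sum D.lab hT, flatten_nrm, flatten_nrm]
    linarith

theorem cardO_out_le (hn : (fsF ++ (fsT ++ fsR)).flatten.Nodup) (lab : Ω → Bool × ℤ) :
    Nat.card {w : SelO O fsT // (kd g x y z lab fsT w).isOut = true} ≤ Nat.card O := by
  classical
  refine Nat.card_le_card_of_injective (fun w => (⟨w.1.1, ?_⟩ : O)) ?_
  · exact O_of_out hn w.1.2 w.2
  · intro a b h
    have h' := congrArg (fun q : O => (q : Ω)) h
    exact Subtype.ext (Subtype.ext h')

theorem cardO_pure_ge (hn : (fsF ++ (fsT ++ fsR)).flatten.Nodup) (lab : Ω → Bool × ℤ)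
    (hT : TF g x y z lab fsT) :
    3 * fsT.length ≤ Nat.card {w : SelO O fsT // (kd g x y z lab fsT w).isOut = false} := by
  classical
  have h1 := card_pure_ge hn lab hT
  refine h1.trans ?_
  refine Nat.card_le_card_of_injective
    (fun w => (⟨⟨w.1.1, Or.inr (long_of_pure w.2)⟩, w.2⟩ :
      {w : SelO O fsT // (kd g x y z lab fsT w).isOut = false})) ?_
  intro a b h
  have h' : (a.1.1 : Ω) = b.1.1 := congrArg (fun q : {w : SelO O fsT //
    (kd g x y z lab fsT w).isOut = false} => (q.1.1 : Ω)) h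
  exact Subtype.ext (Subtype.ext h')

/-- THE COUNT for one certificate, general selection -/
theorem main_countO {Γ : Type} [Group Γ] (α : Bool → Multiplicative ℤ →* Γ)
    (hα : ∀ t, Function.Injective (α t)) (hG : Geo (α true).range (α false).range)
    (hg : ¬ IsABA (α true).range (α false).range (ev α g))
    (hx : 0 < x) (hz : 4 * x ≤ z) (hy : x ≤ |y|)
    (D : FC ℤ Ω (fsF ++ (fsT ++ fsR))) (hT : TF g x y z D.lab fsT)
    (hO : ∀ o ∈ O, o ∈ fsF.flatten) (hO2 : ∀ d ∈ fsF, d ≠ [] → ∃ o ∈ d, o ∈ O)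
    (hR : ∀ d ∈ fsR, ev α (d.map D.lab) = 1) (hne : ∃ w, w ∈ SelO O fsT)
    (hmin : ∀ (w : Ω) (n : ℕ) (c : List Ω) (i : ℕ) (c' : List Ω) (i' : ℕ), Long fsT c i w →
      Ret D.l (SelO O fsT) w n → Long fsT c' i' ((D.l ^ n) w) →
      kk (sg g x y z D.lab c') i' = (kk (sg g x y z D.lab c) i).inv →
      ((btw D.l D.lab w n).map Prod.snd).sum ≠ 0) :
    ∃ b : ℕ, 3 * fsT.length + 2412 ≤ 2412 * Nat.card O + 1203 * b ∧
      x * b ≤ (fsF.map (fun c => nrm (c.map D.lab))).sum +
        fsT.length * nrm g + (fsR.map (fun c => nrm (c.map D.lab))).sum := by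
  classical
  obtain ⟨C, hk, hl, hcount⟩ := exists_CDO (x := x) (y := y) (z := z) α D hT hO hO2 hR hne hmin
  have h1 := sum_sharp C
    (fun η₀ h1 h2 => regStmt Γ α (ev α g) (SelO O fsT) C hα hG hg η₀ h1 h2) hcount
  have h2 := C.bad_count hx hz hy (fun w => (D.lab w).2)
    (fun w hw => by
      rw [hk] at hw ⊢
      exact kd_lbl D.nodup hT hw)
    (fun w => line_sums D C.l C.p hl w)
  obtain ⟨G, hG1, hG2⟩ := fillersO_le (O := O) D hT
  have h3 := sum_abs_le D C.l C.p hl G hG1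
  have h4 := cardO_out_le (g := g) (x := x) (y := y) (z := z) (O := O) D.nodup D.lab
  have h5 := cardO_pure_ge (g := g) (x := x) (y := y) (z := z) (O := O) D.nodup D.lab hT
  have e1 : Nat.card {w : SelO O fsT // (C.kind w).isOut = true} =
      Nat.card {w : SelO O fsT // (kd g x y z D.lab fsT w).isOut = true} := by
    simp only [hk]
  have e2 : Nat.card {w : SelO O fsT // (C.kind w).isOut = false} =
      Nat.card {w : SelO O fsT // (kd g x y z D.lab fsT w).isOut = false} := by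
    simp only [hk]
  rw [e1, e2] at h1
  refine ⟨C.nbad, ?_, ?_⟩
  · have : 2412 * Nat.card {w : SelO O fsT // (kd g x y z D.lab fsT w).isOut = true} ≤
        2412 * Nat.card O := Nat.mul_le_mul_left _ h4
    omega
  · linarith

/-- two inverse T-faces with a zero fold cancel -/
theorem cancelO_T (D : FC ℤ Ω (fsF ++ (fsT ++ fsR))) (hT : TF g x y z D.lab fsT)
    {w : Ω} {n : ℕ} {c : List Ω} {i : ℕ} {c' : List Ω} {i' : ℕ} (hw : Long fsT c i w)
    (hret : Ret D.l (SelO O fsT) w n) (hw' : Long fsT c' i' ((D.l ^ n) w))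
    (hkk : kk (sg g x y z D.lab c') i' = (kk (sg g x y z D.lab c) i).inv)
    (hsum : ((btw D.l D.lab w n).map Prod.snd).sum = 0) :
    ∃ fsT' : List (List Ω), fsT'.length + 2 = fsT.length ∧ (∀ d ∈ fsT', d ∈ fsT) ∧
      ∃ D' : FC ℤ Ω (fsF ++ (fsT' ++ fsR)), ∀ v ∈ (fsF ++ (fsT' ++ fsR)).flatten,
        D'.lab v = D.lab v := by
  obtain ⟨hs, hi⟩ := kk_inv_eq hw.2.1 hw'.2.1 hkk
  have hcc : c ≠ c' := by
    rintro rfl
    cases h : sg g x y z D.lab c <;> rw [h] at hs <;> exact absurd hs (by simp)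
  have hmem : c' ∈ fsT.erase c := (List.mem_erase_of_ne (Ne.symm hcc)).2 hw'.1
  set fsT' := (fsT.erase c).erase c' with hfsT'
  have p1 : fsT.Perm (c :: fsT.erase c) := List.perm_cons_erase hw.1
  have p2 : (fsT.erase c).Perm (c' :: fsT') := List.perm_cons_erase hmem
  have p3 : fsT.Perm (c :: c' :: fsT') := p1.trans (p2.cons c)
  have hlen := p3.length_eq
  simp only [List.length_cons] at hlen
  refine ⟨fsT', by omega, ?_, ?_⟩
  · intro d hd
    exact p3.symm.subset (List.mem_cons_of_mem _ (List.mem_cons_of_mem _ hd))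
  · have p4 : (fsF ++ (fsT ++ fsR)).Perm (c :: c' :: (fsF ++ (fsT' ++ fsR))) := by
      have q1 : (fsF ++ (fsT ++ fsR)).Perm (fsF ++ ((c :: c' :: fsT') ++ fsR)) :=
        List.Perm.append_left _ (List.Perm.append_right _ p3)
      refine q1.trans ?_
      rw [List.cons_append, List.cons_append]
      refine List.perm_middle.trans ?_
      refine List.Perm.cons c ?_
      exact List.perm_middle
    let D1 := D.ofPerm p4
    let D2 := D1.rot (e := (c.drop (i + 1) ++ c.take i) ++ [w]) ⟨i + 1, rot_eq hw.2.2⟩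
    let D3 := D2.ofPerm (List.Perm.swap c' _ _)
    let D4 := D3.rot (e := (D.l ^ n) w :: (c'.drop (i' + 1) ++ c'.take i')) ⟨i', rot_eq' hw'.2.2⟩
    let D5 := D4.ofPerm (List.Perm.swap _ _ _)
    have hselw : w ∈ SelO O fsT := Or.inr ⟨c, i, hw⟩
    have hselw' : (D.l ^ n) w ∈ SelO O fsT := Or.inr ⟨c', i', hw'⟩
    obtain ⟨D', hD'⟩ := D5.cancelFaces n hret.1 rfl (by
        intro j h1 h2
        have h3 := hret.2.2 j h1 h2
        refine ⟨fun hh => h3 ?_, fun hh => h3 ?_⟩
        · change (D.l ^ j) w = w at hh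
          rw [hh]; exact hselw
        · change (D.l ^ j) w = (D.l ^ n) w at hh
          rw [hh]; exact hselw') hsum (by
        change ev (αF ℤ) (((c.drop (i + 1) ++ c.take i) ++ [w]).map D.lab) *
          ev (αF ℤ) (((D.l ^ n) w :: (c'.drop (i' + 1) ++ c'.take i')).map D.lab) = 1
        rw [← rot_eq hw.2.2, ← rot_eq' hw'.2.2, List.map_rotate, List.map_rotate, hT.eq hw.1,
          hT.eq hw'.1, hs, hi]
        exact ev_pair g x y z _ hw.2.1)
    exact ⟨D', hD'⟩

end LFS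

end Pool.Agent.ABA
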