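import Pool.Agent.Helper70_ABA.RegSeq

/-! # REG -/

open Equiv Equiv.Perm H17ABA

namespace Pool.Agent.ABA

open Kind

theorem cycSum_range {Ω L : Type} [Fintype Ω] [AddCommGroup L] (π : Perm Ω) (f : Ω → L)
    (w : Ω) : cycSum π f w = ∑ j ∈ Finset.range (Function.minimalPeriod π w), f ((π ^ j) w) := by
  classical
  unfold cycSum
  have hpos : 0 < Function.minimalPeriod π w := by
    refine Function.minimalPeriod_pos_of_mem_periodicPts ?_
    exact Function.Injective.mem_periodicPts π.injective w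
  have hinj : Set.InjOn (fun j : ℕ => (π ^ j) w) (Finset.range (Function.minimalPeriod π w)) := by
    intro i hi j hj hij
    have hi' : i < Function.minimalPeriod π w := by simpa using hi
    have hj' : j < Function.minimalPeriod π w := by simpa using hj
    have := Function.iterate_injOn_Iio_minimalPeriod (f := π) (x := w) hi' hj'
    apply this
    simpa only [Perm.iterate_eq_pow] using hij
  rw [← Finset.sum_image (f := f) hinj]
  congr 1
  ext v
  simp only [Finset.mem_filter, Finset.mem_univ, true_and, Finset.mem_image, Finset.mem_range]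
  constructor
  · intro h
    obtain ⟨k, _, hk⟩ := SameCycle.exists_pow_eq' h
    refine ⟨k % Function.minimalPeriod π w, Nat.mod_lt _ hpos, ?_⟩
    rw [← hk]
    have := Function.iterate_mod_minimalPeriod_eq (f := π) (x := w) (n := k)
    simpa only [Perm.iterate_eq_pow] using this
  · rintro ⟨k, _, rfl⟩
    exact ⟨k, by simp⟩

theorem perm_inv_r {Ω : Type} (π : Perm Ω) (x : Ω) : π (π⁻¹ x) = x := π.apply_symm_apply x

theorem perm_inv_l {Ω : Type} (π : Perm Ω) (x : Ω) : π⁻¹ (π x) = x := π.symm_apply_apply x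

theorem cs_pow_apply {Ω : Type} (π : Perm Ω) (w : Ω) (j : ℕ) : (cs π) w ((π ^ j) w) :=
  ⟨j, by simp⟩

theorem regStmt : RegStmt := by
  intro Γ _ α g S _ C hα hG hg η₀ hpure ⟨f, hf⟩
  set φ := C.σ * C.l⁻¹ with hφ
  set n := Function.minimalPeriod φ η₀ with hn
  have hpos : 0 < n := by
    refine Function.minimalPeriod_pos_of_mem_periodicPts ?_
    exact Function.Injective.mem_periodicPts φ.injective η₀
  have hper : (φ ^ n) η₀ = η₀ := by
    have := Function.iterate_minimalPeriod (f := φ) (x := η₀)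
    rw [Perm.iterate_eq_pow] at this
    exact this
  have hperj : ∀ j, (φ ^ (j + n)) η₀ = (φ ^ j) η₀ := by
    intro j
    rw [pow_add, Perm.mul_apply, hper]
  have hsucc : ∀ j, (φ ^ (j + 1)) η₀ = φ ((φ ^ j) η₀) := by
    intro j
    rw [pow_succ', Perm.mul_apply]
  have hk : ∀ j, C.kind ((φ ^ (j + 1)) η₀) = (C.kind (C.l⁻¹ ((φ ^ j) η₀))).nxt := by
    intro j
    rw [hsucc, hφ, Perm.mul_apply]
    exact (C.face _ (hpure _ (cs_pow_apply φ η₀ j))).1
  have hty : ∀ η, (C.kind η).ty = (C.kind (C.l⁻¹ η)).ty := by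
    intro η
    have := C.line (C.l⁻¹ η)
    rw [perm_inv_r] at this
    exact this
  have hseq : CSeq α g n (fun j => C.kind (C.l⁻¹ ((φ ^ j) η₀)))
      (fun j => -(C.p (C.l⁻¹ ((φ ^ j) η₀)))) (fun j => f ((φ ^ j) η₀)) := by
    refine ⟨hpos, ?_, ?_, ?_, ?_, ?_, ?_⟩
    · intro j
      simp only [hperj]
    · intro j
      simp only [hperj]
    · intro j
      exact hpure _ (cs_pow_apply φ η₀ j)
    · intro j
      simp only [okk, beq_iff_eq]
      rw [← hk j]
      exact (hty _).symm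
    · intro j h
      have h1 := C.fold (C.l⁻¹ ((φ ^ (j + 1)) η₀)) (hpure _ (cs_pow_apply φ η₀ (j + 1)))
      rw [perm_inv_r, hk j] at h1
      have := h1 h
      simpa using this
    · intro j
      have h1 := hf ((φ ^ j) η₀) (cs_pow_apply φ η₀ j)
      simp only [hsucc]
      rw [h1]
      unfold CD.r rstep
      simp only
      rw [C.corner _ (hpure _ (cs_pow_apply φ η₀ j)), hty ((φ ^ j) η₀)]
  have h1 := hseq.reg hα hG hg
  rw [cycSum_range, ← hn]
  have h2 : ∑ j ∈ Finset.range n, ((C.cost ((φ ^ j) η₀) : ℕ) : ℤ) =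
      ∑ j ∈ Finset.range n, ((C.cost ((φ ^ (j + 1)) η₀) : ℕ) : ℤ) := by
    obtain ⟨m, hm⟩ : ∃ m, n = m + 1 := ⟨n - 1, by omega⟩
    rw [hm, Finset.sum_range_succ', Finset.sum_range_succ]
    rw [← hm, hper]
    simp
  rw [h2]
  have h3 : ∀ j, C.cost ((φ ^ (j + 1)) η₀) = stp (C.kind (C.l⁻¹ ((φ ^ j) η₀)))
      (C.kind (C.l⁻¹ ((φ ^ (j + 1)) η₀))) := by
    intro j
    unfold CD.cost stp
    rw [hk j]
  rw [← Nat.cast_sum]
  simp only [h3]
  exact_mod_cast h1

end Pool.Agent.ABA
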