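import Pool.Agent.Helper70_ABA.Words
import Pool.Agent.Helper70_ABA.Enum

/-! # REG for sequences of corners along a curve -/

namespace Pool.Agent.ABA

open Kind

/-- data along a pure good curve: kinds, exponents, positions -/
structure CSeq {Γ : Type} [Group Γ] (α : Bool → Multiplicative ℤ →* Γ) (g : Γ) (n : ℕ)
    (κ : ℕ → Kind) (q : ℕ → ℤ) (F : ℕ → Γ) : Prop where
  pos : 0 < n
  perk : ∀ j, κ (j + n) = κ j
  perF : ∀ j, F (j + n) = F j
  pure : ∀ j, (κ j).isOut = false
  ok : ∀ j, okk (κ j) (κ (j + 1)) = true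
  fold : ∀ j, (κ j).nxt = (κ (j + 1)).inv → q (j + 1) ≠ 0
  rel : ∀ j, F (j + 1) = F j * (pw α (κ j).ty (q j) * (κ j).crn g)

def seg (κ : ℕ → Kind) : ℕ → ℕ → List Kind
  | _, 0 => []
  | i, m + 1 => κ i :: seg κ (i + 1) m

theorem seg_length (κ : ℕ → Kind) : ∀ (m i : ℕ), (seg κ i m).length = m := by
  intro m
  induction m with
  | zero => intro i; rfl
  | succ m ih => intro i; simp only [seg, List.length_cons, ih]

theorem seg_get (κ : ℕ → Kind) : ∀ (m i j : ℕ) (h : j < (seg κ i m).length),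
    (seg κ i m)[j] = κ (i + j) := by
  intro m
  induction m with
  | zero => intro i j h; simp [seg] at h
  | succ m ih =>
    intro i j h
    cases j with
    | zero => simp [seg]
    | succ j =>
      simp only [seg, List.getElem_cons_succ]
      rw [ih]
      congr 1
      omega

theorem seg_shift (κ : ℕ → Kind) (i : ℕ) : ∀ (m k : ℕ),
    seg (fun j => κ (j + i)) k m = seg κ (k + i) m := by
  intro m
  induction m with
  | zero => intro k; rfl
  | succ m ih =>
    intro k
    simp only [seg]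
    rw [ih]
    congr 2
    omega

variable {Γ : Type} [Group Γ] {α : Bool → Multiplicative ℤ →* Γ} {g : Γ} {n : ℕ}
  {κ : ℕ → Kind} {q : ℕ → ℤ} {F : ℕ → Γ}

namespace CSeq

theorem shift (h : CSeq α g n κ q F) (i : ℕ) :
    CSeq α g n (fun j => κ (j + i)) (fun j => q (j + i)) (fun j => F (j + i)) where
  pos := h.pos
  perk := by
    intro j
    have := h.perk (j + i)
    change κ (j + n + i) = κ (j + i)
    rw [← this]; congr 1; omega
  perF := by
    intro j
    have := h.perF (j + i)
    change F (j + n + i) = F (j + i)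
    rw [← this]; congr 1; omega
  pure := fun j => h.pure _
  ok := by
    intro j
    have := h.ok (j + i)
    change okk (κ (j + i)) (κ (j + 1 + i)) = true
    rw [← this]; congr 2; omega
  fold := by
    intro j
    have h1 := h.fold (j + i)
    have h2 : j + 1 + i = j + i + 1 := by omega
    change (κ (j + i)).nxt = (κ (j + 1 + i)).inv → q (j + 1 + i) ≠ 0
    rw [h2]; exact h1
  rel := by
    intro j
    have h1 := h.rel (j + i)
    have h2 : j + 1 + i = j + i + 1 := by omega
    change F (j + 1 + i) = _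
    rw [h2]; exact h1

def prodr (α : Bool → Multiplicative ℤ →* Γ) (g : Γ) (κ : ℕ → Kind) (q : ℕ → ℤ) : ℕ → ℕ → Γ
  | _, 0 => 1
  | i, m + 1 => pw α (κ i).ty (q i) * (κ i).crn g * prodr α g κ q (i + 1) m

theorem F_prodr (h : CSeq α g n κ q F) : ∀ (m i : ℕ), F (i + m) = F i * prodr α g κ q i m := by
  intro m
  induction m with
  | zero => intro i; simp [prodr]
  | succ m ih =>
    intro i
    have h1 : i + (m + 1) = i + 1 + m := by omega
    rw [h1, ih, h.rel]
    simp only [prodr, mul_assoc]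

theorem prodr_one (h : CSeq α g n κ q F) (i : ℕ) : prodr α g κ q i n = 1 := by
  have h1 := h.F_prodr n i
  rw [h.perF] at h1
  exact (mul_eq_left.1 h1.symm)

theorem valid_seg (h : CSeq α g n κ q F) : ∀ (m i : ℕ), valid (κ (i + m + 1)) (κ i) (seg κ (i + 1) m) := by
  intro m
  induction m with
  | zero => intro i; exact h.ok i
  | succ m ih =>
    intro i
    refine ⟨h.pure _, h.ok i, ?_⟩
    have := ih (i + 1)
    have h1 : i + 1 + m + 1 = i + (m + 1) + 1 := by omega
    rw [h1] at this
    exact this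

theorem total_seg (κ : ℕ → Kind) : ∀ (m i : ℕ), total (κ (i + m + 1)) (κ i) (seg κ (i + 1) m) =
    ∑ j ∈ Finset.range (m + 1), stp (κ (i + j)) (κ (i + j + 1)) := by
  intro m
  induction m with
  | zero => intro i; simp [seg, total]
  | succ m ih =>
    intro i
    have := ih (i + 1)
    have h1 : i + 1 + m + 1 = i + (m + 1) + 1 := by omega
    rw [h1] at this
    rw [Finset.sum_range_succ']
    simp only [seg, total]
    rw [this, add_comm]
    congr 1
    refine Finset.sum_congr rfl (fun j _ => ?_)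
    have h2 : i + 1 + j = i + (j + 1) := by omega
    rw [h2]

theorem rot_seg (h : CSeq α g n κ q F) (i : ℕ) (hi : i < n) :
    (seg κ 1 n).rotate i = seg κ (i + 1) n := by
  refine List.ext_getElem ?_ ?_
  · rw [List.length_rotate, seg_length, seg_length]
  · intro j h1 h2
    rw [List.getElem_rotate, seg_get, seg_get, seg_length]
    rw [seg_length] at h2
    by_cases hj : j + i < n
    · rw [Nat.mod_eq_of_lt hj]
      congr 1; omega
    · have h3 : (j + i) % n = j + i - n := by
        rw [Nat.mod_eq_sub_mod (by omega), Nat.mod_eq_of_lt (by omega)]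
      rw [h3, ← h.perk]
      congr 1; omega

/-- no short word is read -/
theorem not_short (h : CSeq α g n κ q F) (hα : ∀ t, Function.Injective (α t))
    (hG : Geo (α true).range (α false).range)
    (hg : ¬ IsABA (α true).range (α false).range g) : seg κ 1 n ∉ short := by
  intro hs
  have hgA := notA hg
  have hgA' : g⁻¹ ∉ (α true).range := fun hh => hgA ((Subgroup.inv_mem_iff _).1 hh)
  have hcA : ∀ x ∈ (α true).range, ∀ y ∈ (α true).range, x * y = y * x := by
    rintro _ ⟨x, rfl⟩ _ ⟨y, rfl⟩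
    rw [← map_mul, ← map_mul, mul_comm]
  have mA : ∀ k, pw α true k ∈ (α true).range := fun k => ⟨_, rfl⟩
  have mB : ∀ k, pw α false k ∈ (α false).range := fun k => ⟨_, rfl⟩
  have nz : ∀ t k, k ≠ 0 → pw α t k ≠ 1 := by
    intro t k hk hh
    refine hk ?_
    have : Multiplicative.ofAdd k = 1 := hα t (by rw [map_one]; exact hh)
    exact this
  have hr := h.prodr_one 1
  have hk0 := h.perk 0
  have f0 := h.fold 0
  have f1 := h.fold 1
  have f2 := h.fold 2
  have f3 := h.fold 3
  have f4 := h.fold 4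
  have f5 := h.fold 5
  have hlen : ∀ c : List Kind, seg κ 1 n = c → n = c.length := by
    intro c hc
    rw [← hc, seg_length]
  simp only [short, List.mem_cons, List.not_mem_nil, or_false] at hs
  rcases hs with hs | hs | hs | hs | hs | hs | hs | hs | hs | hs | hs | hs | hs | hs | hs | hs | hs
  all_goals
    have hn := hlen _ hs
    simp only [List.length_cons, List.length_nil, Nat.zero_add, Nat.reduceAdd] at hn
    subst hn
    simp only [seg, List.cons.injEq, and_true, Nat.reduceAdd] at hs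
    simp only [Nat.reduceAdd, zero_add, hs] at hk0 f0 f1 f2 f3 f4 f5
    simp only [prodr, Nat.reduceAdd, hs, Kind.ty, Kind.crn, mul_one] at hr
    try rw [← hk0] at f0
    simp only [Kind.nxt, Kind.inv, reduceCtorEq, true_implies, false_implies] at f0 f1 f2 f3 f4 f5
  · refine hgA ?_
    rw [eq_inv_of_mul_eq_one_right hr]
    exact Subgroup.inv_mem _ (mA _)
  · refine hgA' ?_
    rw [eq_inv_of_mul_eq_one_right hr]
    exact Subgroup.inv_mem _ (mA _)
  · exact wPPi hG (mA _) (mB _) (nz _ _ f0) hr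
  · refine wOO hG hgA (mA (q 1)) (mA (q 2)) ?_
    simpa only [mul_assoc] using hr
  · refine wOOi hG hgA (mA (q 1)) (mA (q 2)) (nz _ _ f1) ?_
    simpa only [mul_assoc] using hr
  · exact wPPi hG (mA (q 2)) (mB (q 1)) (nz _ _ f1) (mul_eq_one_comm.1 hr)
  · refine wOO hG hgA' (mA (q 1)) (mA (q 2)) ?_
    simpa only [mul_assoc] using hr
  · refine hg ⟨(pw α true (q 3))⁻¹, Subgroup.inv_mem _ (mA _), (pw α false (q 2))⁻¹,
      Subgroup.inv_mem _ (mB _), (pw α true (q 1))⁻¹, Subgroup.inv_mem _ (mA _), ?_⟩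
    calc g = (pw α true (q 3))⁻¹ * (pw α false (q 2))⁻¹ * (pw α true (q 1))⁻¹ *
          (pw α true (q 1) * (pw α false (q 2) * (pw α true (q 3) * g))) := by group
      _ = _ := by rw [hr, mul_one]
  · refine hg ⟨pw α true (q 1), mA _, pw α false (q 2), mB _, pw α true (q 3), mA _, ?_⟩
    calc g = (pw α true (q 1) * (pw α false (q 2) * (pw α true (q 3) * g⁻¹))) * g := by
          rw [hr, one_mul]
      _ = _ := by group
  · refine wOOOi hG hcA hgA (mA (q 1)) (mA (q 2)) (mA (q 3)) (nz _ _ f0) (nz _ _ f2) ?_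
    simpa only [mul_assoc] using hr
  · refine wOOiOi hG hcA hgA (mA (q 1)) (mA (q 2)) (mA (q 3)) (nz _ _ f0) (nz _ _ f1) ?_
    simpa only [mul_assoc] using hr
  · refine hg ⟨(pw α true (q 1))⁻¹, Subgroup.inv_mem _ (mA _), (pw α false (q 3))⁻¹,
      Subgroup.inv_mem _ (mB _), (pw α true (q 2))⁻¹, Subgroup.inv_mem _ (mA _), ?_⟩
    calc g = (pw α true (q 1))⁻¹ * (pw α true (q 1) * g * (pw α true (q 2) *
          pw α false (q 3))) * (pw α false (q 3))⁻¹ * (pw α true (q 2))⁻¹ := by group
      _ = _ := by rw [hr, mul_one]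
  · refine hg ⟨pw α true (q 3), mA _, pw α false (q 1), mB _, pw α true (q 2), mA _, ?_⟩
    have h1 : (pw α true (q 3) * pw α false (q 1) * pw α true (q 2)) * g⁻¹ = 1 := by
      calc (pw α true (q 3) * pw α false (q 1) * pw α true (q 2)) * g⁻¹ =
          pw α true (q 3) * (pw α false (q 1) * (pw α true (q 2) * g⁻¹ * pw α true (q 3))) *
            (pw α true (q 3))⁻¹ := by group
        _ = 1 := by rw [hr, mul_one, mul_inv_cancel]
    exact (mul_inv_eq_one.1 h1).symm
  · refine hG.e1 _ (mA (q 1)) _ (mB (q 2)) _ (mA (q 3)) _ (mB (q 4)) (nz _ _ f0) (nz _ _ f1)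
      (nz _ _ f2) (nz _ _ f3) ?_
    simpa only [mul_assoc] using hr
  · refine wOOi2 hG hgA (mA (q 1)) (mA (q 2)) (mA (q 3)) (mA (q 4)) (nz _ _ f0) (nz _ _ f1)
      (nz _ _ f3) ?_
    simpa only [mul_assoc] using hr
  · refine hG.e1 _ (mA (q 2)) _ (mB (q 3)) _ (mA (q 4)) _ (mB (q 1)) (nz _ _ f1) (nz _ _ f2)
      (nz _ _ f3) (nz _ _ f0) ?_
    have := mul_eq_one_comm.1 hr
    simpa only [mul_assoc] using this
  · refine hG.e6 g hg _ (mA (q 1)) _ (mA (q 2)) _ (mA (q 3)) _ (mA (q 4)) _ (mA (q 5)) _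
      (mA (q 6)) (nz _ _ f0) (nz _ _ f1) (nz _ _ f2) (nz _ _ f3) (nz _ _ f4) (nz _ _ f5) ?_
    simpa only [mul_assoc] using hr

/-- REG for sequences -/
theorem reg (h : CSeq α g n κ q F) (hα : ∀ t, Function.Injective (α t))
    (hG : Geo (α true).range (α false).range)
    (hg : ¬ IsABA (α true).range (α false).range g) :
    1206 ≤ ∑ j ∈ Finset.range n, stp (κ j) (κ (j + 1)) := by
  by_contra hcon
  push Not at hcon
  obtain ⟨m, rfl⟩ : ∃ m, n = m + 1 := ⟨n - 1, by have := h.pos; omega⟩
  have h1 := total_seg κ m 1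
  have h2 := h.valid_seg m 1
  have h3 : κ (1 + m + 1) = κ 1 := by
    rw [← h.perk 1]; congr 1
  rw [h3] at h1 h2
  have h4 : ∑ j ∈ Finset.range (m + 1), stp (κ (1 + j)) (κ (1 + j + 1)) =
      ∑ j ∈ Finset.range (m + 1), stp (κ j) (κ (j + 1)) := by
    rw [Finset.sum_range_succ, Finset.sum_range_succ', h3]
    have e1 : κ (1 + m) = κ 0 := by rw [← h.perk 0]; congr 1; omega
    rw [e1]
    congr 1
    refine Finset.sum_congr rfl (fun j _ => ?_)
    have : 1 + j = j + 1 := by omega
    rw [this]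
  rw [h4] at h1
  have h5 := isb_of_total (h.pure 1) h2 (by rw [h1]; exact hcon)
  have h6 : κ 1 :: seg κ (1 + 1) m = seg κ 1 (m + 1) := rfl
  rw [h6] at h5
  simp only [isb, seg_length, List.any_eq_true, List.mem_range, decide_eq_true_eq] at h5
  obtain ⟨i, hi, hi2⟩ := h5
  rw [h.rot_seg i hi] at hi2
  have h7 := (h.shift i).not_short hα hG hg
  rw [seg_shift, add_comm 1 i] at h7
  exact h7 hi2

end CSeq

end Pool.Agent.ABA
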