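import Pool.Agent.Helper70_ABA.Coarsen
import Pool.Agent.Helper17_ABA.CG2
import Pool.Agent.Helper83_ABA.Ops

/-! # The coarse diagram of a certificate -/

open Equiv Equiv.Perm H17ABA

namespace Pool.Agent.ABA

namespace LFS

variable {g : Wd ℤ} {x y z : ℤ} {Ω : Type} [Fintype Ω] [DecidableEq Ω]
  {fsF fsT fsR : List (List Ω)}

theorem long_of_pure {lab : Ω → Bool × ℤ} {o : Ω}
    (h : (kd g x y z lab fsT o).isOut = false) : ∃ c i, Long fsT c i o := by
  by_contra hcon
  rw [kd_F lab hcon] at h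
  exact absurd h (by simp [Kind.isOut])

theorem F_of_out (hn : (fsF ++ (fsT ++ fsR)).flatten.Nodup) {lab : Ω → Bool × ℤ} {o : Ω}
    (ho : o ∈ Sel fsF fsT) (h : (kd g x y z lab fsT o).isOut = true) : o ∈ fsF.flatten := by
  rcases ho with ho | ⟨c, i, ho⟩
  · exact ho
  · rw [kd_T hn (fun c hc => mem_fs_T hc) lab ho, kk_isOut] at h
    exact absurd h (by simp)

theorem kd_ty (hn : (fsF ++ (fsT ++ fsR)).flatten.Nodup) {lab : Ω → Bool × ℤ}
    (hT : TF g x y z lab fsT) (o : Ω) : (kd g x y z lab fsT o).ty = (lab o).1 := by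
  by_cases h : ∃ c i, Long fsT c i o
  · obtain ⟨c, i, h⟩ := h
    rw [kd_T hn (fun c hc => mem_fs_T hc) lab h, hT.lab_eq h]
  · rw [kd_F lab h]
    rfl

theorem kd_lbl (hn : (fsF ++ (fsT ++ fsR)).flatten.Nodup) {lab : Ω → Bool × ℤ}
    (hT : TF g x y z lab fsT) {o : Ω} (h : (kd g x y z lab fsT o).isOut = false) :
    (lab o).2 = (kd g x y z lab fsT o).lbl x y z := by
  obtain ⟨c, i, h⟩ := long_of_pure h
  rw [kd_T hn (fun c hc => mem_fs_T hc) lab h, hT.lab_eq h]

/-- THE COARSE DIAGRAM -/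
theorem exists_CD {Γ : Type} [Group Γ] (α : Bool → Multiplicative ℤ →* Γ)
    (D : FC ℤ Ω (fsF ++ (fsT ++ fsR))) (hT : TF g x y z D.lab fsT)
    (hR : ∀ d ∈ fsR, ev α (d.map D.lab) = 1) (hne : ∃ w, w ∈ Sel fsF fsT)
    (hmin : ∀ (w : Ω) (n : ℕ) (c : List Ω) (i : ℕ) (c' : List Ω) (i' : ℕ), Long fsT c i w →
      Ret D.l (Sel fsF fsT) w n → Long fsT c' i' ((D.l ^ n) w) →
      kk (sg g x y z D.lab c') i' = (kk (sg g x y z D.lab c) i).inv →
      ((btw D.l D.lab w n).map Prod.snd).sum ≠ 0) :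
    ∃ C : CD α (ev α g) (Sel fsF fsT),
      (∀ w, C.kind w = kd g x y z D.lab fsT w) ∧
      (∀ w : Sel fsF fsT, ∃ n, Ret D.l (Sel fsF fsT) w n ∧ (C.l w : Ω) = (D.l ^ n) w ∧
        C.p w = ((btw D.l D.lab w n).map Prod.snd).sum) ∧
      Nat.card (Sel fsF fsT) + 2 ≤ cyc C.σ + cyc C.l + good (C.σ * C.l⁻¹) C.r := by
  have hn := D.nodup
  have hsub : ∀ c ∈ fsT, c ∈ fsF ++ (fsT ++ fsR) := fun c hc => mem_fs_T hc
  have hsel : ∀ w ∈ Sel fsF fsT, w ∈ (fsF ++ (fsT ++ fsR)).flatten := by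
    rintro w (h | ⟨c, i, h⟩)
    · rw [List.flatten_append, List.mem_append]; exact Or.inl h
    · exact List.mem_flatten.2 ⟨c, mem_fs_T h.1, List.mem_of_getElem? h.2.2⟩
  have hlong0 : ∀ c ∈ fsT, ∃ o ∈ c, o ∈ Sel fsF fsT := by
    intro c hc
    have h1 : 0 < c.length := by rw [hT.length hc]; omega
    exact ⟨_, List.getElem_mem h1, Or.inr ⟨c, 0, hc, by omega, List.getElem?_eq_getElem h1⟩⟩
  have hface : ∀ d ∈ fsF ++ (fsT ++ fsR), (∀ w ∈ d, w ∉ Sel fsF fsT) →
      ev α (d.map D.lab) = 1 := by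
    intro d hd hd2
    rw [List.mem_append, List.mem_append] at hd
    rcases hd with hd | hd | hd
    · have : d = [] := by
        by_contra hne
        obtain ⟨o, ho⟩ := List.exists_mem_of_ne_nil d hne
        exact hd2 o ho (Or.inl (List.mem_flatten.2 ⟨d, hd, ho⟩))
      subst this
      rfl
    · obtain ⟨o, ho1, ho2⟩ := hlong0 d hd
      exact absurd ho2 (hd2 o ho1)
    · exact hR d hd
  obtain ⟨σS, lS, p, k, hσ, hl, hcount⟩ := H17.cg2_all ℤ Γ Ω α _ D (Sel fsF fsT) hne hsel hface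
  -- face permutation on T-faces
  have key : ∀ (w : Sel fsF fsT) (c : List Ω) (i : ℕ), Long fsT c i (w : Ω) →
      Long fsT c ((i + 1) % 3) (σS w : Ω) ∧ k w = (kk (sg g x y z D.lab c) i).crn (ev α g) := by
    intro w c i hw
    obtain ⟨n, h1, h2, h3⟩ := hσ w
    have hlen : c.length = g.length + 3 := hT.length hw.1
    obtain ⟨h4, h5⟩ := ret_T hn hlen hw
    have e := h1.unique h4
    subst e
    refine ⟨⟨hw.1, Nat.mod_lt _ (by omega), ?_⟩, ?_⟩
    · rw [h2]; exact h5
    · rw [h3, btw_T hn D.lab hlen hw]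
      obtain ⟨hc, hi, -⟩ := hw
      have hi' : i = 0 ∨ i = 1 ∨ i = 2 := by omega
      rw [hT.eq hc, Ts_drop]
      rcases hi' with rfl | rfl | rfl
      · cases sg g x y z D.lab c <;> simp [kk, Kind.crn]
      · cases sg g x y z D.lab c <;> simp [kk, Kind.crn]
      · cases sg g x y z D.lab c
        · simp [kk, Kind.crn]
        · simp [kk, Kind.crn, ev_winv]
  have keyF : ∀ (w : Sel fsF fsT), (w : Ω) ∈ fsF.flatten → (σS w : Ω) ∈ fsF.flatten := by
    intro w hw
    obtain ⟨n, h1, h2, h3⟩ := hσ w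
    obtain ⟨h4, h5⟩ := ret_F hn hw
    have e := h1.unique h4
    subst e
    rw [h2, pow_one]
    exact h5
  have hkT : ∀ (o : Ω) (c : List Ω) (i : ℕ), Long fsT c i o →
      kd g x y z D.lab fsT o = kk (sg g x y z D.lab c) i := fun o c i h =>
    kd_T hn hsub D.lab h
  let C : CD α (ev α g) (Sel fsF fsT) :=
    { σ := σS
      l := lS
      kind := fun w => kd g x y z D.lab fsT w
      p := p
      k := k
      face := by
        intro w hw
        obtain ⟨c, i, hw⟩ := long_of_pure hw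
        obtain ⟨h1, -⟩ := key w c i hw
        obtain ⟨h2, -⟩ := key _ c _ h1
        obtain ⟨h3, -⟩ := key _ c _ h2
        refine ⟨?_, ?_⟩
        · rw [hkT _ c i hw, hkT _ c _ h1, kk_nxt _ hw.2.1]
        · have e : (((i + 1) % 3 + 1) % 3 + 1) % 3 = i := by
            have := hw.2.1
            omega
          rw [e] at h3
          have h4 : (σS (σS (σS w)) : Ω) = w := by
            have := h3.2.2
            rw [hw.2.2] at this
            exact (Option.some.inj this).symm
          have h5 : (σS ^ 3) w = σS (σS (σS w)) := by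
            rw [pow_succ', pow_succ', pow_one, Perm.mul_apply, Perm.mul_apply]
          rw [h5]
          exact Subtype.ext h4
      faceOut := by
        intro w hw
        have h1 := keyF w (F_of_out hn w.2 hw)
        rw [kd_F D.lab (F_not_long hn h1)]
        rfl
      corner := by
        intro w hw
        obtain ⟨c, i, hw⟩ := long_of_pure hw
        obtain ⟨-, h1⟩ := key w c i hw
        rw [h1, hkT _ c i hw]
      line := by
        intro w
        rw [kd_ty hn hT, kd_ty hn hT]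
        obtain ⟨n, h1, h2, h3⟩ := hl w
        rw [h2]
        exact (D.ty_same (cs_pow_apply D.l w n)).symm
      fold := by
        intro w hw hw2
        obtain ⟨c, i, hlw⟩ := long_of_pure hw
        have hw3 : (kd g x y z D.lab fsT (lS w)).isOut = false := by
          rw [hw2, Kind.inv_isOut]; exact hw
        obtain ⟨c', i', hlw'⟩ := long_of_pure hw3
        obtain ⟨n, h1, h2, h3⟩ := hl w
        rw [h3]
        rw [hkT _ c i hlw, hkT _ c' i' hlw'] at hw2
        rw [h2] at hlw'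
        exact hmin w n c i c' i' hlw h1 hlw' hw2 }
  refine ⟨C, fun w => rfl, hl, ?_⟩
  have e : C.r = rstep α (fun w : Sel fsF fsT => (D.lab w).1) lS p k := by
    have e1 : (fun w : Sel fsF fsT => (C.kind w).ty) = (fun w : Sel fsF fsT => (D.lab w).1) := by
      funext w
      exact kd_ty hn hT w
    change rstep α (fun w : Sel fsF fsT => (C.kind w).ty) lS p k = _
    rw [e1]
  rw [e]
  exact hcount

end LFS

end Pool.Agent.ABA
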