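import Pool.Agent.Helper70_ABA.Reg

/-! # SUM: the linear count -/

open Equiv Equiv.Perm H17ABA

namespace Pool.Agent.ABA

open Kind

section cls

variable {S : Type} [Fintype S]

theorem cls_ineq (r : Setoid S) (F : S → ℤ) (P : Quotient r → Prop) (a b : ℤ)
    (h1 : ∀ w, P (Quotient.mk r w) → a + b ≤ clsSum r F w)
    (h2 : ∀ w, ¬ P (Quotient.mk r w) → a ≤ clsSum r F w) :
    a * nc r + b * Nat.card {q // P q} ≤ ∑ w, F w := by
  classical
  haveI : Fintype (Quotient r) := Fintype.ofFinite _
  have e1 : (nc r : ℤ) = ∑ q : Quotient r, 1 := by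
    unfold nc
    rw [Nat.card_eq_fintype_card]
    simp
  have e2 : (Nat.card {q // P q} : ℤ) = ∑ q : Quotient r, if P q then 1 else 0 := by
    rw [Nat.card_eq_fintype_card, Fintype.card_subtype]
    simp
  rw [e1, e2, Finset.mul_sum, Finset.mul_sum, ← Finset.sum_add_distrib,
    ← Finset.sum_fiberwise Finset.univ (fun w => Quotient.mk r w) F]
  refine Finset.sum_le_sum (fun q _ => ?_)
  obtain ⟨w, rfl⟩ := Quotient.exists_rep q
  have e3 : ∑ i ∈ Finset.univ.filter (fun i => Quotient.mk r i = ⟦w⟧), F i = clsSum r F w := by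
    unfold clsSum
    refine Finset.sum_congr ?_ (fun _ _ => rfl)
    ext v
    simp only [Finset.mem_filter, Finset.mem_univ, true_and]
    constructor
    · intro h
      exact r.symm' (Quotient.exact h)
    · intro h
      exact Quotient.sound (r.symm' h)
  rw [e3]
  by_cases hP : P ⟦w⟧
  · rw [if_pos hP]
    have := h1 w hP
    linarith
  · rw [if_neg hP]
    have := h2 w hP
    linarith

theorem clsSum_ge (r : Setoid S) (F : S → ℤ) (hF : ∀ v, 0 ≤ F v) (w : S) (T : Finset S)
    (hT : ∀ v ∈ T, r w v) : ∑ v ∈ T, F v ≤ clsSum r F w := by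
  classical
  unfold clsSum
  refine Finset.sum_le_sum_of_subset_of_nonneg ?_ (fun v _ _ => hF v)
  intro v hv
  simp only [Finset.mem_filter, Finset.mem_univ, true_and]
  exact hT v hv

theorem clsSum_ge_one (r : Setoid S) (F : S → ℤ) (hF : ∀ v, 0 ≤ F v) (w : S) {u : S}
    (hu : r w u) : F u ≤ clsSum r F w := by
  have := clsSum_ge r F hF w {u} (by simpa using hu)
  simpa using this

theorem clsSum_ge_two (r : Setoid S) (F : S → ℤ) (hF : ∀ v, 0 ≤ F v) (w : S) {u v : S}
    (hu : r w u) (hv : r w v) (huv : u ≠ v) : F u + F v ≤ clsSum r F w := by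
  classical
  have := clsSum_ge r F hF w {u, v} (by
    intro x hx
    simp only [Finset.mem_insert, Finset.mem_singleton] at hx
    rcases hx with rfl | rfl
    · exact hu
    · exact hv)
  rwa [Finset.sum_pair huv] at this

theorem clsSum_ge_three (r : Setoid S) (F : S → ℤ) (hF : ∀ v, 0 ≤ F v) (w : S) {u v x : S}
    (hu : r w u) (hv : r w v) (hx : r w x) (huv : u ≠ v) (hux : u ≠ x) (hvx : v ≠ x) :
    F u + F v + F x ≤ clsSum r F w := by
  classical
  have := clsSum_ge r F hF w {u, v, x} (by
    intro y hy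
    simp only [Finset.mem_insert, Finset.mem_singleton] at hy
    rcases hy with rfl | rfl | rfl
    · exact hu
    · exact hv
    · exact hx)
  rw [Finset.sum_insert (by simp [huv, hux]), Finset.sum_pair hvx] at this
  linarith

theorem clsSum_nonneg (r : Setoid S) (F : S → ℤ) (hF : ∀ v, 0 ≤ F v) (w : S) :
    0 ≤ clsSum r F w := by
  have := clsSum_ge r F hF w ∅ (by simp)
  simpa using this

theorem clsSum_ge_card (r : Setoid S) (F : S → ℤ) (c : ℤ) (w : S)
    (hF : ∀ v, r w v → c ≤ F v) : c * Nat.card {v // r w v} ≤ clsSum r F w := by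
  classical
  unfold clsSum
  rw [Nat.card_eq_fintype_card, Fintype.card_subtype]
  have := Finset.card_nsmul_le_sum (Finset.univ.filter (fun v => r w v)) F c (by
    intro v hv
    simp only [Finset.mem_filter, Finset.mem_univ, true_and] at hv
    exact hF v hv)
  rw [nsmul_eq_mul] at this
  linarith

theorem card_one_of_fix (l : Perm S) {w : S} (h : l w = w) : Nat.card {v // (cs l) w v} = 1 := by
  rw [Nat.card_eq_one_iff_unique]
  constructor
  · constructor
    rintro ⟨u, hu⟩ ⟨v, hv⟩
    obtain ⟨m, hm⟩ := hu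
    obtain ⟨n, hn⟩ := hv
    rw [Perm.zpow_apply_eq_self_of_apply_eq_self h] at hm hn
    exact Subtype.ext (hm.symm.trans hn)
  · exact ⟨⟨w, (cs l).refl' w⟩⟩

theorem two_of_card_two (l : Perm S) {w : S} (hw : l w ≠ w)
    (h : Nat.card {v // (cs l) w v} = 2) : l (l w) = w := by
  classical
  by_contra h2
  have h3 : l (l w) ≠ l w := fun hh => hw (l.injective hh)
  have h4 := clsSum_ge_three (cs l) (fun _ => 1) (by intro; norm_num) w (u := w) (v := l w)
    (x := l (l w)) ((cs l).refl' w) (cs_apply l w)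
    ((cs l).trans' (cs_apply l w) (cs_apply l (l w))) (Ne.symm hw) (Ne.symm h2) (Ne.symm h3)
  have h5 : clsSum (cs l) (fun _ => (1 : ℤ)) w = Nat.card {v // (cs l) w v} := by
    unfold clsSum
    rw [Nat.card_eq_fintype_card, Fintype.card_subtype]
    simp
  rw [h5, h] at h4
  norm_num at h4

/-- if no change of the kind happens on a cycle then the kind is constant -/
theorem const_of_step (l : Perm S) {K : Type} (κ : S → K) (w : S)
    (h : ∀ u, (cs l) w u → κ u = κ w → κ (l u) = κ w) (v : S) (hv : (cs l) w v) : κ v = κ w := by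
  obtain ⟨k, _, hk⟩ := SameCycle.exists_pow_eq' hv
  have key : ∀ j : ℕ, κ ((l ^ j) w) = κ w := by
    intro j
    induction j with
    | zero => rfl
    | succ j ih =>
      rw [pow_succ', Perm.mul_apply]
      exact h _ (cs_pow_apply l w j) ih
  rw [← hk]
  exact key k

end cls

namespace Kind

theorem inv_ne {a : Kind} (h : a.isOut = false) : a.inv ≠ a := by
  cases a <;> simp_all [inv, isOut]

theorem inv_inv (a : Kind) : a.inv.inv = a := by cases a <;> rfl

theorem inv_isOut (a : Kind) : a.inv.isOut = a.isOut := by cases a <;> rfl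

theorem pas_le (a b : Kind) : pas a b ≤ 600 := by
  unfold pas
  split_ifs <;> norm_num

theorem pas_A {a b : Kind} (h : a.ty = true) : pas a b ≤ 230 := by
  unfold pas
  split_ifs <;> norm_num

theorem pas_inv {a b : Kind} (h : b = a.inv) : pas a b = 0 := by
  unfold pas
  split_ifs <;> rfl

theorem pas_out {a b : Kind} (h : a.isOut = true) : pas a b = 0 := by
  unfold pas
  rw [h]; simp

theorem nxt_isOut (a : Kind) : a.nxt.isOut = a.isOut := by cases a <;> rfl

theorem cor_sum {a : Kind} (h : a.isOut = false) : a.cor + a.nxt.cor + a.nxt.nxt.cor = 600 := by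
  cases a <;> simp_all [cor, nxt, isOut]

theorem cor_out {a : Kind} (h : a.isOut = true) : a.cor = 0 := by
  cases a <;> simp_all [cor, isOut]

theorem nxt_ne {a : Kind} (h : a.isOut = false) : a.nxt ≠ a := by
  cases a <;> simp_all [nxt, isOut]

theorem nxt_nxt_ne {a : Kind} (h : a.isOut = false) : a.nxt.nxt ≠ a := by
  cases a <;> simp_all [nxt, isOut]

theorem B_cases {a b : Kind} (ha : a.isOut = false) (hb : b.isOut = false) (ta : a.ty = false)
    (tb : b.ty = false) (h : b ≠ a) : b = a.inv := by
  cases a <;> cases b <;> simp_all [ty, isOut, inv]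

end Kind

end Pool.Agent.ABA
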