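import Pool.Agent.Helper70_ABA.Sum

/-! # SUM: the linear count, main part -/

open Equiv Equiv.Perm H17ABA

namespace Pool.Agent.ABA

open Kind

namespace CD

variable {Γ : Type} [Group Γ] {α : Bool → Multiplicative ℤ →* Γ} {g : Γ} {S : Type} [Fintype S]

/-- indicator of the sides of T-faces -/
def iP (C : CD α g S) (w : S) : ℤ := if (C.kind w).isOut = true then 0 else 1

/-- indicator of the outer syllables -/
def iO (C : CD α g S) (w : S) : ℤ := if (C.kind w).isOut = true then 1 else 0

theorem iP_add_iO (C : CD α g S) (w : S) : C.iP w + C.iO w = 1 := by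
  unfold iP iO
  split_ifs <;> norm_num

theorem iO_t (C : CD α g S) {w : S} (h : (C.kind w).isOut = true) : C.iO w = 1 := by
  simp [iO, h]

theorem iP_t (C : CD α g S) {w : S} (h : (C.kind w).isOut = true) : C.iP w = 0 := by
  simp [iP, h]

theorem iO_f (C : CD α g S) {w : S} (h : (C.kind w).isOut = false) : C.iO w = 0 := by
  simp [iO, h]

theorem iP_f (C : CD α g S) {w : S} (h : (C.kind w).isOut = false) : C.iP w = 1 := by
  simp [iP, h]

theorem sum_iP (C : CD α g S) : ∑ w, C.iP w = Nat.card {w // (C.kind w).isOut = false} := by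
  classical
  rw [Nat.card_eq_fintype_card, Fintype.card_subtype, Finset.card_eq_sum_ones, Finset.sum_filter]
  push_cast
  refine Finset.sum_congr rfl (fun w _ => ?_)
  unfold iP
  cases (C.kind w).isOut <;> simp

theorem sum_iO (C : CD α g S) : ∑ w, C.iO w = Nat.card {w // (C.kind w).isOut = true} := by
  classical
  rw [Nat.card_eq_fintype_card, Fintype.card_subtype, Finset.card_eq_sum_ones, Finset.sum_filter]
  push_cast
  refine Finset.sum_congr rfl (fun w _ => ?_)
  unfold iO
  cases (C.kind w).isOut <;> simp

theorem isOut_σ (C : CD α g S) (w : S) : (C.kind (C.σ w)).isOut = (C.kind w).isOut := by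
  by_cases h : (C.kind w).isOut = true
  · rw [h, C.faceOut w h]
  · have h' : (C.kind w).isOut = false := by simpa using h
    rw [(C.face w h').1, nxt_isOut]

/-- number of faces -/
theorem ineq1 (C : CD α g S) : 3 * (cyc C.σ : ℤ) ≤ ∑ w, (C.iP w + 3 * C.iO w) := by
  classical
  have hF : ∀ v, 0 ≤ C.iP v + 3 * C.iO v := by
    intro v; unfold iP iO; split_ifs <;> norm_num
  have h := cls_ineq (cs C.σ) (fun w => C.iP w + 3 * C.iO w) (fun _ => False) 3 0
    (fun w h => absurd h id) (by
      intro w _
      by_cases hw : (C.kind w).isOut = true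
      · have := clsSum_ge_one (cs C.σ) _ hF w ((cs C.σ).refl' w)
        simp only [C.iP_t hw, C.iO_t hw] at this
        linarith
      · have hw' : (C.kind w).isOut = false := by simpa using hw
        have h1 : (C.kind (C.σ w)).isOut = false := by rw [C.isOut_σ]; exact hw'
        have h2 : (C.kind (C.σ (C.σ w))).isOut = false := by rw [C.isOut_σ]; exact h1
        have k1 := (C.face w hw').1
        have k2 := (C.face _ h1).1
        have n1 : w ≠ C.σ w := by
          intro hh
          rw [← hh] at k1
          exact nxt_ne hw' k1.symm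
        have n2 : C.σ w ≠ C.σ (C.σ w) := fun hh => n1 (C.σ.injective hh)
        have n3 : w ≠ C.σ (C.σ w) := by
          intro hh
          rw [← hh, k1] at k2
          exact nxt_nxt_ne hw' k2.symm
        have := clsSum_ge_three (cs C.σ) _ hF w ((cs C.σ).refl' w) (cs_apply C.σ w)
          ((cs C.σ).trans' (cs_apply C.σ w) (cs_apply C.σ (C.σ w))) n1 n3 n2
        simp only [C.iP_f hw', C.iO_f hw', C.iP_f h1, C.iO_f h1, C.iP_f h2, C.iO_f h2] at this
        linarith)
  simpa [cyc] using h

/-- predicate on classes: bad lines -/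
def badQ (C : CD α g S) (q : Quotient (cs C.l)) : Prop :=
  ∃ w, Quotient.mk (cs C.l) w = q ∧ C.bad w

theorem badQ_of (C : CD α g S) {w u : S} (h : (cs C.l) w u) (hb : C.bad u) :
    C.badQ (Quotient.mk (cs C.l) w) :=
  ⟨u, Quotient.sound ((cs C.l).symm' h), hb⟩

theorem pure_of_not {b : Bool} (h : ¬ b = true) : b = false := by simpa using h

/-- number of lines -/
theorem ineq2 (C : CD α g S) : 2 * (cyc C.l : ℤ) - C.nbad ≤ ∑ w, (C.iP w + 2 * C.iO w) := by
  classical
  have hF : ∀ v, 0 ≤ C.iP v + 2 * C.iO v := by
    intro v; unfold iP iO; split_ifs <;> norm_num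
  have h1 : ∀ v, 1 ≤ C.iP v + 2 * C.iO v := by
    intro v; unfold iP iO; split_ifs <;> norm_num
  have h := cls_ineq (cs C.l) (fun w => C.iP w + 2 * C.iO w) C.badQ 2 (-1)
    (by
      intro w _
      have := clsSum_ge_one (cs C.l) _ hF w ((cs C.l).refl' w)
      have := h1 w
      linarith)
    (by
      intro w hnb
      by_cases hl : C.l w = w
      · -- one element
        by_cases hw : (C.kind w).isOut = true
        · have := clsSum_ge_one (cs C.l) _ hF w ((cs C.l).refl' w)
          simp only [C.iP_t hw, C.iO_t hw] at this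
          linarith
        · exfalso
          apply hnb
          refine C.badQ_of ((cs C.l).refl' w) ⟨?_, ?_⟩
          · intro v hv
            obtain ⟨n, hn⟩ := hv
            rw [Perm.zpow_apply_eq_self_of_apply_eq_self hl] at hn
            rw [← hn]
            exact pure_of_not hw
          · by_cases ht : (C.kind w).ty = true
            · left
              refine ⟨ht, ?_, ?_⟩
              · rw [card_one_of_fix C.l hl]; norm_num
              · rw [card_one_of_fix C.l hl]; norm_num
            · right
              refine ⟨by simpa using ht, ?_⟩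
              intro v hv
              obtain ⟨n, hn⟩ := hv
              rw [Perm.zpow_apply_eq_self_of_apply_eq_self hl] at hn
              rw [← hn]
      · have := clsSum_ge_two (cs C.l) _ hF w ((cs C.l).refl' w) (cs_apply C.l w) (Ne.symm hl)
        have h2 := h1 w
        have h3 := h1 (C.l w)
        linarith)
  have e : (Nat.card {q // C.badQ q} : ℤ) = C.nbad := rfl
  rw [e] at h
  have e2 : (cyc C.l : ℤ) = nc (cs C.l) := rfl
  rw [e2]
  linarith

/-- cost of the lines -/
theorem ineq3 (C : CD α g S) : 1200 * (cyc C.l : ℤ) - 1200 * C.nbad ≤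
    ∑ w, (600 + 600 * C.iO w - (pas (C.kind w) (C.kind (C.l w)) : ℤ)) := by
  classical
  have hO : ∀ v, 0 ≤ C.iO v := by intro v; unfold iO; split_ifs <;> norm_num
  have hF : ∀ v, 0 ≤ 600 + 600 * C.iO v - (pas (C.kind v) (C.kind (C.l v)) : ℤ) := by
    intro v
    have h1 := pas_le (C.kind v) (C.kind (C.l v))
    have h2 := hO v
    have h3 : (pas (C.kind v) (C.kind (C.l v)) : ℤ) ≤ 600 := by exact_mod_cast h1
    linarith
  have h := cls_ineq (cs C.l)
    (fun w => 600 + 600 * C.iO w - (pas (C.kind w) (C.kind (C.l w)) : ℤ)) C.badQ 1200 (-1200)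
    (by
      intro w _
      have := clsSum_nonneg (cs C.l) _ hF w
      linarith)
    (by
      intro w hnb
      by_cases hout : ∃ u, (cs C.l) w u ∧ (C.kind u).isOut = true
      · obtain ⟨u, hu, hu2⟩ := hout
        have := clsSum_ge_one (cs C.l) _ hF w hu
        simp only [C.iO_t hu2, pas_out hu2] at this
        push_cast at this
        linarith
      · push Not at hout
        have hpure : ∀ u, (cs C.l) w u → (C.kind u).isOut = false := fun u hu =>
          pure_of_not (hout u hu)
        have htyl : ∀ u, (cs C.l) w u → (C.kind u).ty = (C.kind w).ty := by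
          intro u hu
          refine const_of_step C.l (fun v => (C.kind v).ty) w ?_ u hu
          intro v _ hv
          change (C.kind (C.l v)).ty = _
          rw [C.line]
          exact hv
        have hl : (cs C.l) w (C.l w) := cs_apply C.l w
        have hw := hpure w ((cs C.l).refl' w)
        by_cases ht : (C.kind w).ty = true
        · by_cases hcard : Nat.card {v // (cs C.l) w v} ≤ 3
          · by_cases hpair : Nat.card {v // (cs C.l) w v} = 2 ∧ C.kind (C.l w) = (C.kind w).inv
            · obtain ⟨h2, hinv⟩ := hpair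
              have hne : C.l w ≠ w := by
                intro hh
                rw [hh] at hinv
                exact inv_ne hw hinv.symm
              have hll := two_of_card_two C.l hne h2
              have := clsSum_ge_two (cs C.l) _ hF w ((cs C.l).refl' w) hl (Ne.symm hne)
              have h5 : C.kind (C.l (C.l w)) = (C.kind (C.l w)).inv := by
                rw [hll, hinv, Kind.inv_inv]
              simp only [pas_inv hinv, pas_inv h5] at this
              have h6 := hO w
              have h7 := hO (C.l w)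
              push_cast at this
              linarith
            · exact absurd (C.badQ_of ((cs C.l).refl' w) ⟨hpure, Or.inl ⟨ht, hcard, hpair⟩⟩) hnb
          · have := clsSum_ge_card (cs C.l)
              (fun w => 600 + 600 * C.iO w - (pas (C.kind w) (C.kind (C.l w)) : ℤ)) 370 w (by
                intro v hv
                have h1 := pas_A (a := C.kind v) (b := C.kind (C.l v)) (by rw [htyl v hv]; exact ht)
                have h2 := hO v
                have h3 : (pas (C.kind v) (C.kind (C.l v)) : ℤ) ≤ 230 := by exact_mod_cast h1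
                linarith)
            have h4 : (4 : ℤ) ≤ Nat.card {v // (cs C.l) w v} := by
              have : 4 ≤ Nat.card {v // (cs C.l) w v} := by omega
              exact_mod_cast this
            linarith
        · have ht' : (C.kind w).ty = false := by simpa using ht
          have hex : ∃ v, (cs C.l) w v ∧ C.kind v ≠ C.kind w := by
            by_contra hcon
            push Not at hcon
            exact hnb (C.badQ_of ((cs C.l).refl' w) ⟨hpure, Or.inr ⟨ht', hcon⟩⟩)
          obtain ⟨v, hv, hvw⟩ := hex
          have step : ∀ (a b : S), (cs C.l) w a → (cs C.l) w b → C.kind b ≠ C.kind a →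
              ∃ u, (cs C.l) w u ∧ C.kind u = C.kind a ∧ C.kind (C.l u) = (C.kind u).inv := by
            intro a b ha hb hab
            by_contra hcon
            push Not at hcon
            refine hab (const_of_step C.l C.kind a ?_ b ((cs C.l).trans' ((cs C.l).symm' ha) hb))
            intro u hu hku
            by_contra hne
            have hwu := (cs C.l).trans' ha hu
            have hwlu := (cs C.l).trans' hwu (cs_apply C.l u)
            refine hcon u hwu hku ?_
            refine B_cases (hpure u hwu) (hpure _ hwlu) ?_ ?_ ?_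
            · rw [htyl u hwu]; exact ht'
            · rw [htyl _ hwlu]; exact ht'
            · rw [hku]; exact hne
          obtain ⟨u1, h11, h12, h13⟩ := step w v ((cs C.l).refl' w) hv hvw
          obtain ⟨u2, h21, h22, h23⟩ := step v w hv ((cs C.l).refl' w) (Ne.symm hvw)
          have hne : u1 ≠ u2 := by
            intro hh
            rw [hh, h22] at h12
            exact hvw h12
          have := clsSum_ge_two (cs C.l) _ hF w h11 h21 hne
          simp only [pas_inv h13, pas_inv h23] at this
          have h6 := hO u1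
          have h7 := hO u2
          push_cast at this
          linarith)
  have e : (Nat.card {q // C.badQ q} : ℤ) = C.nbad := rfl
  rw [e] at h
  have e2 : (cyc C.l : ℤ) = nc (cs C.l) := rfl
  rw [e2]
  linarith

/-- corners -/
theorem sum_cor (C : CD α g S) : ∑ w, ((C.kind w).cor : ℤ) = 200 * ∑ w, C.iP w := by
  have e1 : ∑ w, ((C.kind (C.σ w)).cor : ℤ) = ∑ w, ((C.kind w).cor : ℤ) :=
    Equiv.sum_comp C.σ (fun w => ((C.kind w).cor : ℤ))
  have e2 : ∑ w, ((C.kind (C.σ (C.σ w))).cor : ℤ) = ∑ w, ((C.kind w).cor : ℤ) := by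
    rw [← e1]
    exact Equiv.sum_comp C.σ (fun w => ((C.kind (C.σ w)).cor : ℤ))
  have e3 : ∑ w, (((C.kind w).cor : ℤ) + ((C.kind (C.σ w)).cor : ℤ) +
      ((C.kind (C.σ (C.σ w))).cor : ℤ)) = ∑ w, 600 * C.iP w := by
    refine Finset.sum_congr rfl (fun w _ => ?_)
    by_cases hw : (C.kind w).isOut = true
    · have h1 : (C.kind (C.σ w)).isOut = true := by rw [C.isOut_σ]; exact hw
      have h2 : (C.kind (C.σ (C.σ w))).isOut = true := by rw [C.isOut_σ]; exact h1
      rw [cor_out hw, cor_out h1, cor_out h2]
      simp [iP, hw]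
    · have hw' := pure_of_not hw
      have h1 : (C.kind (C.σ w)).isOut = false := by rw [C.isOut_σ]; exact hw'
      rw [(C.face _ h1).1, (C.face w hw').1]
      have := cor_sum hw'
      simp only [iP, hw']
      norm_num
      exact_mod_cast this
  rw [Finset.sum_add_distrib, Finset.sum_add_distrib, e1, e2, ← Finset.mul_sum] at e3
  linarith

/-- predicate on classes: good curves -/
theorem ineq4 (C : CD α g S)
    (hreg : ∀ η₀ : S, (∀ η, (cs (C.σ * C.l⁻¹)) η₀ η → (C.kind (C.l⁻¹ η)).isOut = false) →
      (∃ f : S → Γ, ∀ η, (cs (C.σ * C.l⁻¹)) η₀ η → f ((C.σ * C.l⁻¹) η) = f η * C.r η) →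
      1206 ≤ cycSum (L := ℤ) (C.σ * C.l⁻¹) (fun η => (C.cost η : ℤ)) η₀) :
    1206 * (good (C.σ * C.l⁻¹) C.r : ℤ) ≤ ∑ η, ((C.cost η : ℤ) + 1206 * C.iO (C.l⁻¹ η)) := by
  classical
  have hO : ∀ v, 0 ≤ C.iO v := by intro v; unfold iO; split_ifs <;> norm_num
  have hF : ∀ η, 0 ≤ (C.cost η : ℤ) + 1206 * C.iO (C.l⁻¹ η) := by
    intro η
    have := hO (C.l⁻¹ η)
    positivity
  have h := cls_ineq (cs (C.σ * C.l⁻¹)) (fun η => (C.cost η : ℤ) + 1206 * C.iO (C.l⁻¹ η))
    (fun q => ∃ f : S → Γ, ∀ η, Quotient.mk (cs (C.σ * C.l⁻¹)) η = q →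
      f ((C.σ * C.l⁻¹) η) = f η * C.r η) 0 1206
    (by
      rintro w ⟨f, hf⟩
      by_cases hout : ∃ u, (cs (C.σ * C.l⁻¹)) w u ∧ (C.kind (C.l⁻¹ u)).isOut = true
      · obtain ⟨u, hu, hu2⟩ := hout
        have := clsSum_ge_one (cs (C.σ * C.l⁻¹)) _ hF w hu
        simp only [C.iO_t hu2] at this
        have h0 : (0 : ℤ) ≤ C.cost u := by positivity
        linarith
      · push Not at hout
        have h1 := hreg w (fun η hη => pure_of_not (hout η hη))
          ⟨f, fun η hη => hf η (Quotient.sound ((cs (C.σ * C.l⁻¹)).symm' hη))⟩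
        rw [cycSum_eq] at h1
        have h2 : clsSum (cs (C.σ * C.l⁻¹)) (fun η => (C.cost η : ℤ)) w ≤
            clsSum (cs (C.σ * C.l⁻¹)) (fun η => (C.cost η : ℤ) + 1206 * C.iO (C.l⁻¹ η)) w := by
          unfold clsSum
          refine Finset.sum_le_sum (fun v _ => ?_)
          have := hO (C.l⁻¹ v)
          linarith
        linarith)
    (by
      intro w _
      exact clsSum_nonneg _ _ hF w)
  unfold good
  linarith

end CD

theorem sumStmt : SumStmt := by
  intro Γ _ α g S _ C hreg hcount
  have h1 := C.ineq1
  have h2 := C.ineq2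
  have h3 := C.ineq3
  have h4 := C.ineq4 hreg
  have e0 : ∑ η, C.iO (C.l⁻¹ η) = ∑ w, C.iO w := Equiv.sum_comp C.l⁻¹ C.iO
  have e1 : ∑ η, (C.cost η : ℤ) = ∑ w, ((C.kind w).cor : ℤ) +
      ∑ w, (pas (C.kind w) (C.kind (C.l w)) : ℤ) := by
    rw [← Finset.sum_add_distrib, ← Equiv.sum_comp C.l]
    refine Finset.sum_congr rfl (fun w _ => ?_)
    unfold CD.cost
    rw [perm_inv_l]
    push_cast
    rfl
  have e2 : (Nat.card S : ℤ) = ∑ w, C.iP w + ∑ w, C.iO w := by
    rw [← Finset.sum_add_distrib]
    simp only [C.iP_add_iO]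
    rw [Nat.card_eq_fintype_card]
    simp
  have e3 := C.sum_cor
  have e4 := C.sum_iP
  have e5 := C.sum_iO
  have e6 : (Nat.card S : ℤ) + 2 ≤ cyc C.σ + cyc C.l + good (C.σ * C.l⁻¹) C.r := by
    exact_mod_cast hcount
  rw [Finset.sum_add_distrib, ← Finset.mul_sum] at h1 h2 h4
  rw [Finset.sum_sub_distrib, Finset.sum_add_distrib, ← Finset.mul_sum] at h3
  have e7 : ∑ _w : S, (600 : ℤ) = 600 * Nat.card S := by
    rw [Nat.card_eq_fintype_card]
    simp
    ring
  rw [e7] at h3
  rw [e0, e1, e3] at h4
  rw [e2] at e6 h3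
  have goal : (Nat.card {w // (C.kind w).isOut = false} : ℤ) ≤
      3 * (804 * Nat.card {w // (C.kind w).isOut = true} + 401 * C.nbad) := by
    rw [← e4, ← e5]
    linarith
  exact_mod_cast goal

end Pool.Agent.ABA
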