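import Pool.Agent.Helper17_ABA.PR2
import Pool.Agent.Helper89_ABA.Pln7

/-!
# Triples of rotations and translations of `P` with product one (MP_d857f1_al, part B, module TRIP)

Definitions and statements. (Plan: /team-store/ABA_partB.md, section 4.)
-/

set_option autoImplicit false

namespace Pool.Agent.ABA.B

open Pool.Agent.ABA Pool.Agent.ABA.B.TG Pool.Agent.ABA.B.H17

variable {G : Type} [Group G] {A B : Subgroup G} {g : G}

/-! ## the action on the carriers -/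

@[simp] theorem smul_plane (p q : PP A B g) : p • (plane q : Car A B g) = plane (p * q) := rfl
@[simp] theorem smul_line (p q : PP A B g) : p • (line q : Car A B g) = line (p * q) := rfl
@[simp] theorem smul_vx (p q : PP A B g) : p • (vx q : XV A B g) = vx (p * q) := rfl

/-- `c` is a plane -/
def IsPl (c : Car A B g) : Prop := ∃ q, c = plane q

/-- `c` is a line -/
def IsLn (c : Car A B g) : Prop := ∃ q, c = line q

/-- degree zero (rotation, for an element of a stabilizer of a carrier) -/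
def Rot (z : PP A B g) : Prop := dg A B g 1 0 z = 0 ∧ dg A B g 0 1 z = 0

/-! ## distances -/

section

variable (hg : ¬ IsABA A B g) (hgeo : Geo A B) (hι : Function.Injective (Pι A B g))

/-- distance from a vertex to a carrier -/
noncomputable def dVC (x : XV A B g) (c : Car A B g) : ℕ :=
  sInf {n | ∃ y, On c y ∧ dst (XX hg hgeo hι) x y = n}

/-- distance of two carriers -/
noncomputable def dCC (c c' : Car A B g) : ℕ :=
  sInf {n | ∃ x y, On c x ∧ On c' y ∧ dst (XX hg hgeo hι) x y = n}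

/-- every side in `c` from a vertex `y` to `z y` has length at least two -/
def NTwo (c : Car A B g) (z : PP A B g) : Prop :=
  ∀ (y : XV A B g) (s : List (XE A B g)), SideP hg hgeo hι c y (z • y) s → 2 ≤ s.length

end

/-! ## triples -/

/-- three elements and three carriers -/
structure Trp {G : Type} [Group G] (A B : Subgroup G) (g : G) where
  z1 : PP A B g
  z2 : PP A B g
  z3 : PP A B g
  c1 : Car A B g
  c2 : Car A B g
  c3 : Car A B g

namespace Trp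

/-- `z1 z2 z3 = 1`, `z_i ≠ 1` stabilizes `c_i`, the carriers are distinct -/
structure Ok (T : Trp A B g) : Prop where
  mul : T.z1 * T.z2 * T.z3 = 1
  s1 : T.z1 • T.c1 = T.c1
  s2 : T.z2 • T.c2 = T.c2
  s3 : T.z3 • T.c3 = T.c3
  n1 : T.z1 ≠ 1
  n2 : T.z2 ≠ 1
  n3 : T.z3 ≠ 1
  d12 : T.c1 ≠ T.c2
  d23 : T.c2 ≠ T.c3
  d13 : T.c1 ≠ T.c3

/-- cyclic move -/
def cyc (T : Trp A B g) : Trp A B g := ⟨T.z2, T.z3, T.z1, T.c2, T.c3, T.c1⟩

/-- mirror image -/
def mir (T : Trp A B g) : Trp A B g := ⟨T.z3⁻¹, T.z2⁻¹, T.z1⁻¹, T.c3, T.c2, T.c1⟩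

/-- conjugation -/
def conj (p : PP A B g) (T : Trp A B g) : Trp A B g :=
  ⟨p * T.z1 * p⁻¹, p * T.z2 * p⁻¹, p * T.z3 * p⁻¹, p • T.c1, p • T.c2, p • T.c3⟩

/-- Hurwitz move: `(z1 z2 z1⁻¹, z1, z3; z1 c2, c1, c3)` -/
def hur (T : Trp A B g) : Trp A B g :=
  ⟨T.z1 * T.z2 * T.z1⁻¹, T.z1, T.z3, T.z1 • T.c2, T.c1, T.c3⟩

/-- class Rt: three planes, at least two translations -/
def Rt (T : Trp A B g) : Prop :=
  T.Ok ∧ IsPl T.c1 ∧ IsPl T.c2 ∧ IsPl T.c3 ∧
    ((¬ Rot T.z1 ∧ ¬ Rot T.z2) ∨ (¬ Rot T.z2 ∧ ¬ Rot T.z3) ∨ (¬ Rot T.z1 ∧ ¬ Rot T.z3))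

/-- class Rr: three planes, three rotations -/
def Rr (T : Trp A B g) : Prop :=
  T.Ok ∧ IsPl T.c1 ∧ IsPl T.c2 ∧ IsPl T.c3 ∧ Rot T.z1 ∧ Rot T.z2 ∧ Rot T.z3

section

variable (hg : ¬ IsABA A B g) (hgeo : Geo A B) (hι : Function.Injective (Pι A B g))

/-- class Lt: two planes, one line, all translations, all `n_i ≥ 2` -/
def Lt (T : Trp A B g) : Prop :=
  T.Ok ∧ ((IsLn T.c1 ∧ IsPl T.c2 ∧ IsPl T.c3) ∨ (IsPl T.c1 ∧ IsLn T.c2 ∧ IsPl T.c3) ∨
    (IsPl T.c1 ∧ IsPl T.c2 ∧ IsLn T.c3)) ∧ ¬ Rot T.z1 ∧ ¬ Rot T.z2 ∧ ¬ Rot T.z3 ∧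
    NTwo hg hgeo hι T.c1 T.z1 ∧ NTwo hg hgeo hι T.c2 T.z2 ∧ NTwo hg hgeo hι T.c3 T.z3

/-- `L_Y(T, m)` -/
noncomputable def LY (T : Trp A B g) (m : XV A B g) : ℕ :=
  dVC hg hgeo hι m T.c1 + dVC hg hgeo hι m T.c2 + dVC hg hgeo hι m T.c3

/-- `L_V(T, 3)` (hub `c3`) -/
noncomputable def LV (T : Trp A B g) : ℕ := dCC hg hgeo hι T.c1 T.c3 + dCC hg hgeo hι T.c2 T.c3

end

/-- a class of triples which is closed under all moves -/
structure Cls (K : Trp A B g → Prop) : Prop where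
  ok : ∀ T, K T → T.Ok
  cyc : ∀ T, K T → K T.cyc
  mir : ∀ T, K T → K T.mir
  conj : ∀ p T, K T → K (T.conj p)
  hur : ∀ T, K T → K T.hur

/-- `L` is a lower bound for all `L_Y` and (with the cyclic moves) all `L_V` -/
def Low (hg : ¬ IsABA A B g) (hgeo : Geo A B) (hι : Function.Injective (Pι A B g))
    (K : Trp A B g → Prop) (L : ℕ) : Prop :=
  ∀ T, K T → (∀ m, L ≤ T.LY hg hgeo hι m) ∧ L ≤ T.LV hg hgeo hι

end Trp

/-! ## statements (all proved in Helper70_ABA/Trip.lean) -/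

/-- STAB -/
def StabStmt (A B : Subgroup G) (g : G) : Prop :=
  ∀ (c c' : Car A B g) (z : PP A B g), z ≠ 1 → z • c = c → z • c' = c' → c = c'

/-- fixed vertices: rotations fix exactly the vertices of their carrier, translations none -/
def FixStmt (A B : Subgroup G) (g : G) : Prop :=
  ∀ (c : Car A B g) (z : PP A B g), z ≠ 1 → z • c = c →
    (Rot z → ∀ y : XV A B g, z • y = y ↔ On c y) ∧ (¬ Rot z → ∀ y : XV A B g, z • y ≠ y)

/-- If a side of length one leads from `y` to `z y`, the two nodes at `y` are opposite. -/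
def OppStmt (A B : Subgroup G) (g : G) : Prop :=
  (∀ (m : Dr) (q z : PP A B g), z • (plane q : Car A B g) = plane q →
    xsrc (xinv (eA m q)) = z • (vx q : XV A B g) → actE z⁻¹ (xinv (eA m q)) = eA m.inv q) ∧
  (∀ (m : Bool) (q z : PP A B g), z • (line q : Car A B g) = line q →
    xsrc (xinv (eC m q)) = z • (vx q : XV A B g) → actE z⁻¹ (xinv (eC m q)) = eC (!m) q)

/-- the three classes are closed under the moves -/
def ClsStmt (hg : ¬ IsABA A B g) (hgeo : Geo A B) (hι : Function.Injective (Pι A B g)) : Prop :=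
  Trp.Cls (Trp.Rt (A := A) (B := B) (g := g)) ∧ Trp.Cls (Trp.Rr (A := A) (B := B) (g := g)) ∧
    Trp.Cls (Trp.Lt hg hgeo hι)

/-- the minimum: case Y or case V -/
def MinStmt (hg : ¬ IsABA A B g) (hgeo : Geo A B) (hι : Function.Injective (Pι A B g)) : Prop :=
  ∀ K : Trp A B g → Prop, Trp.Cls K → (∃ T, K T) → ∃ L, Trp.Low hg hgeo hι K L ∧
    ((∃ T m, K T ∧ T.LY hg hgeo hι m = L ∧ ∀ T', K T' → L < T'.LV hg hgeo hι) ∨
      ∃ T, K T ∧ T.LV hg hgeo hι = L)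

/-- What the minimality of `L` gives for the two triples with the carriers `c1`, `z1 c2` (third
carrier `c3` or `z1 c3`), with the obvious equalities of distances. -/
structure HurI (hg : ¬ IsABA A B g) (hgeo : Geo A B) (hι : Function.Injective (Pι A B g))
    (T : Trp A B g) (L : ℕ) : Prop where
  y1 : ∀ n, L ≤ dVC hg hgeo hι n T.c1 + dVC hg hgeo hι n (T.z1 • T.c2) + dVC hg hgeo hι n T.c3
  y2 : ∀ n, L ≤ dVC hg hgeo hι n T.c1 + dVC hg hgeo hι n (T.z1 • T.c2) +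
    dVC hg hgeo hι n (T.z1 • T.c3)
  hub1 : L ≤ dCC hg hgeo hι T.c1 (T.z1 • T.c2) + dCC hg hgeo hι T.c1 T.c3
  hub2 : L ≤ dCC hg hgeo hι T.c1 (T.z1 • T.c2) + dCC hg hgeo hι T.c2 T.c3
  hub3 : L ≤ dCC hg hgeo hι T.c1 T.c3 + dCC hg hgeo hι T.c2 T.c3
  e1 : T.z1 • T.c2 = T.z3⁻¹ • T.c2
  e2 : dCC hg hgeo hι (T.z1 • T.c2) T.c3 = dCC hg hgeo hι T.c2 T.c3
  e3 : dCC hg hgeo hι (T.z1 • T.c2) (T.z1 • T.c3) = dCC hg hgeo hι T.c2 T.c3
  e4 : dCC hg hgeo hι T.c1 (T.z1 • T.c3) = dCC hg hgeo hι T.c1 T.c3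
  ne : T.c1 ≠ T.z1 • T.c2

/-- the consequences of minimality hold -/
def HurStmt (hg : ¬ IsABA A B g) (hgeo : Geo A B) (hι : Function.Injective (Pι A B g)) : Prop :=
  ∀ (K : Trp A B g → Prop) (L : ℕ), Trp.Cls K → Trp.Low hg hgeo hι K L → ∀ T, K T →
    HurI hg hgeo hι T L

/-- lengths of translations: `ι a u^i v^i` in a plane and `ι b c^i` in a line -/
def LenStmt (hg : ¬ IsABA A B g) (hgeo : Geo A B) (hι : Function.Injective (Pι A B g)) : Prop :=
  (∀ (c : Car A B g) (z : PP A B g) (y : XV A B g) (s : List (XE A B g)),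
    SideP hg hgeo hι c y (z • y) s → IsPl c → |dg A B g 1 1 z| ≤ s.length) ∧
  (∀ (c : Car A B g) (z : PP A B g) (y : XV A B g) (s : List (XE A B g)),
    SideP hg hgeo hι c y (z • y) s → |dg A B g 1 0 z| ≤ s.length)

end Pool.Agent.ABA.B
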